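import Mathlib
import Pool.Agent.MP_6b3410_lc.H91.Proj2

/-!
Module statements for the monotone bound inside an explicit host graph.
-/

open Finset

namespace Pool.Agent.MP_6b3410_lc.X91

open Classical Pool.Agent.MP_6b3410_lc.H5 Pool.Agent.MP_6b3410_lc.H19

/-- the distance of `x` and `y` is `2 ^ a` or `2 ^ a - 1` -/
def Near (x y : ℕ) : Prop :=
  ∃ a : ℕ, x + 2 ^ a = y ∨ y + 2 ^ a = x ∨ x + 2 ^ a = y + 1 ∨ y + 2 ^ a = x + 1

/-- near, or the two ends of the line of blocks -/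
def NearC (P x y : ℕ) : Prop := Near x y ∨ (x = P - 1 ∧ y = 0) ∨ (x = 0 ∧ y = P - 1)

/-- two fixed-point-free involutions have a common proper two-colouring -/
def ColStmt : Prop :=
  ∀ (O : Type) [Finite O] (s t : O → O), Function.Involutive s → Function.Involutive t →
    (∀ o, s o ≠ o) → (∀ o, t o ≠ o) → ∃ c : O → Bool, ∀ o, c (s o) ≠ c o ∧ c (t o) ≠ c o

/-- Benes routing -/
def RouteStmt : Prop :=
  ∀ (d : ℕ) (O : Type) [Finite O] (α β : O → ℕ), Function.Injective α → Function.Injective β →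
    (∀ o, α o < 2 ^ d) → (∀ o, β o < 2 ^ d) →
    ∃ path : ℕ → O → ℕ, path 0 = α ∧ path (2 * d) = β ∧ (∀ l, Function.Injective (path l)) ∧
      (∀ l o, path l o < 2 ^ d) ∧ ∀ l o, Near (path l o) (path (l + 1) o)

/-- sorting occurrences along a line -/
def LineStmt : Prop :=
  ∀ (O V : Type) [Fintype O] [Fintype V] (sc : O → V) (Q : ℕ),
    Fintype.card O + Fintype.card V ≤ Q →
    ∃ (lab : Fin Q → ℕ) (α : O → Fin Q) (st : V → Fin Q) (ix : V → ℕ), Monotone lab ∧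
      Function.Injective α ∧ Function.Injective ix ∧ (∀ o, lab (α o) = ix (sc o)) ∧
      ∀ v, lab (st v) = ix v

/-- `exists_chain` with the rows sorted by a key -/
def ChainStmt : Prop :=
  ∀ (ρ : Type) [Fintype ρ] (L : ρ → ℕ) (pv : ρ → ℕ),
    ∃ (row : Fin (∑ r, L r) → ρ) (pos : Fin (∑ r, L r) → ℕ),
      (∀ j, pos j < L (row j)) ∧ (∀ r m, m < L r → ∃ j, row j = r ∧ pos j = m) ∧
      (∀ j j', row j = row j' → pos j = pos j' → j = j') ∧
      (∀ j j', row j = row j' → pos j + 1 = pos j' → j.val + 1 = j'.val) ∧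
      ∀ j j', j ≤ j' → pv (row j) ≤ pv (row j')

/-- the split vertices can be laid out block by block -/
def LayStmt : Prop :=
  ∀ (V : Type) [Fintype V] (N : ℕ) (blk : V → ℕ) (g : Fin N → ℕ), (∀ i, ∃ v, blk v = g i) →
    (∀ p, 3 * (univ.filter fun v => blk v = p).card ≤ (univ.filter fun i => g i = p).card) →
    ∃ (len : V → ℕ) (q : Spl len ≃ Fin N), ∀ s, g (q s) = blk s.1

/-- `exists_rails2` with control of the blocks -/
def RailsStmt : Prop :=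
  ∀ (V ι : Type) [Fintype V] [Nonempty V] (N : ℕ) (blk : V → ℕ) (g : Fin N → ℕ)
    (R : ℕ → ℕ → Prop), (∀ p, R p p) → (∀ p q, R p q → R q p) → (∀ i, ∃ v, blk v = g i) →
    (∀ p, 3 * (univ.filter fun v => blk v = p).card ≤ (univ.filter fun i => g i = p).card) →
    ∀ src tgt : ι → V, (∀ p p', src p = src p' → tgt p = tgt p' → p = p') →
    (∀ p, R (blk (src p)) (blk (tgt p))) →
    3 * Fintype.card V ≤ N ∧ ∃ rail : ι → Edge N, Function.Injective rail ∧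
      (∀ p, R (g (rail p).1.1) (g (rail p).1.2)) ∧
      ∀ A0 : V → V → Prop, (∀ p, ¬ A0 (src p) (tgt p)) → (∀ u v, A0 u v → R (blk u) (blk v)) →
        ∃ rho : Edge N → Bool,
        (univ.filter fun e => rho e = true).card ≤
          N + (univ.filter fun p : V × V => A0 p.1 p.2).card ∧
        (∀ e, rho e = true → R (g e.1.1) (g e.1.2)) ∧
        ∀ x : Edge N → Bool, (∀ e, e ∉ Set.range rail → x e = rho e) →
          (Ham x ↔ DHam fun u v => A0 u v ∨ ∃ p, x (rail p) = true ∧ u = src p ∧ v = tgt p)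

/-- `mono_proj2` for a local formula -/
def CnfStmt : Prop :=
  ∀ (n N P : ℕ) (Y K O S : Type) [Fintype Y] [Fintype K] [Fintype O] [Fintype S]
    (cl : O → K) (sc : O → Fin n ⊕ Y) (sg : O → Bool) (pv : Fin n ⊕ Y → ℕ) (pk : K → ℕ)
    (tv : Fin n ⊕ Y → S) (tk : K → S) (tc : O → S) (g : Fin N → ℕ) (R : ℕ → ℕ → Prop),
    1 ≤ n → (∀ p, R p p) → (∀ p q, R p q → R q p) → (∀ p, R p (p + 1)) → R (P - 1) 0 →
    (∀ r, pv r < P) → (∀ p, p < P → ∃ r, pv r = p) → (∀ κ, pk κ < P) → (∀ i, g i < P) →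
    (∀ r r', pv r = pv r' → tv r = tv r' → r = r') →
    (∀ κ κ', pk κ = pk κ' → tk κ = tk κ' → κ = κ') →
    (∀ o o', sc o = sc o' → tc o = tc o' → o = o') → (∀ o, R (pv (sc o)) (pk (cl o))) →
    (∀ p, p < P → 9 * (Fintype.card S + 2) ^ 2 ≤ (univ.filter fun i => g i = p).card) →
    ∃ π : Edge N → Fin n ⊕ Bool,
      (univ.filter fun e => π e ≠ Sum.inr false).card ≤ 3 * N ∧
      (∀ e, π e ≠ Sum.inr false → R (g e.1.1) (g e.1.2)) ∧
      ∀ w : Fin n → Bool, Ham (fun e => Sum.elim w id (π e)) ↔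
        ∃ z : Fin n → Bool, (∀ i, z i = true → w i = true) ∧
          ∃ y : Y → Bool, ∀ κ, ∃ o, cl o = κ ∧ Sum.elim z y (sc o) = sg o

/-- the same for a local system of ternary constraints -/
def CspStmt : Prop :=
  ∀ (n N P : ℕ) (Y ι S : Type) [Fintype Y] [Fintype ι] [Fintype S]
    (sc : ι → Fin 3 → Fin n ⊕ Y) (Rel : ι → (Fin 3 → Bool) → Prop) (pv : Fin n ⊕ Y → ℕ)
    (pk : ι → ℕ) (tv : Fin n ⊕ Y → S) (tk : ι → S) (g : Fin N → ℕ) (R : ℕ → ℕ → Prop),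
    1 ≤ n → (∀ p, R p p) → (∀ p q, R p q → R q p) → (∀ p, R p (p + 1)) → R (P - 1) 0 →
    (∀ r, pv r < P) → (∀ t, pk t < P) → (∀ i, g i < P) →
    (∀ r r', pv r = pv r' → tv r = tv r' → r = r') →
    (∀ t t', pk t = pk t' → tk t = tk t' → t = t') →
    (∀ k t t', sc t k = sc t' k → tk t = tk t' → t = t') → (∀ t k, R (pv (sc t k)) (pk t)) →
    (∀ p, p < P →
      9 * (24 * (Fintype.card S + 1) + 2) ^ 2 ≤ (univ.filter fun i => g i = p).card) →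
    ∃ π : Edge N → Fin n ⊕ Bool,
      (univ.filter fun e => π e ≠ Sum.inr false).card ≤ 3 * N ∧
      (∀ e, π e ≠ Sum.inr false → R (g e.1.1) (g e.1.2)) ∧
      ∀ w : Fin n → Bool, Ham (fun e => Sum.elim w id (π e)) ↔
        ∃ z : Fin n → Bool, (∀ i, z i = true → w i = true) ∧
          ∃ y : Y → Bool, ∀ t, Rel t fun k => Sum.elim z y (sc t k)

/-- every formula is equivalent to a local system of ternary constraints -/
def LocStmt : Prop :=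
  ∀ (n d : ℕ) (Y K O : Type) [Fintype Y] [Fintype K] [Fintype O]
    (cl : O → K) (sc : O → Fin n ⊕ Y) (sg : O → Bool),
    Fintype.card O + (n + Fintype.card Y) ≤ 2 ^ d → Fintype.card O + Fintype.card K ≤ 2 ^ d →
    ∃ (Y' ι : Type) (_ : Fintype Y') (_ : Fintype ι) (sc' : ι → Fin 3 → Fin n ⊕ Y')
      (Rel : ι → (Fin 3 → Bool) → Prop) (pv : Fin n ⊕ Y' → ℕ) (pk : ι → ℕ)
      (tv : Fin n ⊕ Y' → Fin (2 * d + 1) ⊕ Fin 4) (tk : ι → Fin (2 * d + 1) ⊕ Fin 4),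
      (∀ r, pv r < 2 ^ d) ∧ (∀ t, pk t < 2 ^ d) ∧
      (∀ r r', pv r = pv r' → tv r = tv r' → r = r') ∧
      (∀ t t', pk t = pk t' → tk t = tk t' → t = t') ∧
      (∀ k t t', sc' t k = sc' t' k → tk t = tk t' → t = t') ∧
      (∀ t k, Near (pv (sc' t k)) (pk t)) ∧
      ∀ z : Fin n → Bool, (∃ y : Y' → Bool, ∀ t, Rel t fun k => Sum.elim z y (sc' t k)) ↔
        ∃ y : Y → Bool, ∀ κ, ∃ o, cl o = κ ∧ Sum.elim z y (sc o) = sg o

/-- the blocks of the host graph -/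
def HostStmt : Prop :=
  ∀ N P τ T : ℕ, 0 < P → P * 2 ^ τ ≤ N → N < (P + 1) * 2 ^ τ → 4 * 2 ^ τ ≤ T →
    ∃ g : Fin N → ℕ, (∀ i, g i < P) ∧
      (∀ p, p < P → 2 ^ τ ≤ (univ.filter fun i => g i = p).card) ∧
      ∀ i j : Fin N, i < j → NearC P (g i) (g j) →
        (∃ a : ℕ, j.val ≤ i.val + 2 ^ a + T ∧ i.val + 2 ^ a ≤ j.val + T) ∨ i.val + N ≤ j.val + T

/-- choice of the block size -/
def NumStmt : Prop :=
  ∀ C M₀ : ℕ, ∃ C' n₀ : ℕ, ∀ N : ℕ, n₀ ≤ N → ∃ P τ d : ℕ, P * 2 ^ τ ≤ N ∧ N < (P + 1) * 2 ^ τ ∧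
    4 * 2 ^ τ ≤ Nat.log 2 N ^ 4 ∧ 2 ^ d ≤ P ∧ M₀ ≤ 2 ^ d ∧
    9 * (24 * (2 * d + 1 + 4 + 1) + 2) ^ 2 ≤ 2 ^ τ ∧
    (N : ℝ) / Real.log N ^ C' ≤ ((2 ^ d : ℕ) : ℝ) / Real.log ((2 ^ d : ℕ) : ℝ) ^ C

end Pool.Agent.MP_6b3410_lc.X91
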