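import Mathlib
import Pool.Agent.MP_6b3410_lc.X91.Spec

/-!
Assembly of the monotone bound inside the explicit host graph.
-/

open Finset

namespace Pool.Agent.MP_6b3410_lc.X91

open Classical Pool.Agent.MP_6b3410_lc.H5 Pool.Agent.MP_6b3410_lc.H19 Pool.Agent.MP_6b3410_lc.H91

theorem proj3 (hLoc : LocStmt) (hCsp : CspStmt) (n v m M P d : ℕ) (N : Fin n → Finset (Fin v))
    (a : Fin n → Fin v → Fin m) (hn : 1 ≤ n) (hN : ∀ i, (N i).card ≤ 12) (hvm : v * m ≤ n)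
    (hv : v ≤ n) (hM : 300 * n ≤ 2 ^ d) (hP : 2 ^ d ≤ P) (g : Fin M → ℕ) (hg : ∀ i, g i < P)
    (hf : ∀ p, p < P →
      9 * (24 * (2 * d + 1 + 4 + 1) + 2) ^ 2 ≤ (univ.filter fun i => g i = p).card) :
    ∃ π : H19.Edge M → Fin n ⊕ Bool,
      (univ.filter fun e => π e ≠ Sum.inr false).card ≤ 3 * M ∧
      (∀ e, π e ≠ Sum.inr false → NearC P (g e.1.1) (g e.1.2)) ∧
      ∀ w : Fin n → Bool,
        H19.Ham (fun e => Sum.elim w id (π e)) ↔ ∃ x, ∀ i, Hit N a i x → w i = true := by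
  have hO : Fintype.card (Σ i : Fin n, {u // u ∈ N i}) ≤ 12 * n := by
    rw [Fintype.card_sigma]
    refine (sum_le_card_nsmul _ _ 12 fun i _ => ?_).trans (by simp [mul_comm])
    simpa using hN i
  obtain ⟨Y', ι, _, _, sc', Rel, pv, pk, tv, tk, a1, a2, a3, a4, a5, a6, a7⟩ :=
    hLoc n d (Fin v × Fin m) (Fin v ⊕ Fin n)
    ((Fin v × Fin m) ⊕ Fin n ⊕ (Σ i : Fin n, {u // u ∈ N i}))
    (Sum.elim (fun q => Sum.inl q.1) (Sum.elim (fun i => Sum.inr i) fun q => Sum.inr q.1))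
    (Sum.elim (fun q => Sum.inr q)
      (Sum.elim (fun i => Sum.inl i) fun q => Sum.inr (q.2.1, a q.1 q.2.1)))
    (Sum.elim (fun _ => true) (Sum.elim (fun _ => true) fun _ => false)) (by
      simp only [Fintype.card_sum, Fintype.card_prod, Fintype.card_fin]
      omega) (by
      simp only [Fintype.card_sum, Fintype.card_prod, Fintype.card_fin]
      omega)
  obtain ⟨π, h1, h3, h2⟩ := hCsp n M P Y' ι _ sc' Rel pv pk tv tk g (NearC P) hn
    (fun p => Or.inl ⟨0, Or.inr (Or.inr (Or.inl rfl))⟩)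
    (fun p q h => by
      rcases h with ⟨c, h⟩ | h | h
      · exact Or.inl ⟨c, by tauto⟩
      · exact Or.inr (Or.inr ⟨h.2, h.1⟩)
      · exact Or.inr (Or.inl ⟨h.2, h.1⟩))
    (fun p => Or.inl ⟨0, Or.inl rfl⟩) (Or.inr (Or.inl ⟨rfl, rfl⟩))
    (fun r => (a1 r).trans_le hP) (fun t => (a2 t).trans_le hP) hg a3 a4 a5
    (fun t k => Or.inl (a6 t k)) (by
      simpa only [Fintype.card_sum, Fintype.card_fin] using hf)
  simp only [a7] at h2
  refine ⟨π, h1, h3, fun w => (h2 w).trans ⟨?_, ?_⟩⟩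
  · rintro ⟨z, hz, y, hy⟩
    have hx : ∀ u, ∃ c, y (u, c) = true := by
      intro u
      obtain ⟨q | i | q, e1, e2⟩ := hy (Sum.inl u)
      · obtain rfl : q.1 = u := by simpa using e1
        exact ⟨q.2, by simpa using e2⟩
      · simp at e1
      · simp at e1
    choose x hx using hx
    refine ⟨x, fun i hi => ?_⟩
    obtain ⟨q | i' | ⟨i', u, hu⟩, e1, e2⟩ := hy (Sum.inr i)
    · simp at e1
    · obtain rfl : i' = i := by simpa using e1
      exact hz _ (by simpa using e2)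
    · obtain rfl : i' = i := by simpa using e1
      have e3 : y (u, a i' u) = false := by simpa using e2
      have e4 := hx u
      rw [hi u hu, e3] at e4
      simp at e4
  · rintro ⟨x, hx⟩
    refine ⟨w, fun _ h => h, fun q => decide (x q.1 = q.2), ?_⟩
    rintro (u | i)
    · exact ⟨Sum.inl (u, x u), rfl, by simp⟩
    · by_cases hi : Hit N a i x
      · exact ⟨Sum.inr (Sum.inl i), rfl, by simpa using hx i hi⟩
      · simp only [Hit, Agree, not_forall] at hi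
        obtain ⟨u, hu, h⟩ := hi
        exact ⟨Sum.inr (Sum.inr ⟨i, u, hu⟩), rfl, by simpa using h⟩

theorem glue3 (hC : CircStmt) (hH : HyperStmt) (hP : PatStmt) (hN : ParStmt) (hLoc : LocStmt)
    (hCsp : CspStmt) (hHost : HostStmt) (hNum : NumStmt) :
    ∃ C n₀ : ℕ, ∀ n : ℕ, n₀ ≤ n →
      ∃ H : Finset {p : Fin n × Fin n // p.1 < p.2}, H.card ≤ 3 * n ∧
      (∀ e ∈ H, (∃ k : ℕ, e.1.2.val ≤ e.1.1.val + 2 ^ k + Nat.log 2 n ^ 4 ∧
          e.1.1.val + 2 ^ k ≤ e.1.2.val + Nat.log 2 n ^ 4) ∨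
        e.1.1.val + n ≤ e.1.2.val + Nat.log 2 n ^ 4) ∧
      ∀ (s : ℕ) (G : Fin s → Bool × Bool → Bool)
        (a b : Fin s → ({p : Fin n × Fin n // p.1 < p.2} ⊕ Fin s)) (o : Fin s),
        (∀ g j : Fin s, (a g = Sum.inr j → j < g) ∧ (b g = Sum.inr j → j < g)) →
        (∀ g : Fin s, Monotone (G g)) →
        (∀ x : {p : Fin n × Fin n // p.1 < p.2} → Bool, (∀ e, x e = true → e ∈ H) →
          ∀ val : Fin s → Bool,
          (∀ g : Fin s, val g = G g (Sum.elim x val (a g), Sum.elim x val (b g))) →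
          (val o = true ↔
            (SimpleGraph.fromRel
              (fun i j : Fin n => ∃ h : i < j, x ⟨(i, j), h⟩ = true)).IsHamiltonian)) →
        Real.exp (n / Real.log n ^ C) ≤ (s : ℝ) := by
  obtain ⟨C, M₀, hM⟩ := hN
  obtain ⟨C', n₀, hn⟩ := hNum C M₀
  refine ⟨C', n₀, fun M hMM => ?_⟩
  obtain ⟨P, τ, d, b1, b2, b3, b4, b5, b6, b7⟩ := hn M hMM
  obtain ⟨g, g1, g2, g3⟩ := hHost M P τ _ (lt_of_lt_of_le (by positivity) b4) b1 b2 b3
  obtain ⟨n, v, t, L, s1, h1, h2, h3, h4, h5, h6, h7, h8, h9, h10, h11, h12, h13, h14⟩ :=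
    hM (2 ^ d) b5
  obtain ⟨N, hd, he⟩ := hH n v (cap s1) h1 h3 h7
  obtain ⟨pa, pb, hab⟩ := hP n v (t ^ 10) N (Nat.one_le_pow _ _ h2) hd h6
  obtain ⟨π, hπ1, hπ3, hπ2⟩ := proj3 hLoc hCsp n v (t ^ 10) M P d N pa (h1.trans h3) hd h4 h3 h5
    b4 g g1 fun p hp => b6.trans (g2 p hp)
  have hok : Ok (Fin (t ^ 10)) N (t : ℝ) L s1 :=
    ⟨by simp, hd, he, h8, by simpa using h9, by simpa using h10, h11, by exact_mod_cast h12,
      by simpa using (show (256 * n : ℝ) ≤ (t : ℝ) ^ s1 by exact_mod_cast h13),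
      by simpa using h1.trans h3⟩
  refine ⟨univ.filter fun e => π e ≠ Sum.inr false, hπ1,
    fun e he => g3 _ _ e.2 (hπ3 e (mem_filter.1 he).2), fun s G a b o hac hmono hF => ?_⟩
  have := hC _ _ _ N t L s1 hok pa pb hab _ π s G a b o hac hmono fun w val hval => by
    rw [← hπ2 w]
    refine hF _ (fun e he => mem_filter.2 ⟨mem_univ _, fun h => ?_⟩) val hval
    simp [h] at he
  have h15 := Real.exp_le_exp.2 b7
  linarith

end Pool.Agent.MP_6b3410_lc.X91
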