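import Mathlib
import Pool.Agent.MP_6b3410_lc.X91.Spec

/-!
The chain with sorted rows.
-/

open Finset

namespace Pool.Agent.MP_6b3410_lc.X91

theorem chain91 : ChainStmt := by
  intro ρ _ L pv
  let f0 := (Fintype.equivFin ρ).symm
  let f := (Tuple.sort (pv ∘ f0)).trans f0
  have hf : Monotone fun i => pv (f i) := Tuple.monotone_sort (pv ∘ f0)
  have hs : ∑ i, L (f i) = ∑ r, L r := Equiv.sum_comp f L
  rw [← hs]
  let e := (finSigmaFinEquiv (n := fun i => L (f i)))
  have key : ∀ p q : (Σ i, Fin (L (f i))), p.1 = q.1 →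
      (e p).val + q.2.val = (e q).val + p.2.val := by
    rintro ⟨i, k⟩ ⟨i', k'⟩ h
    dsimp only at h
    subst h
    simp only [e, finSigmaFinEquiv_apply]
    omega
  have key2 : ∀ p q : (Σ i, Fin (L (f i))), p.1 < q.1 → (e p).val < (e q).val := by
    rintro ⟨i, k⟩ ⟨i', k'⟩ h
    have h1 : i.val + 1 ≤ i'.val := h
    let F : ℕ → ℕ := fun m => if h : m < Fintype.card ρ then L (f ⟨m, h⟩) else 0
    have h2 : ∀ j : Fin (Fintype.card ρ),
        ∑ m : Fin j.val, L (f (Fin.castLE j.2.le m)) = ∑ m ∈ range j.val, F m := fun j => by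
      rw [sum_range]
      exact sum_congr rfl fun m _ => by
        simp only [F, dif_pos (m.2.trans j.2)]
        rfl
    have h3 : ∑ m ∈ range (i.val + 1), F m ≤ ∑ m ∈ range i'.val, F m :=
      sum_le_sum_of_subset (range_subset_range.2 h1)
    have h4 : F i.val = L (f i) := dif_pos i.2
    have h5 := k.2
    rw [sum_range_succ] at h3
    simp only [e, finSigmaFinEquiv_apply, h2]
    omega
  refine ⟨fun j => f (e.symm j).1, fun j => (e.symm j).2.val, fun j => (e.symm j).2.2,
    fun r m hm => ?_, fun j j' h1 h2 => ?_, fun j j' h1 h2 => ?_, fun j j' h => hf ?_⟩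
  · obtain ⟨i, rfl⟩ := f.surjective r
    exact ⟨e ⟨i, ⟨m, hm⟩⟩, by beta_reduce; rw [e.symm_apply_apply],
      by beta_reduce; rw [e.symm_apply_apply]⟩
  · have := key _ _ (f.injective h1)
    simp only [Equiv.apply_symm_apply] at this h2
    exact Fin.ext (by omega)
  · have := key _ _ (f.injective h1)
    simp only [Equiv.apply_symm_apply] at this h2
    omega
  · refine not_lt.1 fun h1 => ?_
    have := key2 _ _ h1
    simp only [Equiv.apply_symm_apply] at this
    exact absurd h (not_le.2 this)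

end Pool.Agent.MP_6b3410_lc.X91
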