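import Pool.Agent.MP_6b3410_lc.X91.Spec

/-!
The monotone projection of a local formula respects the blocks of the host graph.
-/

open Finset

namespace Pool.Agent.MP_6b3410_lc.X91

open Classical Pool.Agent.MP_6b3410_lc.H5 Pool.Agent.MP_6b3410_lc.H19 Pool.Agent.MP_6b3410_lc.H91

namespace Cnf

lemma occ {O V S : Type} [Fintype S] (sc : O → V) (tc : O → S)
    (h : ∀ o o', sc o = sc o' → tc o = tc o' → o = o') :
    ∃ oc : V → ℕ → Option O, (∀ v m o, oc v m = some o → sc o = v ∧ 2 ≤ m) ∧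
      ∀ o, ∃ m, m < Fintype.card S + 2 ∧ oc (sc o) m = some o := by
  let e := Fintype.equivFin S
  refine ⟨fun v m => if h : ∃ o, sc o = v ∧ 2 + (e (tc o)).val = m then some h.choose else none,
    fun v m o ho => ?_, fun o => ⟨2 + (e (tc o)).val, ?_, ?_⟩⟩
  · dsimp only at ho
    split_ifs at ho with h1
    obtain rfl := Option.some.inj ho
    have := h1.choose_spec
    exact ⟨this.1, by omega⟩
  · have := (e (tc o)).2
    omega
  · have h1 : ∃ o', sc o' = sc o ∧ 2 + (e (tc o')).val = 2 + (e (tc o)).val := ⟨o, rfl, rfl⟩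
    beta_reduce
    rw [dif_pos h1]
    have h2 := h1.choose_spec
    exact congrArg some (h _ _ h2.1 (e.injective (Fin.ext (by omega))))

/-- the block of a vertex -/
def blk {M : ℕ} {K : Type} (P : ℕ) (f : Fin M → ℕ) (pk : K → ℕ) : Vx M (K ⊕ Bool) → ℕ
  | Vx.E j _ => f j
  | Vx.Mi j => f j
  | Vx.C (Sum.inl k) => pk k
  | Vx.C (Sum.inr _) => P - 1
  | Vx.P false => P - 1
  | Vx.P true => 0

/-- the position of a vertex inside its block -/
def tag {M : ℕ} {K S T : Type} (f : Fin M → T) (tk : K → S) :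
    Vx M (K ⊕ Bool) → (T × Option Bool) ⊕ S ⊕ (Bool × Bool)
  | Vx.E j b => Sum.inl (f j, some b)
  | Vx.Mi j => Sum.inl (f j, none)
  | Vx.C (Sum.inl k) => Sum.inr (Sum.inl (tk k))
  | Vx.C (Sum.inr b) => Sum.inr (Sum.inr (b, false))
  | Vx.P b => Sum.inr (Sum.inr (b, true))

lemma blk_lt {M P : ℕ} {K : Type} {f : Fin M → ℕ} {pk : K → ℕ} (hP : 0 < P) (hf : ∀ j, f j < P)
    (hk : ∀ k, pk k < P) (v : Vx M (K ⊕ Bool)) : blk P f pk v < P := by
  rcases v with ⟨j, b⟩ | j | (k | b) | (_ | _)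
  · exact hf j
  · exact hf j
  · exact hk k
  · exact Nat.sub_lt hP one_pos
  · exact Nat.sub_lt hP one_pos
  · exact hP

lemma fibre {M P : ℕ} {K S T : Type} [Fintype K] [Fintype S] [Fintype T] {f : Fin M → ℕ}
    {pk : K → ℕ} (t : Fin M → T) (tk : K → S) (ht : ∀ j j', f j = f j' → t j = t j' → j = j')
    (hk : ∀ k k', pk k = pk k' → tk k = tk k' → k = k') (p : ℕ) :
    (univ.filter fun v => blk P f pk v = p).card ≤ Fintype.card T * 3 + (Fintype.card S + 4) := by
  have h := Finset.card_le_card_of_injOn (s := univ.filter fun v => blk P f pk v = p)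
    (t := univ) (tag t tk) (fun _ _ => mem_coe.2 (mem_univ _)) (by
      intro u hu v hv huv
      have e : blk P f pk u = blk P f pk v :=
        (mem_filter.1 (mem_coe.1 hu)).2.trans (mem_filter.1 (mem_coe.1 hv)).2.symm
      rcases u with ⟨j, b⟩ | j | (k | b) | b <;> rcases v with ⟨j', b'⟩ | j' | (k' | b') | b' <;>
        simp only [tag, Sum.inl.injEq, Sum.inr.injEq, Prod.mk.injEq, Option.some.injEq,
          reduceCtorEq, and_false, and_true] at huv
      · rw [ht j j' e huv.1, huv.2]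
      · rw [ht j j' e huv]
      · rw [hk k k' e huv]
      · rw [huv]
      · rw [huv])
  simpa using h

end Cnf

theorem cnf (hC : ChainStmt) (hR : RailsStmt) : CnfStmt := by
  intro n N P Y K O S _ _ _ _ cl sc sg pv pk tv tk tc g R hn r1 r2 r3 r4 hpv hon hpk hg iv ik ic
    hcl hbig
  obtain ⟨oc, ho1, ho2⟩ := Cnf.occ sc tc ic
  obtain ⟨L, hLs⟩ : ∃ L : Fin n ⊕ Y → ℕ, ∀ r, L r = Fintype.card S + 2 := ⟨_, fun _ => rfl⟩
  have hL : ∀ v, 2 ≤ L v := fun v => by rw [hLs]; omega
  replace ho2 : ∀ o, ∃ m, m < L (sc o) ∧ oc (sc o) m = some o := fun o => by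
    rw [hLs]; exact ho2 o
  obtain ⟨row, pos, h0, h1, h2, h3, hmo⟩ := hC (Fin n ⊕ Y) L pv
  have hM : 2 * n ≤ ∑ r, L r := by
    have := Finset.card_nsmul_le_sum univ L 2 fun r _ => hL r
    simp only [card_univ, Fintype.card_sum, Fintype.card_fin, smul_eq_mul] at this
    exact le_trans (by omega) this
  have hM0 : 0 < ∑ r, L r := by omega
  generalize (∑ r, L r) = M at *
  have hP : 0 < P := (Nat.zero_le _).trans_lt (hpv (Sum.inl ⟨0, hn⟩))
  have hon' : ∀ p, p < P → ∃ j, pv (row j) = p := fun p hp => by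
    obtain ⟨r, hr⟩ := hon p hp
    obtain ⟨j, e1, -⟩ := h1 r 0 (by have := hL r; omega)
    exact ⟨j, by rw [e1, hr]⟩
  have hstep : ∀ j j' : Fin M, j.val + 1 = j'.val → R (pv (row j)) (pv (row j')) := by
    intro j j' e
    have a1 := hmo j j' (by rw [Fin.le_def]; omega)
    have a2 := hpv (row j')
    by_cases a3 : pv (row j') = pv (row j)
    · rw [a3]; exact r1 _
    by_cases a4 : pv (row j') = pv (row j) + 1
    · rw [a4]; exact r3 _
    obtain ⟨k, hk⟩ := hon' (pv (row j) + 1) (by omega)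
    rcases le_or_gt k j with a5 | a5
    · have := hmo k j a5
      omega
    · have := hmo j' k (by rw [Fin.lt_def] at a5; rw [Fin.le_def]; omega)
      omega
  have hfirst : ∀ j : Fin M, j.val = 0 → pv (row j) = 0 := by
    intro j e
    obtain ⟨k, hk⟩ := hon' 0 hP
    have := hmo j k (by rw [Fin.le_def]; omega)
    omega
  have hlast : ∀ j : Fin M, j.val + 1 = M → pv (row j) = P - 1 := by
    intro j e
    obtain ⟨k, hk⟩ := hon' (P - 1) (by omega)
    have := hmo k j (by have := k.2; rw [Fin.le_def]; omega)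
    have := hpv (row j)
    omega
  have : Nonempty (Vx M (K ⊕ Bool)) := ⟨Vx.P true⟩
  have hs : ∀ i : Fin n, ∃ j j' : Fin M, row j = Sum.inl i ∧ pos j = 0 ∧ j.val + 1 = j'.val := by
    intro i
    have := hL (Sum.inl i)
    obtain ⟨j, e1, e2⟩ := h1 (Sum.inl i) 0 (by omega)
    obtain ⟨j', e3, e4⟩ := h1 (Sum.inl i) 1 (by omega)
    exact ⟨j, j', e1, e2, h3 _ _ (e1.trans e3.symm) (by omega)⟩
  choose j1 j2 hj1 hj2 hj3 using hs
  obtain ⟨hV, rail, hri, hrR, hr⟩ := hR (Vx M (K ⊕ Bool)) (Fin n × Bool × Bool) N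
    (Cnf.blk P (fun j => pv (row j)) pk) g R r1 r2
    (fun i => by
      obtain ⟨j, hj⟩ := hon' (g i) (hg i)
      exact ⟨Vx.Mi j, hj⟩)
    (fun p => by
      by_cases hp : p < P
      · have a1 := Cnf.fibre (P := P) (f := fun j => pv (row j)) (pk := pk)
          (T := S × Fin (Fintype.card S + 2))
          (fun j => (tv (row j), ⟨pos j, (hLs (row j)) ▸ h0 j⟩)) tk
          (fun j j' e1 e2 => h2 j j' (iv _ _ e1 (congrArg Prod.fst e2))
            (congrArg (fun x : S × Fin (Fintype.card S + 2) => x.2.val) e2)) ik p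
        have a2 := hbig p hp
        simp only [Fintype.card_prod, Fintype.card_fin] at a1
        refine le_trans ?_ a2
        nlinarith
      · have a1 : (univ.filter fun v : Vx M (K ⊕ Bool) =>
            Cnf.blk P (fun j => pv (row j)) pk v = p) = ∅ :=
          Finset.filter_eq_empty_iff.2 fun v _ e =>
            hp (e.symm.trans_lt (Cnf.blk_lt hP (fun j => hpv (row j)) hpk v))
        rw [a1]
        simp)
    (fun p : Fin n × Bool × Bool => Vx.E (j1 p.1) p.2.1)
    (fun p => Vx.E (j2 p.1) p.2.2) (by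
      rintro ⟨i, b1, b2⟩ ⟨i', b1', b2'⟩ e1 e2
      simp only [Vx.E.injEq] at e1 e2
      have e3 := hj1 i
      rw [e1.1, hj1] at e3
      rw [Sum.inl.inj e3, e1.2, e2.2]) (fun p => hstep _ _ (hj3 p.1))
  rw [card_vx, Fintype.card_sum, Fintype.card_bool] at hV
  have hocc : ∀ (j : Fin M) (c : K ⊕ Bool),
      ((oc (row j) (pos j)).map fun o => (Sum.inl (cl o) : K ⊕ Bool)) = some c →
      R (pv (row j)) (Cnf.blk P (fun j => pv (row j)) pk (Vx.C c)) := by
    intro j c e
    obtain ⟨o, e1, rfl⟩ := Option.map_eq_some_iff.1 e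
    rw [← (ho1 _ _ _ e1).1]
    exact hcl o
  obtain ⟨rho, hcnt, hrhoR, hrho⟩ := hr
    (Arc (fun j => (oc (row j) (pos j)).map fun o => Sum.inl (cl o))
    (fun j => ((oc (row j) (pos j)).map sg).getD false) (H48.trans L row pos fun _ => False)
    (fun c => c = Sum.inr false) (fun c => c = Sum.inr true) (fun _ _ => True)) (by
      rintro ⟨q, b1, b2⟩ ⟨-, (⟨_, -, -, h4⟩ | ⟨h4, -⟩)⟩
      · exact h4
      · exact h4 _ (hj1 q) (hj2 q)) (by
      rintro (⟨j, b⟩ | j | c | i) (⟨j', b'⟩ | j' | c' | i') hA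
      · exact hstep _ _ hA.1
      · obtain rfl : j = j' := hA
        exact r1 _
      · exact hocc j c' hA.1
      · obtain ⟨e1, rfl⟩ := hA
        change R (pv (row j)) (P - 1)
        rw [hlast j e1]
        exact r1 _
      · obtain rfl : j = j' := hA
        exact r1 _
      · exact hA.elim
      · exact hA.elim
      · exact hA.elim
      · exact hA.elim
      · exact r2 _ _ (hocc j' c hA)
      · obtain ⟨rfl, rfl, -⟩ := hA
        exact r1 _
      · obtain ⟨rfl, rfl⟩ := hA
        exact r4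
      · obtain ⟨rfl, e1⟩ := hA
        change R 0 (pv (row j'))
        rw [hfirst j' e1]
        exact r1 _
      · exact hA.elim
      · obtain ⟨rfl, rfl⟩ := hA
        exact r1 _
      · exact hA.elim)
  let π : Edge N → Fin n ⊕ Bool := fun e =>
    if h : ∃ p, rail p = e then
      (if h.choose.2.2 = true then Sum.inl h.choose.1 else Sum.inr true) else Sum.inr (rho e)
  have hpr : ∀ p, π (rail p) = if p.2.2 = true then Sum.inl p.1 else Sum.inr true := fun p => by
    have h : ∃ p', rail p' = rail p := ⟨p, rfl⟩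
    simp only [π, dif_pos h, hri h.choose_spec]
  have hpr' : ∀ e, e ∉ Set.range rail → π e = Sum.inr (rho e) := fun e he => dif_neg he
  refine ⟨π, ?_, fun e he => ?_, fun w => ?_⟩
  · have h4 := card_arc_le (fun j => (oc (row j) (pos j)).map fun o => Sum.inl (cl o))
      (fun j => ((oc (row j) (pos j)).map sg).getD false) (H48.trans L row pos fun _ => False)
      (Sum.inr false : K ⊕ Bool) (Sum.inr true)
    have h5 : (univ.image rail).card ≤ 4 * n := card_image_le.trans (by simp [mul_comm])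
    have h6 : (univ.filter fun e => π e ≠ Sum.inr false) ⊆
        univ.image rail ∪ univ.filter fun e => rho e = true := fun e he => by
      by_cases h : e ∈ Set.range rail
      · obtain ⟨p, rfl⟩ := h
        exact mem_union_left _ (mem_image_of_mem _ (mem_univ _))
      · have h7 := (mem_filter.1 he).2
        rw [hpr' e h] at h7
        exact mem_union_right _ (mem_filter.2 ⟨mem_univ _, by simpa using h7⟩)
    have h8 := (card_le_card h6).trans (card_union_le _ _)
    omega
  · by_cases h : e ∈ Set.range rail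
    · obtain ⟨p, rfl⟩ := h
      exact hrR p
    · rw [hpr' e h] at he
      exact hrhoR e (by simpa using he)
  have hx : ∀ p, Sum.elim w id (π (rail p)) = true ↔ (p.2.2 = true → w p.1 = true) := by
    rintro ⟨i, b, b'⟩
    cases b' <;> simp [hpr]
  rw [hrho _ (fun e he => by simp [hpr' e he])]
  simp only [← H48.good_iff cl sc sg oc hL ho1 ho2 h0 h1 h2 h3]
  rw [← PJ.good_mono _ _ _ _ _ j1 j2 hj1 hj2 hj3 h2 w, ← chain_iff hM0 (by
      rintro c rfl h'
      simp at h')]
  refine iff_of_eq (congrArg DHam ?_)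
  funext u v
  refine propext ⟨?_, fun hA => ?_⟩
  · rintro (hA | ⟨p, hp, rfl, rfl⟩)
    · cases u <;> cases v <;> first
        | exact hA
        | skip
      exact ⟨hA.1, hA.2.imp (fun ⟨_, _, _, h4⟩ => h4.elim) id⟩
    · exact ⟨hj3 _, Or.inl ⟨p.1, hj1 _, hj2 _, (hx p).1 hp⟩⟩
  · cases u <;> cases v <;> first
      | exact Or.inl hA
      | skip
    rename_i j b j' b'
    rcases hA with ⟨e1, ⟨i, e2, e3, e4⟩ | e2⟩
    · obtain rfl : j = j1 i := h2 _ _ (e2.trans (hj1 i).symm) (e3.trans (hj2 i).symm)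
      have e5 := hj3 i
      obtain rfl : j' = j2 i := Fin.ext (by omega)
      exact Or.inr ⟨(i, b, b'), (hx _).2 e4, rfl, rfl⟩
    · exact Or.inl ⟨e1, Or.inr e2⟩

end Pool.Agent.MP_6b3410_lc.X91
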