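import Pool.Agent.MP_6b3410_lc.X91.Spec

/-! Two fixed-point-free involutions have a common proper two-colouring. -/

namespace Pool.Agent.MP_6b3410_lc.X91

namespace Col

open Equiv

variable {O : Type}

lemma conj (a b : Perm O) (ha : a * a = 1) (hb : b * b = 1) (j : ℤ) :
    a * (a * b) ^ j = (a * b) ^ (-j) * a := by
  have hai : a⁻¹ = a := inv_eq_of_mul_eq_one_right ha
  have hbi : b⁻¹ = b := inv_eq_of_mul_eq_one_right hb
  have h1 : a * (a * b) * a⁻¹ = (a * b)⁻¹ := by
    rw [mul_inv_rev, hai, hbi, ← mul_assoc, ha, one_mul]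
  have h2 : (a * (a * b) * a⁻¹) ^ j = a * (a * b) ^ j * a⁻¹ := conj_zpow
  rw [h1, inv_zpow', ] at h2
  rw [h2, mul_assoc, inv_mul_cancel, mul_one]

lemma not_same (a b : Perm O) (ha : a * a = 1) (hb : b * b = 1) (fa : ∀ o, a o ≠ o)
    (fb : ∀ o, b o ≠ o) (x : O) : ¬ (a * b).SameCycle x (a x) := by
  rintro ⟨i, hi⟩
  obtain ⟨j, rfl | rfl⟩ := Int.even_or_odd' i
  · apply fa (((a * b) ^ j) x)
    have h := congrArg (fun p : Perm O => p x) (conj a b ha hb j)
    simp only [Perm.mul_apply] at h
    rw [h, ← hi, ← Perm.mul_apply, ← zpow_add]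
    have e : -j + 2 * j = j := by ring
    rw [e]
  · apply fb (((a * b) ^ j) x)
    have h := congrArg (fun p : Perm O => p x) (conj a b ha hb (j + 1))
    simp only [Perm.mul_apply] at h
    have e1 : (a * b) ^ (j + 1) = (a * b) * (a * b) ^ j := by
      rw [add_comm, zpow_add, zpow_one]
    have e2 : a (((a * b) ^ (j + 1)) x) = b (((a * b) ^ j) x) := by
      rw [e1, Perm.mul_apply, Perm.mul_apply, ← Perm.mul_apply a a, ha, Perm.one_apply]
    rw [← e2, h, ← hi, ← Perm.mul_apply, ← zpow_add]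
    have e : -(j + 1) + (2 * j + 1) = j := by ring
    rw [e]

end Col

theorem col : ColStmt := by
  intro O _ s t hs ht fs ft
  classical
  set a : Equiv.Perm O := hs.toPerm s with ha0
  set b : Equiv.Perm O := ht.toPerm t with hb0
  have aa : ∀ o, a o = s o := fun _ => rfl
  have bb : ∀ o, b o = t o := fun _ => rfl
  have ha : a * a = 1 := Equiv.ext fun o => hs o
  have hb : b * b = 1 := Equiv.ext fun o => ht o
  let S : Setoid O := Equiv.Perm.SameCycle.setoid (a * b)
  obtain ⟨ix, hix⟩ := Countable.exists_injective_nat (Quotient S)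
  let r : O → ℕ := fun o => ix (Quotient.mk S o)
  have hr : ∀ x y, (a * b).SameCycle x y → r x = r y := fun x y h =>
    congrArg ix (Quotient.sound h)
  have hne : ∀ x, r x ≠ r (s x) := fun x h =>
    Col.not_same a b ha hb fs ft x (Quotient.exact (hix h))
  have h1 : ∀ x, r (s (t x)) = r x := fun x => (hr x _ ⟨1, by rw [zpow_one]; rfl⟩).symm
  have h2 : ∀ x, r (t x) = r (s x) := fun x => hr _ _ ⟨1, by
    rw [zpow_one]
    show s (t (t x)) = s x
    rw [ht x]⟩
  refine ⟨fun o => decide (r o < r (s o)), fun o => ⟨?_, ?_⟩⟩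
  · have := hne o
    show decide (r (s o) < r (s (s o))) ≠ decide (r o < r (s o))
    rw [hs o]
    intro h
    have h' := decide_eq_decide.1 h
    omega
  · have := hne o
    show decide (r (t o) < r (s (t o))) ≠ decide (r o < r (s o))
    rw [h1, h2]
    intro h
    have h' := decide_eq_decide.1 h
    omega

end Pool.Agent.MP_6b3410_lc.X91
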