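import Mathlib

/-!
The explicit host graph has few edges.
-/

open Finset

namespace Pool.Agent.MP_6b3410_lc.X91

theorem count (n : ℕ) (hn : 16 ≤ n) :
    Set.ncard {e : {p : Fin n × Fin n // p.1 < p.2} |
      (∃ k : ℕ, e.1.2.val ≤ e.1.1.val + 2 ^ k + Nat.log 2 n ^ 4 ∧
          e.1.1.val + 2 ^ k ≤ e.1.2.val + Nat.log 2 n ^ 4) ∨
        e.1.1.val + n ≤ e.1.2.val + Nat.log 2 n ^ 4} ≤ n * Nat.log 2 n ^ 6 := by
  have h1 : 4 ≤ Nat.log 2 n := Nat.le_log_of_pow_le (by norm_num) (by simpa using hn)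
  have h2 := Nat.lt_pow_succ_log_self (b := 2) (by norm_num) n
  rw [Nat.succ_eq_add_one] at h2
  generalize Nat.log 2 n = l at h1 h2
  have h3 : 256 ≤ l ^ 4 := le_trans (by norm_num) (Nat.pow_le_pow_left h1 4)
  have h4 : l ^ 6 = l ^ 4 * (l * l) := by ring
  rw [h4]
  generalize l ^ 4 = T at h3
  let B : ℕ → Finset (ℕ × ℕ) := fun i =>
    ((range (l + 1)).biUnion fun k => Icc (i + 2 ^ k - T) (i + 2 ^ k + T)).image (Prod.mk i) ∪
      (Ico (n - T) n).image (Prod.mk i)
  have hB : ∀ i, (B i).card ≤ T * (l * l) := fun i => by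
    have e1 : ((range (l + 1)).biUnion fun k => Icc (i + 2 ^ k - T) (i + 2 ^ k + T)).card ≤
        (range (l + 1)).card * (2 * T + 1) :=
      card_biUnion_le_card_mul _ _ _ fun k _ => by rw [Nat.card_Icc]; omega
    have e2 : (Ico (n - T) n).card ≤ T := by rw [Nat.card_Ico]; omega
    rw [card_range] at e1
    have e3 := (card_union_le _ _).trans
      (add_le_add (card_image_le (f := Prod.mk i).trans e1) (card_image_le (f := Prod.mk i).trans e2))
    refine e3.trans ?_
    obtain ⟨u, rfl⟩ := Nat.exists_eq_add_of_le h1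
    obtain ⟨v, rfl⟩ := Nat.exists_eq_add_of_le h3
    nlinarith [Nat.zero_le (u * v), Nat.zero_le (u * u), Nat.zero_le (u * u * v)]
  have hc : ((range n).biUnion B).card ≤ n * (T * (l * l)) := by
    simpa using card_biUnion_le_card_mul (range n) B _ fun i _ => hB i
  refine le_trans ?_ hc
  rw [← Set.ncard_coe_finset]
  refine Set.ncard_le_ncard_of_injOn (fun e => (e.1.1.val, e.1.2.val)) (fun e he => ?_)
    (fun e _ e' _ h => ?_) (Finset.finite_toSet _)
  · have e1 := e.1.1.2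
    have e2 := e.1.2.2
    have e3 : e.1.1.val < e.1.2.val := e.2
    simp only [coe_biUnion, coe_range, Set.mem_iUnion, mem_coe]
    refine ⟨e.1.1.val, e1, ?_⟩
    have hw : e.1.1.val + n ≤ e.1.2.val + T → (e.1.1.val, e.1.2.val) ∈ B e.1.1.val := fun h =>
      mem_union_right _ (mem_image_of_mem _ (mem_Ico.2 ⟨by omega, e2⟩))
    rcases he with ⟨k, h5, h6⟩ | h5
    · by_cases hk : k < l + 1
      · exact mem_union_left _ (mem_image_of_mem _
          (mem_biUnion.2 ⟨k, mem_range.2 hk, mem_Icc.2 ⟨by omega, h5⟩⟩))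
      · have : 2 ^ (l + 1) ≤ 2 ^ k := Nat.pow_le_pow_right (by norm_num) (by omega)
        exact hw (by omega)
    · exact hw h5
  · simp only [Prod.mk.injEq] at h
    exact Subtype.ext (Prod.ext (Fin.ext h.1) (Fin.ext h.2))

end Pool.Agent.MP_6b3410_lc.X91
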