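import Pool.Agent.MP_6b3410_lc.X91.Spec

/-!
From local formulas to local systems of ternary constraints.
-/

open Finset

namespace Pool.Agent.MP_6b3410_lc.X91

open Classical Pool.Agent.MP_6b3410_lc.H5 Pool.Agent.MP_6b3410_lc.H19

namespace Csp

/-- extension of a function to the dummy variables -/
def ext {n P : ℕ} {Y A : Type} (f : Fin n ⊕ Y → A) (d : Fin P → A) : Fin n ⊕ (Y ⊕ Fin P) → A :=
  Sum.elim (fun i => f (Sum.inl i)) (Sum.elim (fun y => f (Sum.inr y)) d)

theorem ext_map {n P : ℕ} {Y A : Type} (f : Fin n ⊕ Y → A) (d : Fin P → A) (r : Fin n ⊕ Y) :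
    ext f d (Sum.map id Sum.inl r) = f r := by
  cases r <;> rfl

theorem elim_map {n P : ℕ} {Y : Type} (z : Fin n → Bool) (y : Y ⊕ Fin P → Bool) (r : Fin n ⊕ Y) :
    Sum.elim z y (Sum.map id Sum.inl r) = Sum.elim z (fun a => y (Sum.inl a)) r := by
  cases r <;> rfl

theorem cases {n P : ℕ} {Y : Type} (r : Fin n ⊕ (Y ⊕ Fin P)) :
    (∃ a : Fin n ⊕ Y, r = Sum.map id Sum.inl a) ∨ ∃ p, r = Sum.inr (Sum.inr p) := by
  rcases r with i | y | p
  exacts [Or.inl ⟨Sum.inl i, rfl⟩, Or.inl ⟨Sum.inr y, rfl⟩, Or.inr ⟨p, rfl⟩]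

end Csp

open Csp in
theorem csp (h : CnfStmt) : CspStmt := by
  intro n N P Y ι S _ _ _ sc Rel pv pk tv tk g R hn r0 r1 r2 r3 hv hk hg iv ik io hR hc
  let K := {p : ι × (Fin 3 → Bool) // ¬ Rel p.1 p.2}
  obtain ⟨π, h1, h2, h3⟩ := h n N P (Y ⊕ Fin P) K (K × Fin 3)
    (Option S × (Fin 3 → Bool) × Fin 3) Prod.fst
    (fun o => Sum.map id Sum.inl (sc o.1.1.1 o.2)) (fun o => !o.1.1.2 o.2) (ext pv Fin.val)
    (fun κ => pk κ.1.1) (ext (fun r => (some (tv r), fun _ => false, 0))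
      fun _ => (none, fun _ => false, 0))
    (fun κ => (some (tk κ.1.1), κ.1.2, 0)) (fun o => (some (tk o.1.1.1), o.1.1.2, o.2)) g R
    hn r0 r1 r2 r3
    (fun r => by
      rcases cases r with ⟨a, rfl⟩ | ⟨p, rfl⟩
      · rw [ext_map]
        exact hv a
      · exact p.2)
    (fun p hp => ⟨Sum.inr (Sum.inr ⟨p, hp⟩), rfl⟩) (fun κ => hk _) hg
    (fun r r' e1 e2 => by
      rcases cases r with ⟨a, rfl⟩ | ⟨p, rfl⟩ <;> rcases cases r' with ⟨a', rfl⟩ | ⟨p', rfl⟩
      · rw [ext_map, ext_map] at e1 e2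
        rw [iv a a' e1 (Option.some.inj (congrArg Prod.fst e2))]
      · rw [ext_map] at e2
        exact absurd (congrArg Prod.fst e2) (Option.some_ne_none _)
      · rw [ext_map] at e2
        exact absurd (congrArg Prod.fst e2).symm (Option.some_ne_none _)
      · rw [Fin.ext (show p.val = p'.val from e1)])
    (fun κ κ' e1 e2 => Subtype.ext (Prod.ext
      (ik _ _ e1 (Option.some.inj (congrArg Prod.fst e2))) (congrArg (fun x => x.2.1) e2)))
    (fun o o' e1 e2 => by
      have a1 : o.2 = o'.2 := congrArg (fun x => x.2.2) e2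
      have a2 : sc o.1.1.1 o.2 = sc o'.1.1.1 o'.2 :=
        (Function.Injective.sumMap Function.injective_id Sum.inl_injective) e1
      rw [← a1] at a2
      exact Prod.ext (Subtype.ext (Prod.ext (io _ _ _ a2 (Option.some.inj (congrArg Prod.fst e2)))
        (congrArg (fun x => x.2.1) e2))) a1)
    (fun o => by
      rw [ext_map]
      exact hR _ _)
    (fun p hp => by
      have e : Fintype.card (Option S × (Fin 3 → Bool) × Fin 3) = 24 * (Fintype.card S + 1) := by
        simp [mul_comm]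
      rw [e]
      exact hc p hp)
  refine ⟨π, h1, h2, fun w => (h3 w).trans (exists_congr fun z => and_congr_right fun _ =>
    ⟨fun ⟨y, hy⟩ => ⟨fun a => y (Sum.inl a), fun t => ?_⟩,
      fun ⟨y, hy⟩ => ⟨Sum.elim y fun _ => false, fun κ => ?_⟩⟩)⟩
  · by_contra hc
    obtain ⟨⟨_, k⟩, rfl, e⟩ := hy ⟨(t, fun k => Sum.elim z (fun a => y (Sum.inl a)) (sc t k)), hc⟩
    rw [elim_map] at e
    exact (Bool.eq_not_self _).1 e
  · by_contra hc
    push Not at hc
    refine κ.2 ?_
    have : κ.1.2 = fun k => Sum.elim z y (sc κ.1.1 k) := funext fun k => by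
      have := hc (κ, k) rfl
      rw [elim_map] at this
      simp only [Sum.elim_inl] at this
      revert this
      cases κ.1.2 k <;> cases Sum.elim z y (sc κ.1.1 k) <;> simp
    rw [this]
    exact hy _

end Pool.Agent.MP_6b3410_lc.X91
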