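import Pool.Agent.MP_6b3410_lc.X91.Spec

/-!
Rows sorted by a key.
-/

open Finset

namespace Pool.Agent.MP_6b3410_lc.X91.H35Chain

theorem lt_of_lt {m : ℕ} (n : Fin m → ℕ) (p q : Σ i, Fin (n i)) (h : p.1 < q.1) :
    (finSigmaFinEquiv p).val < (finSigmaFinEquiv q).val := by
  let n' : ℕ → ℕ := fun k => if h : k < m then n ⟨k, h⟩ else 0
  have e : ∀ a : Fin m, ∑ i : Fin a.val, n (Fin.castLE a.2.le i) = ∑ k ∈ range a.val, n' k := by
    intro a
    rw [sum_range]
    refine sum_congr rfl fun i _ => ?_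
    simp only [n', dif_pos (i.2.trans a.2)]
    rfl
  rw [finSigmaFinEquiv_apply, finSigmaFinEquiv_apply, e, e]
  have h1 : ∑ k ∈ range (p.1.val + 1), n' k ≤ ∑ k ∈ range q.1.val, n' k :=
    sum_le_sum_of_subset (range_mono h)
  rw [sum_range_succ] at h1
  have h2 : n' p.1.val = n p.1 := by simp only [n', dif_pos p.1.2]
  have := p.2.2
  omega

theorem chain : ChainStmt := by
  intro ρ _ L pv
  let g := (Fintype.equivFin ρ).symm
  let f := (Tuple.sort (pv ∘ g)).trans g
  have hf : Monotone fun i => pv (f i) := Tuple.monotone_sort (pv ∘ g)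
  have hs : ∑ i, L (f i) = ∑ r, L r := Equiv.sum_comp f L
  rw [← hs]
  let e := (finSigmaFinEquiv (n := fun i => L (f i)))
  have key : ∀ p q : (Σ i, Fin (L (f i))), p.1 = q.1 →
      (e p).val + q.2.val = (e q).val + p.2.val := by
    rintro ⟨i, k⟩ ⟨i', k'⟩ h
    dsimp only at h
    subst h
    simp only [e, finSigmaFinEquiv_apply]
    omega
  refine ⟨fun j => f (e.symm j).1, fun j => (e.symm j).2.val, fun j => (e.symm j).2.2,
    fun r m hm => ?_, fun j j' h1 h2 => ?_, fun j j' h1 h2 => ?_, fun j j' h => hf ?_⟩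
  · obtain ⟨i, rfl⟩ := f.surjective r
    exact ⟨e ⟨i, ⟨m, hm⟩⟩, by beta_reduce; rw [e.symm_apply_apply],
      by beta_reduce; rw [e.symm_apply_apply]⟩
  · have := key _ _ (f.injective h1)
    simp only [Equiv.apply_symm_apply] at this h2
    exact Fin.ext (by omega)
  · have := key _ _ (f.injective h1)
    simp only [Equiv.apply_symm_apply] at this h2
    omega
  · refine not_lt.1 fun h' => ?_
    have : (e (e.symm j')).val < (e (e.symm j)).val := lt_of_lt _ _ _ h'
    simp only [Equiv.apply_symm_apply] at this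
    exact absurd h (not_le.2 this)

end Pool.Agent.MP_6b3410_lc.X91.H35Chain
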