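import Pool.Agent.MP_6b3410_lc.X91.Spec

/-!
Benes routing.
-/

namespace Pool.Agent.MP_6b3410_lc.X91.H35Route

open Function

theorem near_self (x : ℕ) : Near x x := ⟨0, by omega⟩

theorem near_add {x y : ℕ} (z : ℕ) (h : Near x y) : Near (x + z) (y + z) := by
  obtain ⟨a, h⟩ := h
  exact ⟨a, by omega⟩

theorem near_symm {x y : ℕ} (h : Near x y) : Near y x := by
  obtain ⟨a, h⟩ := h
  exact ⟨a, by omega⟩

theorem mod_cases {N x : ℕ} (hx : x < N * 2) : (x < N ∧ x % N = x) ∨ (N ≤ x ∧ x % N + N = x) := by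
  rcases lt_or_ge x N with h | h
  · exact Or.inl ⟨h, Nat.mod_eq_of_lt h⟩
  · refine Or.inr ⟨h, ?_⟩
    rw [Nat.mod_eq_sub_mod h, Nat.mod_eq_of_lt (by omega)]
    omega

theorem near_mod (d x : ℕ) (hx : x < 2 ^ (d + 1)) (b : Bool) :
    Near x (x % 2 ^ d + if b then 2 ^ d else 0) := by
  rw [pow_succ] at hx
  rcases mod_cases hx with h | h <;> cases b
  · exact ⟨0, by simp; omega⟩
  · exact ⟨d, by simp; omega⟩
  · exact ⟨d, by simp; omega⟩
  · exact ⟨0, by simp; omega⟩

theorem partner {O : Type} (N : ℕ) (hN : 0 < N) (α : O → ℕ) (hi : Injective α)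
    (hl : ∀ o, α o < N * 2) (hs : ∀ x, x < N * 2 → ∃ o, α o = x) :
    ∃ s : O → O, Involutive s ∧ (∀ o, s o ≠ o) ∧ ∀ c : O → Bool, (∀ o, c (s o) ≠ c o) →
      ∀ b, (Injective fun o : {o // c o = b} => α o.1 % N) ∧
        ∀ x, x < N → ∃ o : {o // c o = b}, α o.1 % N = x := by
  have h1 : ∀ o, ∃ o', (α o < N ∧ α o' = α o + N) ∨ (N ≤ α o ∧ α o' + N = α o) := fun o => by
    have := hl o
    rcases lt_or_ge (α o) N with h | h
    · obtain ⟨o', e⟩ := hs (α o + N) (by omega)
      exact ⟨o', Or.inl ⟨h, e⟩⟩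
    · obtain ⟨o', e⟩ := hs (α o - N) (by omega)
      exact ⟨o', Or.inr ⟨h, by omega⟩⟩
  choose s h1 using h1
  refine ⟨s, fun o => hi ?_, fun o e => ?_, fun c hc b => ⟨fun o o' e => ?_, fun x hx => ?_⟩⟩
  · have := h1 o
    have := h1 (s o)
    have := hl o
    omega
  · have := h1 o
    rw [e] at this
    omega
  · have e' : α o.1 % N = α o'.1 % N := e
    have a1 := mod_cases (hl o.1)
    have a2 := mod_cases (hl o'.1)
    have a3 := h1 o.1
    by_cases h : α o.1 = α o'.1
    · exact Subtype.ext (hi h)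
    · have h2 : s o.1 = o'.1 := hi (by omega)
      exact absurd (by rw [h2, o.2, o'.2]) (hc o.1)
  · obtain ⟨o, e⟩ := hs x (by omega)
    by_cases h : c o = b
    · exact ⟨⟨o, h⟩, by rw [e]; exact Nat.mod_eq_of_lt hx⟩
    · refine ⟨⟨s o, ?_⟩, ?_⟩
      · have := hc o
        revert this h
        cases c (s o) <;> cases c o <;> cases b <;> simp
      · have a1 := mod_cases (hl (s o))
        have a3 := h1 o
        show α (s o) % N = x
        omega

theorem core (h : ColStmt) (d : ℕ) : ∀ (O : Type) [Finite O] (α β : O → ℕ), Injective α →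
    Injective β → (∀ o, α o < 2 ^ d) → (∀ o, β o < 2 ^ d) → (∀ x, x < 2 ^ d → ∃ o, α o = x) →
    (∀ x, x < 2 ^ d → ∃ o, β o = x) →
    ∃ path : ℕ → O → ℕ, path 0 = α ∧ path (2 * d) = β ∧ (∀ l, Injective (path l)) ∧
      (∀ l o, path l o < 2 ^ d) ∧ ∀ l o, Near (path l o) (path (l + 1) o) := by
  induction d with
  | zero =>
    intro O _ α β ha _ la lb _ _
    refine ⟨fun _ => α, rfl, funext fun o => ?_, fun _ => ha, fun _ => la, fun _ _ => near_self _⟩
    have := la o
    have := lb o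
    show α o = β o
    omega
  | succ d ih =>
    intro O _ α β ha hb la lb sa sb
    have hN : 0 < 2 ^ d := by positivity
    obtain ⟨s, s1, s2, s3⟩ := partner (2 ^ d) hN α ha la sa
    obtain ⟨t, t1, t2, t3⟩ := partner (2 ^ d) hN β hb lb sb
    obtain ⟨c, hc⟩ := h O s t s1 t1 s2 t2
    have key := fun b => ih {o // c o = b} (fun o => α o.1 % 2 ^ d) (fun o => β o.1 % 2 ^ d)
      (s3 c (fun o => (hc o).1) b).1 (t3 c (fun o => (hc o).2) b).1
      (fun o => Nat.mod_lt _ hN) (fun o => Nat.mod_lt _ hN)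
      (s3 c (fun o => (hc o).1) b).2 (t3 c (fun o => (hc o).2) b).2
    choose P p0 p1 p2 p3 p4 using key
    let Q : ℕ → O → ℕ := fun k o => P (c o) k ⟨o, rfl⟩ + if c o then 2 ^ d else 0
    have hQ : ∀ k o b (e : c o = b), Q k o = P b k ⟨o, e⟩ + if b then 2 ^ d else 0 := by
      intro k o b e
      subst e
      rfl
    have q2 : ∀ k, Injective (Q k) := fun k o o' e => by
      have e1 : c o' = c o := by
        have a1 := p3 (c o) k ⟨o, rfl⟩
        have a2 := p3 (c o') k ⟨o', rfl⟩
        simp only [Q] at e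
        by_contra hne
        cases h1 : c o <;> cases h2 : c o' <;> simp only [h1, h2] at hne e <;> simp at hne e
        all_goals omega
      rw [hQ k o _ rfl, hQ k o' _ e1] at e
      exact congrArg Subtype.val (p2 (c o) k (Nat.add_right_cancel e))
    have q3 : ∀ k o, Q k o < 2 ^ (d + 1) := fun k o => by
      have a1 := p3 (c o) k ⟨o, rfl⟩
      simp only [Q, pow_succ]
      split_ifs <;> omega
    refine ⟨fun l => if l = 0 then α else if l ≤ 2 * d + 1 then Q (l - 1) else β, by simp,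
      by simp [show ¬ 2 * (d + 1) ≤ 2 * d + 1 by omega], fun l => ?_, fun l o => ?_, fun l o => ?_⟩
    · dsimp only
      split_ifs
      exacts [ha, q2 _, hb]
    · dsimp only
      split_ifs
      exacts [la o, q3 _ o, lb o]
    · dsimp only
      rcases l with _ | l
      · have e : Q 0 o = α o % 2 ^ d + if c o then 2 ^ d else 0 := by simp only [Q, p0]
        simpa [e] using near_mod d _ (la o) (c o)
      · rw [if_neg (by omega), if_neg (show l + 1 + 1 ≠ 0 by omega)]
        by_cases h1 : l + 1 + 1 ≤ 2 * d + 1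
        · rw [if_pos h1, if_pos (by omega)]
          exact near_add _ (p4 (c o) l ⟨o, rfl⟩)
        · rw [if_neg h1]
          by_cases h2 : l + 1 ≤ 2 * d + 1
          · rw [if_pos h2]
            have e : Q (l + 1 - 1) o = β o % 2 ^ d + if c o then 2 ^ d else 0 := by
              rw [show l + 1 - 1 = 2 * d by omega]
              simp only [Q, p1]
            rw [e]
            exact near_symm (near_mod d _ (lb o) (c o))
          · rw [if_neg h2]
            exact near_self _

theorem route (h : ColStmt) : RouteStmt := by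
  intro d O _ α β ha hb la lb
  obtain ⟨σ, hσ⟩ := Equiv.Perm.exists_extending_pair
    (f := fun o => (⟨α o, la o⟩ : Fin (2 ^ d))) (g := fun o => (⟨β o, lb o⟩ : Fin (2 ^ d)))
    (fun o o' e => ha (congrArg Fin.val e)) (fun o o' e => hb (congrArg Fin.val e))
  obtain ⟨P, p0, p1, p2, p3, p4⟩ := core h d (Fin (2 ^ d)) Fin.val (fun x => (σ x).val)
    Fin.val_injective (Fin.val_injective.comp σ.injective) (fun x => x.2) (fun x => (σ x).2)
    (fun x hx => ⟨⟨x, hx⟩, rfl⟩) (fun x hx => ⟨σ.symm ⟨x, hx⟩, by simp⟩)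
  refine ⟨fun l o => P l ⟨α o, la o⟩, funext fun o => ?_, funext fun o => ?_,
    fun l o o' e => ha (congrArg Fin.val (p2 l e)), fun l o => p3 _ _, fun l o => p4 _ _⟩
  · simp only [p0]
  · simp only [p1]
    exact congrArg Fin.val (hσ o)

end Pool.Agent.MP_6b3410_lc.X91.H35Route
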