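import Pool.Agent.MP_6b3410_lc.X91.Spec

/-!
Every formula is equivalent to a local system of ternary constraints.
-/

namespace Pool.Agent.MP_6b3410_lc.X91.H38

open Classical

/-- old variables, the line of values, the line of partial disjunctions, the routed copies -/
abbrev Yt (Q D : ℕ) (Y O : Type) : Type := Y ⊕ (Fin Q ⊕ (Fin Q ⊕ Fin D × O))

section
variable {n Q D : ℕ} {Y O : Type}

def eV (v : Fin n ⊕ Y) : Fin n ⊕ Yt Q D Y O := Sum.map id Sum.inl v
def eA (q : Fin Q) : Fin n ⊕ Yt Q D Y O := Sum.inr (Sum.inr (Sum.inl q))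
def eB (q : Fin Q) : Fin n ⊕ Yt Q D Y O := Sum.inr (Sum.inr (Sum.inr (Sum.inl q)))
def eW (l : Fin D) (o : O) : Fin n ⊕ Yt Q D Y O := Sum.inr (Sum.inr (Sum.inr (Sum.inr (l, o))))

def el {β : Type} (fV : Fin n ⊕ Y → β) (fA fB : Fin Q → β) (fW : Fin D → O → β) :
    Fin n ⊕ Yt Q D Y O → β
  | Sum.inl i => fV (Sum.inl i)
  | Sum.inr (Sum.inl y) => fV (Sum.inr y)
  | Sum.inr (Sum.inr (Sum.inl q)) => fA q
  | Sum.inr (Sum.inr (Sum.inr (Sum.inl q))) => fB q
  | Sum.inr (Sum.inr (Sum.inr (Sum.inr p))) => fW p.1 p.2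

variable {β : Type} (fV : Fin n ⊕ Y → β) (fA fB : Fin Q → β) (fW : Fin D → O → β)

theorem el_V (v : Fin n ⊕ Y) : el fV fA fB fW (eV v) = fV v := by cases v <;> rfl
theorem el_A (q : Fin Q) : el fV fA fB fW (eA q) = fA q := rfl
theorem el_B (q : Fin Q) : el fV fA fB fW (eB q) = fB q := rfl
theorem el_W (l : Fin D) (o : O) : el fV fA fB fW (eW l o) = fW l o := rfl

theorem cs (r : Fin n ⊕ Yt Q D Y O) :
    (∃ v, r = eV v) ∨ (∃ q, r = eA q) ∨ (∃ q, r = eB q) ∨ ∃ l o, r = eW l o := by
  rcases r with i | y | q | q | ⟨l, o⟩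
  · exact .inl ⟨.inl i, rfl⟩
  · exact .inl ⟨.inr y, rfl⟩
  · exact .inr (.inl ⟨q, rfl⟩)
  · exact .inr (.inr (.inl ⟨q, rfl⟩))
  · exact .inr (.inr (.inr ⟨l, o, rfl⟩))

theorem eA_inj {q q' : Fin Q} (e : (eA q : Fin n ⊕ Yt Q D Y O) = eA q') : q = q' := by
  simpa [eA] using e

theorem eB_inj {q q' : Fin Q} (e : (eB q : Fin n ⊕ Yt Q D Y O) = eB q') : q = q' := by
  simpa [eB] using e

theorem eW_inj {l l' : Fin D} {o o' : O} (e : (eW l o : Fin n ⊕ Yt Q D Y O) = eW l' o') :
    o = o' := by
  simp only [eW, Sum.inr.injEq, Prod.mk.injEq] at e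
  exact e.2

theorem eA_ne {q q' : Fin Q} (e : (eA q : Fin n ⊕ Yt Q D Y O) = eB q') : False := by
  simp [eA, eB] at e

theorem eW_ne {l : Fin D} {o : O} {q : Fin Q} (e : (eW l o : Fin n ⊕ Yt Q D Y O) = eB q) :
    False := by
  simp [eW, eB] at e

/-- the predecessor -/
def pd (q : Fin Q) : Fin Q := ⟨q.val - 1, by have := q.2; omega⟩

theorem pd_val (q : Fin Q) : (pd q).val = q.val - 1 := rfl

theorem near_self (x : ℕ) : Near x x := ⟨0, by simp⟩

theorem near_pd (q : Fin Q) (h : q.val ≠ 0) : Near (pd q).val q.val :=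
  ⟨0, .inl (by rw [pd_val]; omega)⟩

theorem ind_pd {p : Fin Q → Prop} (h : ∀ q, (q.val ≠ 0 → p (pd q)) → p q) (q : Fin Q) : p q := by
  obtain ⟨k, hk⟩ := q
  induction k with
  | zero => exact h _ fun g => absurd rfl g
  | succ k ih => exact h _ fun _ => ih (by omega)

theorem const_line {lab : Fin Q → ℕ} (hm : Monotone lab) {u : Fin Q → Bool}
    (h : ∀ q : Fin Q, q.val ≠ 0 → lab (pd q) = lab q → u q = u (pd q)) (q q' : Fin Q)
    (e : lab q = lab q') : u q = u q' := by
  have key : ∀ b a : Fin Q, a ≤ b → lab a = lab b → u a = u b := by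
    intro b
    induction b using ind_pd with
    | h b ih =>
      intro a hab e
      rcases hab.eq_or_lt with rfl | g
      · rfl
      · have g' : a.val < b.val := g
        have h1 : a ≤ pd b := by rw [Fin.le_def, pd_val]; omega
        have h2 : pd b ≤ b := by rw [Fin.le_def, pd_val]; omega
        have h3 : lab (pd b) = lab b := le_antisymm (hm h2) (e ▸ hm h1)
        rw [h b (by omega) h3]
        exact ih (by omega) a h1 (e.trans h3.symm)
  rcases le_total q q' with g | g
  · exact key _ _ g e
  · exact (key _ _ g e.symm).symm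

end

theorem loc (hR : RouteStmt) (hL : LineStmt) : LocStmt := by
  intro n d Y K O _ _ _ cl sc sg h1 h2
  obtain ⟨lab, α, st, ix, hm, hα, hix, ha, hs⟩ := hL O (Fin n ⊕ Y) sc (2 ^ d) (by simpa using h1)
  obtain ⟨lb, β, su, iy, hm', hβ, hiy, hb, ht⟩ := hL O K cl (2 ^ d) h2
  obtain ⟨path, p0, p1, pi, pl, pn⟩ := hR d O (fun o => (α o).val) (fun o => (β o).val)
    (fun a b e => hα (Fin.ext e)) (fun a b e => hβ (Fin.ext e)) (fun o => (α o).2)
    (fun o => (β o).2)
  have hst : Function.Injective st := fun a b e => hix (by rw [← hs, ← hs, e])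
  let W := Fin n ⊕ Yt (2 ^ d) (2 * d + 1) Y O
  let pv : W → ℕ := el (fun v => (st v).val) (fun q => q.val) (fun q => q.val)
    fun l o => path l.val o
  let tv : W → Fin (2 * d + 1) ⊕ Fin 4 := el (fun _ => .inr 0) (fun _ => .inr 1)
    (fun _ => .inr 2) fun l _ => .inl l
  let pr : W → W := el (fun v => eA (st v)) (fun q => if q.val = 0 then eB q else eA (pd q))
    (fun q => if q.val = 0 then eA q else eB (pd q))
    fun l o => if l.val = 0 then eA (α o) else eW (pd l) o
  let li : W → W := el eV eA
    (fun q => if h : ∃ o, β o = q then eW (Fin.last _) h.choose else eB q) eW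
  let Rel : W → (Fin 3 → Bool) → Prop := el (fun _ x => x 0 = x 1)
    (fun q x => q.val ≠ 0 → lab (pd q) = lab q → x 0 = x 1)
    (fun q x => ((∃ κ, lb q = iy κ) → (∀ q', q < q' → lb q' ≠ lb q) → x 0 = true) ∧
      (x 0 = true → (∃ o, β o = q ∧ x 2 = sg o) ∨
        (q.val ≠ 0 ∧ lb (pd q) = lb q ∧ x 1 = true)))
    fun _ _ x => x 0 = x 1
  have hli : ∀ o, li (eB (β o)) = eW (Fin.last _) o := fun o => by
    have h : ∃ o', β o' = β o := ⟨o, rfl⟩
    simp only [li, el_B, dif_pos h, hβ h.choose_spec]
  have hlt : ∀ r, pv r < 2 ^ d := fun r => by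
    rcases cs r with ⟨v, rfl⟩ | ⟨q, rfl⟩ | ⟨q, rfl⟩ | ⟨l, o, rfl⟩
    · simp only [pv, el_V]; exact (st v).2
    · exact q.2
    · exact q.2
    · exact pl _ _
  have same : ∀ r r' : W, tv r = tv r' → (∃ v v', r = eV v ∧ r' = eV v') ∨
      (∃ q q', r = eA q ∧ r' = eA q') ∨ (∃ q q', r = eB q ∧ r' = eB q') ∨
      ∃ l o o', r = eW l o ∧ r' = eW l o' := fun r r' e => by
    rcases cs r with ⟨v, rfl⟩ | ⟨q, rfl⟩ | ⟨q, rfl⟩ | ⟨l, o, rfl⟩ <;>
      rcases cs r' with ⟨v', rfl⟩ | ⟨q', rfl⟩ | ⟨q', rfl⟩ | ⟨l', o', rfl⟩ <;>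
      simp only [tv, el_V, el_A, el_B, el_W, Sum.inr.injEq, Sum.inl.injEq, reduceCtorEq] at e <;>
      first
        | exact .inl ⟨_, _, rfl, rfl⟩
        | exact .inr (.inl ⟨_, _, rfl, rfl⟩)
        | exact .inr (.inr (.inl ⟨_, _, rfl, rfl⟩))
        | exact .inr (.inr (.inr ⟨_, _, _, rfl, by rw [e]⟩))
        | exact absurd e (by decide)
  have hinj : ∀ r r', pv r = pv r' → tv r = tv r' → r = r' := fun r r' e g => by
    rcases same r r' g with ⟨v, v', rfl, rfl⟩ | ⟨q, q', rfl, rfl⟩ | ⟨q, q', rfl, rfl⟩ |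
      ⟨l, o, o', rfl, rfl⟩
    · simp only [pv, el_V] at e; rw [hst (Fin.ext e)]
    · rw [show q = q' from Fin.ext e]
    · rw [show q = q' from Fin.ext e]
    · rw [show o = o' from pi _ e]
  have pdi : ∀ q q' : Fin (2 ^ d), q.val ≠ 0 → q'.val ≠ 0 → pd q = pd q' → q = q' :=
    fun q q' a b e => Fin.ext (by have := congrArg Fin.val e; rw [pd_val, pd_val] at this; omega)
  refine ⟨Yt (2 ^ d) (2 * d + 1) Y O, W, inferInstance, inferInstance,
    fun t => ![t, pr t, li t], Rel, pv, pv, tv, tv, hlt, hlt, hinj, hinj, ?_, ?_, fun z => ?_⟩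
  · intro k t t' e g
    fin_cases k
    · exact e
    · change pr t = pr t' at e
      rcases same t t' g with ⟨v, v', rfl, rfl⟩ | ⟨q, q', rfl, rfl⟩ | ⟨q, q', rfl, rfl⟩ |
        ⟨l, o, o', rfl, rfl⟩
      · simp only [pr, el_V] at e; rw [hst (eA_inj e)]
      · simp only [pr, el_A] at e
        split_ifs at e with a b b
        · rw [show q = q' from Fin.ext (a.trans b.symm)]
        · exact (eA_ne e.symm).elim
        · exact (eA_ne e).elim
        · rw [pdi q q' a b (eA_inj e)]
      · simp only [pr, el_B] at e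
        split_ifs at e with a b b
        · rw [show q = q' from Fin.ext (a.trans b.symm)]
        · exact (eA_ne e).elim
        · exact (eA_ne e.symm).elim
        · rw [pdi q q' a b (eB_inj e)]
      · simp only [pr, el_W] at e
        split_ifs at e with a
        · rw [hα (eA_inj e)]
        · rw [eW_inj e]
    · change li t = li t' at e
      rcases same t t' g with ⟨v, v', rfl, rfl⟩ | ⟨q, q', rfl, rfl⟩ | ⟨q, q', rfl, rfl⟩ |
        ⟨l, o, o', rfl, rfl⟩
      · simpa only [li, el_V] using e
      · exact e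
      · by_cases a : ∃ o, β o = q <;> by_cases b : ∃ o, β o = q'
        · obtain ⟨o, rfl⟩ := a
          obtain ⟨o', rfl⟩ := b
          rw [hli, hli] at e
          rw [eW_inj e]
        · simp only [li, el_B, dif_pos a, dif_neg b] at e; exact (eW_ne e).elim
        · simp only [li, el_B, dif_neg a, dif_pos b] at e; exact (eW_ne e.symm).elim
        · simpa only [li, el_B, dif_neg a, dif_neg b] using e
      · exact e
  · intro t k
    fin_cases k
    · exact near_self _
    · change Near (pv (pr t)) (pv t)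
      rcases cs t with ⟨v, rfl⟩ | ⟨q, rfl⟩ | ⟨q, rfl⟩ | ⟨l, o, rfl⟩
      · simp only [pr, pv, el_V, el_A]; exact near_self _
      · simp only [pr, el_A]
        split_ifs with a
        · exact near_self _
        · exact near_pd q a
      · simp only [pr, el_B]
        split_ifs with a
        · exact near_self _
        · exact near_pd q a
      · simp only [pr, el_W]
        split_ifs with a
        · simp only [pv, el_A, el_W, a, p0]; exact near_self _
        · have := pn (l.val - 1) o
          rw [Nat.sub_add_cancel (by omega)] at this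
          exact this
    · change Near (pv (li t)) (pv t)
      rcases cs t with ⟨v, rfl⟩ | ⟨q, rfl⟩ | ⟨q, rfl⟩ | ⟨l, o, rfl⟩
      · simp only [li, el_V]; exact near_self _
      · exact near_self _
      · by_cases a : ∃ o, β o = q
        · obtain ⟨o, rfl⟩ := a
          rw [hli]
          simp only [pv, el_B, el_W, Fin.val_last, p1]
          exact near_self _
        · simp only [li, el_B, dif_neg a]; exact near_self _
      · exact near_self _
  · constructor
    · rintro ⟨y, hy⟩
      set u : W → Bool := Sum.elim z y with hu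
      have hy' : ∀ t, Rel t ![u t, u (pr t), u (li t)] := fun t => by
        have := hy t
        rwa [show (fun k => u (![t, pr t, li t] k)) = ![u t, u (pr t), u (li t)] by
          funext k; fin_cases k <;> rfl] at this
      have aV : ∀ v, u (eV v) = u (eA (st v)) := fun v => by
        simpa [Rel, pr, el_V] using hy' (eV v)
      have aA : ∀ q q', lab q = lab q' → u (eA q) = u (eA q') :=
        const_line hm (u := fun q => u (eA q)) fun q a e => by
          have : u (eA q) = u (pr (eA q)) := hy' (eA q) a e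
          simpa only [pr, el_A, if_neg a] using this
      have aW : ∀ o l, u (eW l o) = u (eA (α o)) := fun o l => by
        induction l using ind_pd with
        | h l ih =>
          have : u (eW l o) = u (pr (eW l o)) := hy' (eW l o)
          rw [this]
          simp only [pr, el_W]
          split_ifs with a
          · rfl
          · exact ih a
      have aB : ∀ q, u (eB q) = true → ∃ o, lb (β o) = lb q ∧ u (eW (Fin.last _) o) = sg o :=
        fun q => by
          induction q using ind_pd with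
          | h q ih =>
            intro g
            rcases (hy' (eB q)).2 g with ⟨o, rfl, e⟩ | ⟨a, b, e⟩
            · exact ⟨o, rfl, by rw [← hli]; exact e⟩
            · rw [← b]
              refine ih a ?_
              have e' : u (pr (eB q)) = true := e
              simpa only [pr, el_B, if_neg a] using e'
      refine ⟨fun j => y (.inl j), fun κ => ?_⟩
      obtain ⟨q, hq, hmax⟩ := (Finset.univ.filter fun q => lb q = iy κ).exists_max_image id
        ⟨su κ, by simp [ht]⟩
      have hq' : lb q = iy κ := by simpa using hq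
      obtain ⟨o, e1, e2⟩ := aB q ((hy' (eB q)).1 ⟨κ, hq'⟩ fun q' g e =>
        absurd (hmax q' (by simp [e, hq'])) (not_le.2 g))
      refine ⟨o, hiy (by rw [← hb, e1, hq']), ?_⟩
      rw [← e2, aW, aA (α o) (st (sc o)) (by rw [ha, hs]), ← aV]
      cases sc o <;> rfl
    · rintro ⟨y, hy⟩
      let u : W → Bool := el (Sum.elim z y)
        (fun q => decide (∃ v, ix v = lab q ∧ Sum.elim z y v = true))
        (fun q => decide (∃ o, β o ≤ q ∧ lb (β o) = lb q ∧ Sum.elim z y (sc o) = sg o))
        fun _ o => Sum.elim z y (sc o)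
      have hu : Sum.elim z (fun r => u (.inr r)) = u := by funext r; cases r <;> rfl
      have uA : ∀ q v, lab q = ix v → Sum.elim z y v = u (eA q) := fun q v e => by
        simp only [u, el_A, e, hix.eq_iff, exists_eq_left, Bool.decide_eq_true]
      refine ⟨fun r => u (.inr r), fun t => ?_⟩
      rw [hu, show (fun k => u (![t, pr t, li t] k)) = ![u t, u (pr t), u (li t)] by
        funext k; fin_cases k <;> rfl]
      rcases cs t with ⟨v, rfl⟩ | ⟨q, rfl⟩ | ⟨q, rfl⟩ | ⟨l, o, rfl⟩
      · simp only [Rel, pr, el_V]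
        change u (eV v) = u (eA (st v))
        rw [← uA _ v (hs v)]
        simp only [u, el_V]
      · intro a e
        change u (eA q) = u (pr (eA q))
        simp only [pr, el_A, if_neg a, u, e]
      · refine ⟨fun ⟨κ, e⟩ g => ?_, fun g => ?_⟩
        · obtain ⟨o, e1, e2⟩ := hy κ
          have e3 : lb (β o) = lb q := by rw [hb, e1, e]
          exact decide_eq_true ⟨o, not_lt.1 fun c => g _ c e3, e3, e2⟩
        · obtain ⟨o, e1, e2, e3⟩ := of_decide_eq_true g
          rcases e1.eq_or_lt with rfl | c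
          · refine .inl ⟨o, rfl, ?_⟩
            change u (li (eB (β o))) = sg o
            rw [hli]
            exact e3
          · have c' : (β o).val < q.val := c
            have a : q.val ≠ 0 := by omega
            have c1 : β o ≤ pd q := by rw [Fin.le_def, pd_val]; omega
            have c2 : pd q ≤ q := by rw [Fin.le_def, pd_val]; omega
            have c3 : lb (pd q) = lb q := le_antisymm (hm' c2) (e2 ▸ hm' c1)
            refine .inr ⟨a, c3, ?_⟩
            change u (pr (eB q)) = true
            simp only [pr, el_B, if_neg a]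
            exact decide_eq_true ⟨o, c1, e2.trans c3.symm, e3⟩
      · change u (eW l o) = u (pr (eW l o))
        simp only [pr, el_W]
        split_ifs with a
        · exact uA _ _ (ha o)
        · rfl

end Pool.Agent.MP_6b3410_lc.X91.H38
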