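import Mathlib
import Pool.Agent.MP_6b3410_lc.X91.Spec

/-!
The chain with rows sorted by a key.
-/

open Finset

namespace Pool.Agent.MP_6b3410_lc.X91.H40Chain

theorem lt_of {m : ℕ} (n : Fin m → ℕ) (p q : (Σ i, Fin (n i))) (h : p.1 < q.1) :
    (finSigmaFinEquiv p).val < (finSigmaFinEquiv q).val := by
  obtain ⟨i, k⟩ := p
  obtain ⟨i', k'⟩ := q
  have hk := k.2
  have key : ∀ j : Fin m, ∑ x : Fin j, n (Fin.castLE j.2.le x) =
      ∑ x ∈ range j, if g : x < m then n ⟨x, g⟩ else 0 := fun j => by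
    rw [← Fin.sum_univ_eq_sum_range (fun x => if g : x < m then n ⟨x, g⟩ else 0) j]
    exact sum_congr rfl fun x _ => by rw [dif_pos (x.2.trans j.2)]; rfl
  simp only [finSigmaFinEquiv_apply]
  rw [key i, key i']
  have h1 : ∑ x ∈ range (i + 1), (if g : x < m then n ⟨x, g⟩ else 0) ≤
      ∑ x ∈ range i', if g : x < m then n ⟨x, g⟩ else 0 :=
    sum_le_sum_of_subset (range_subset_range.2 h)
  rw [sum_range_succ, dif_pos i.2] at h1
  simp only [Fin.eta] at h1
  omega

theorem chain : ChainStmt := by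
  intro ρ _ L pv
  let f0 := (Fintype.equivFin ρ).symm
  let f := (Tuple.sort (pv ∘ f0)).trans f0
  have mono : Monotone fun i => pv (f i) := Tuple.monotone_sort (pv ∘ f0)
  have hs : ∑ i, L (f i) = ∑ r, L r := Equiv.sum_comp f L
  rw [← hs]
  let e := (finSigmaFinEquiv (n := fun i => L (f i)))
  have key : ∀ p q : (Σ i, Fin (L (f i))), p.1 = q.1 →
      (e p).val + q.2.val = (e q).val + p.2.val := by
    rintro ⟨i, k⟩ ⟨i', k'⟩ h
    dsimp only at h
    subst h
    simp only [e, finSigmaFinEquiv_apply]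
    omega
  refine ⟨fun j => f (e.symm j).1, fun j => (e.symm j).2.val, fun j => (e.symm j).2.2,
    fun r m hm => ?_, fun j j' h1 h2 => ?_, fun j j' h1 h2 => ?_, fun j j' h => mono ?_⟩
  · obtain ⟨i, rfl⟩ := f.surjective r
    exact ⟨e ⟨i, ⟨m, hm⟩⟩, by beta_reduce; rw [e.symm_apply_apply],
      by beta_reduce; rw [e.symm_apply_apply]⟩
  · have := key _ _ (f.injective h1)
    simp only [Equiv.apply_symm_apply] at this h2
    exact Fin.ext (by omega)
  · have := key _ _ (f.injective h1)
    simp only [Equiv.apply_symm_apply] at this h2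
    omega
  · by_contra g
    have h1 : (e (e.symm j')).val < (e (e.symm j)).val :=
      lt_of (fun i => L (f i)) _ _ (not_le.1 g)
    rw [e.apply_symm_apply, e.apply_symm_apply] at h1
    exact absurd h (not_le.2 h1)

end Pool.Agent.MP_6b3410_lc.X91.H40Chain
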