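import Pool.Agent.MP_6b3410_lc.X91.Spec

/-! Assembly of the monotone bound inside the explicit host graph. -/

open Finset

namespace Pool.Agent.MP_6b3410_lc.X91.H51Top

open Classical Pool.Agent.MP_6b3410_lc.H5 Pool.Agent.MP_6b3410_lc.H19 Pool.Agent.MP_6b3410_lc.H91

lemma near_symm {x y : ℕ} (h : Near x y) : Near y x := by
  obtain ⟨a, h⟩ := h
  exact ⟨a, by tauto⟩

lemma nearC_refl (P x : ℕ) : NearC P x x := Or.inl ⟨0, by simp⟩

lemma nearC_symm (P x y : ℕ) (h : NearC P x y) : NearC P y x := by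
  rcases h with h | h | h
  · exact Or.inl (near_symm h)
  · exact Or.inr (Or.inr ⟨h.2, h.1⟩)
  · exact Or.inr (Or.inl ⟨h.2, h.1⟩)

lemma nearC_succ (P x : ℕ) : NearC P x (x + 1) := Or.inl ⟨0, by simp⟩

/-- the projection of a formula into the block host -/
theorem projF (hL : LocStmt) (hS : CspStmt) {n d M P : ℕ} {Y K O : Type} [Fintype Y] [Fintype K]
    [Fintype O] (hn : 1 ≤ n) (cl : O → K) (sc : O → Fin n ⊕ Y) (sg : O → Bool)
    (h1 : Fintype.card O + (n + Fintype.card Y) ≤ 2 ^ d)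
    (h2 : Fintype.card O + Fintype.card K ≤ 2 ^ d) (hP : 2 ^ d ≤ P) (g : Fin M → ℕ)
    (hg : ∀ i, g i < P)
    (hf : ∀ p, p < P → 9 * (24 * (2 * d + 1 + 4 + 1) + 2) ^ 2 ≤
      (univ.filter fun i => g i = p).card) :
    ∃ π : Edge M → Fin n ⊕ Bool,
      (univ.filter fun e => π e ≠ Sum.inr false).card ≤ 3 * M ∧
      (∀ e, π e ≠ Sum.inr false → NearC P (g e.1.1) (g e.1.2)) ∧
      ∀ w : Fin n → Bool, Ham (fun e => Sum.elim w id (π e)) ↔
        ∃ z : Fin n → Bool, (∀ i, z i = true → w i = true) ∧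
          ∃ y : Y → Bool, ∀ κ, ∃ o, cl o = κ ∧ Sum.elim z y (sc o) = sg o := by
  obtain ⟨Y', ι, iY, iι, sc', Rel, pv, pk, tv, tk, a1, a2, a3, a4, a5, a6, a7⟩ :=
    hL n d Y K O cl sc sg h1 h2
  obtain ⟨π, b1, b2, b3⟩ := hS n M P Y' ι (Fin (2 * d + 1) ⊕ Fin 4) sc' Rel pv pk tv tk g
    (NearC P) hn (nearC_refl P) (nearC_symm P) (nearC_succ P) (Or.inr (Or.inl ⟨rfl, rfl⟩))
    (fun r => (a1 r).trans_le hP) (fun t => (a2 t).trans_le hP) hg a3 a4 a5
    (fun t k => Or.inl (a6 t k)) (fun p hp => by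
      rw [Fintype.card_sum, Fintype.card_fin, Fintype.card_fin]
      exact hf p hp)
  refine ⟨π, b1, b2, fun w => (b3 w).trans ?_⟩
  exact exists_congr fun z => and_congr_right fun _ => a7 z

theorem proj3 (hL : LocStmt) (hS : CspStmt) (n v m d M P : ℕ) (N : Fin n → Finset (Fin v))
    (a : Fin n → Fin v → Fin m) (hn : 1 ≤ n)
    (hN : ∀ i, (N i).card ≤ 12) (hvm : v * m ≤ n) (hv : v ≤ n) (hM : 300 * n ≤ 2 ^ d)
    (hP : 2 ^ d ≤ P) (g : Fin M → ℕ) (hg : ∀ i, g i < P)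
    (hf : ∀ p, p < P → 9 * (24 * (2 * d + 1 + 4 + 1) + 2) ^ 2 ≤
      (univ.filter fun i => g i = p).card) :
    ∃ π : H19.Edge M → Fin n ⊕ Bool,
      (univ.filter fun e => π e ≠ Sum.inr false).card ≤ 3 * M ∧
      (∀ e, π e ≠ Sum.inr false → NearC P (g e.1.1) (g e.1.2)) ∧
      ∀ w : Fin n → Bool,
        H19.Ham (fun e => Sum.elim w id (π e)) ↔ ∃ x, ∀ i, Hit N a i x → w i = true := by
  have hO : Fintype.card (Σ i : Fin n, {u // u ∈ N i}) ≤ 12 * n := by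
    rw [Fintype.card_sigma]
    refine (sum_le_card_nsmul _ _ 12 fun i _ => ?_).trans (by simp [mul_comm])
    simpa using hN i
  obtain ⟨π, h1, h1', h2⟩ := projF hL hS (d := d) (M := M) (P := P) (Y := Fin v × Fin m)
    (K := Fin v ⊕ Fin n)
    (O := (Fin v × Fin m) ⊕ Fin n ⊕ (Σ i : Fin n, {u // u ∈ N i})) hn
    (Sum.elim (fun q => Sum.inl q.1) (Sum.elim (fun i => Sum.inr i) fun q => Sum.inr q.1))
    (Sum.elim (fun q => Sum.inr q)
      (Sum.elim (fun i => Sum.inl i) fun q => Sum.inr (q.2.1, a q.1 q.2.1)))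
    (Sum.elim (fun _ => true) (Sum.elim (fun _ => true) fun _ => false)) (by
      simp only [Fintype.card_sum, Fintype.card_prod, Fintype.card_fin]
      omega) (by
      simp only [Fintype.card_sum, Fintype.card_prod, Fintype.card_fin]
      omega) hP g hg hf
  refine ⟨π, h1, h1', fun w => (h2 w).trans ⟨?_, ?_⟩⟩
  · rintro ⟨z, hz, y, hy⟩
    have hx : ∀ u, ∃ c, y (u, c) = true := by
      intro u
      obtain ⟨q | i | q, e1, e2⟩ := hy (Sum.inl u)
      · obtain rfl : q.1 = u := by simpa using e1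
        exact ⟨q.2, by simpa using e2⟩
      · simp at e1
      · simp at e1
    choose x hx using hx
    refine ⟨x, fun i hi => ?_⟩
    obtain ⟨q | i' | ⟨i', u, hu⟩, e1, e2⟩ := hy (Sum.inr i)
    · simp at e1
    · obtain rfl : i' = i := by simpa using e1
      exact hz _ (by simpa using e2)
    · obtain rfl : i' = i := by simpa using e1
      have e3 : y (u, a i' u) = false := by simpa using e2
      have e4 := hx u
      rw [hi u hu, e3] at e4
      simp at e4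
  · rintro ⟨x, hx⟩
    refine ⟨w, fun _ h => h, fun q => decide (x q.1 = q.2), ?_⟩
    rintro (u | i)
    · exact ⟨Sum.inl (u, x u), rfl, by simp⟩
    · by_cases hi : Hit N a i x
      · exact ⟨Sum.inr (Sum.inl i), rfl, by simpa using hx i hi⟩
      · simp only [Hit, Agree, not_forall] at hi
        obtain ⟨u, hu, h⟩ := hi
        exact ⟨Sum.inr (Sum.inr ⟨i, u, hu⟩), rfl, by simpa using h⟩

theorem top (hL : LocStmt) (hS : CspStmt) (hT : HostStmt) (hU : NumStmt)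
    (hC : CircStmt) (hH : HyperStmt) (hP : PatStmt) (hN : ParStmt) :
    ∃ C n₀ : ℕ, ∀ n : ℕ, n₀ ≤ n →
      ∃ H : Finset {p : Fin n × Fin n // p.1 < p.2}, H.card ≤ 3 * n ∧
      (∀ e ∈ H, (∃ k : ℕ, e.1.2.val ≤ e.1.1.val + 2 ^ k + Nat.log 2 n ^ 4 ∧
          e.1.1.val + 2 ^ k ≤ e.1.2.val + Nat.log 2 n ^ 4) ∨
        e.1.1.val + n ≤ e.1.2.val + Nat.log 2 n ^ 4) ∧
      ∀ (s : ℕ) (G : Fin s → Bool × Bool → Bool)
        (a b : Fin s → ({p : Fin n × Fin n // p.1 < p.2} ⊕ Fin s)) (o : Fin s),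
        (∀ g j : Fin s, (a g = Sum.inr j → j < g) ∧ (b g = Sum.inr j → j < g)) →
        (∀ g : Fin s, Monotone (G g)) →
        (∀ x : {p : Fin n × Fin n // p.1 < p.2} → Bool, (∀ e, x e = true → e ∈ H) →
          ∀ val : Fin s → Bool,
          (∀ g : Fin s, val g = G g (Sum.elim x val (a g), Sum.elim x val (b g))) →
          (val o = true ↔
            (SimpleGraph.fromRel
              (fun i j : Fin n => ∃ h : i < j, x ⟨(i, j), h⟩ = true)).IsHamiltonian)) →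
        Real.exp (n / Real.log n ^ C) ≤ (s : ℝ) := by
  obtain ⟨C, M₀, hM⟩ := hN
  obtain ⟨C', n₀, hU⟩ := hU C M₀
  refine ⟨C', n₀, fun M hMM => ?_⟩
  obtain ⟨P, τ, d, u1, u2, u3, u4, u5, u6, u7⟩ := hU M hMM
  obtain ⟨n, v, t, L, s1, h1, h2, h3, h4, h5, h6, h7, h8, h9, h10, h11, h12, h13, h14⟩ :=
    hM (2 ^ d) u5
  obtain ⟨g, g1, g2, g3⟩ := hT M P τ (Nat.log 2 M ^ 4)
    (lt_of_lt_of_le (Nat.two_pow_pos d) u4) u1 u2 u3
  obtain ⟨N, hd, he⟩ := hH n v (cap s1) h1 h3 h7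
  obtain ⟨pa, pb, hab⟩ := hP n v (t ^ 10) N (Nat.one_le_pow _ _ h2) hd h6
  obtain ⟨π, hπ1, hπ3, hπ2⟩ := proj3 hL hS n v (t ^ 10) d M P N pa (h1.trans h3) hd h4 h3 h5 u4 g g1
    (fun p hp => u6.trans (g2 p hp))
  have hok : Ok (Fin (t ^ 10)) N (t : ℝ) L s1 :=
    ⟨by simp, hd, he, h8, by simpa using h9, by simpa using h10, h11, by exact_mod_cast h12,
      by simpa using (show (256 * n : ℝ) ≤ (t : ℝ) ^ s1 by exact_mod_cast h13),
      by simpa using h1.trans h3⟩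
  refine ⟨univ.filter fun e => π e ≠ Sum.inr false, hπ1,
    fun e he => g3 e.1.1 e.1.2 e.2 (hπ3 e (mem_filter.1 he).2),
    fun s G a b o hac hmono hF => ?_⟩
  have := hC _ _ _ N t L s1 hok pa pb hab _ π s G a b o hac hmono fun w val hval => by
    rw [← hπ2 w]
    refine hF _ (fun e he => mem_filter.2 ⟨mem_univ _, fun h => ?_⟩) val hval
    simp [h] at he
  have h15 := Real.exp_le_exp.2 u7
  linarith

end Pool.Agent.MP_6b3410_lc.X91.H51Top
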