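import Pool.Agent.MP_6b3410_lc.X91.Spec

/-!
Every formula is equivalent to a local system of ternary constraints.
-/

namespace Pool.Agent.MP_6b3410_lc.X91.H52Loc

open Classical

/-- the cyclic successor -/
def nx {Q : ℕ} (p : Fin Q) : Fin Q := if h : p.val + 1 < Q then ⟨p.val + 1, h⟩ else ⟨0, p.pos⟩

theorem nx_val {Q : ℕ} (p : Fin Q) :
    (p.val + 1 < Q ∧ (nx p).val = p.val + 1) ∨ (p.val + 1 = Q ∧ (nx p).val = 0) := by
  have := p.isLt
  unfold nx
  split_ifs with h
  · exact Or.inl ⟨h, rfl⟩
  · exact Or.inr ⟨by omega, rfl⟩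

theorem nx_inj {Q : ℕ} {p q : Fin Q} (h : nx p = nx q) : p = q := by
  have h1 := nx_val p
  have h2 := nx_val q
  rw [h] at h1
  exact Fin.ext (by omega)

theorem near_self (x : ℕ) : Near x x := ⟨0, Or.inr (Or.inr (Or.inl (by simp)))⟩

theorem near_nx {d : ℕ} (p : Fin (2 ^ d)) : Near (nx p).val p.val := by
  rcases nx_val p with ⟨-, h⟩ | ⟨h, g⟩
  · exact ⟨0, Or.inr (Or.inl (by simp [h]))⟩
  · exact ⟨d, Or.inr (Or.inr (Or.inl (by omega)))⟩

abbrev YY (Q d : ℕ) (O : Type) : Type := Fin Q ⊕ Fin Q ⊕ (Fin (2 * d + 1) × O)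

abbrev II (n Q d : ℕ) (O : Type) : Type := Fin n ⊕ Fin Q ⊕ Fin Q ⊕ (Fin (2 * d + 1) × O)

section
variable {n Q d : ℕ} {O : Type}

def vX (p : Fin Q) : Fin n ⊕ YY Q d O := .inr (.inl p)

def vZ (p : Fin Q) : Fin n ⊕ YY Q d O := .inr (.inr (.inl p))

def vW (l : Fin (2 * d + 1)) (o : O) : Fin n ⊕ YY Q d O := .inr (.inr (.inr (l, o)))

def s0 : II n Q d O → Fin n ⊕ YY Q d O
  | .inl i => .inl i
  | .inr (.inl p) => vX p
  | .inr (.inr (.inl p)) => vZ p
  | .inr (.inr (.inr q)) => vW q.1 q.2

noncomputable def s1 (st : Fin n → Fin Q) (α β : O → Fin Q) : II n Q d O → Fin n ⊕ YY Q d O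
  | .inl i => vX (st i)
  | .inr (.inl p) => vX (nx p)
  | .inr (.inr (.inl p)) => if h : ∃ o, β o = p then vW (Fin.last _) h.choose else vZ p
  | .inr (.inr (.inr q)) =>
    if q.1.val = 0 then vX (α q.2) else vW ⟨q.1.val - 1, by have := q.1.isLt; omega⟩ q.2

def s2 : II n Q d O → Fin n ⊕ YY Q d O
  | .inl i => .inl i
  | .inr (.inl p) => vX p
  | .inr (.inr (.inl p)) => vZ (nx p)
  | .inr (.inr (.inr q)) => vW q.1 q.2

def ps (st : Fin n → Fin Q) (path : ℕ → O → ℕ) : II n Q d O → ℕ
  | .inl i => (st i).val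
  | .inr (.inl p) => p.val
  | .inr (.inr (.inl p)) => p.val
  | .inr (.inr (.inr q)) => path q.1.val q.2

def tg : II n Q d O → Fin (2 * d + 1) ⊕ Fin 4
  | .inl _ => .inr 0
  | .inr (.inl _) => .inr 1
  | .inr (.inr (.inl _)) => .inr 2
  | .inr (.inr (.inr q)) => .inl q.1

def rl (lab lab' : Fin Q → ℕ) (S : ℕ → Prop) (β : O → Fin Q) (sg : O → Bool) :
    II n Q d O → Bool → Bool → Bool → Prop
  | .inl _ => fun a b _ => a = b
  | .inr (.inl p) => fun a b _ => lab p = lab (nx p) → a = b
  | .inr (.inr (.inl p)) => fun a b c =>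
    (S (lab' p) → (∀ q, lab' q = lab' p → p ≤ q) → a = true) ∧
      (a = true → ((∃ o, β o = p) ∧ b = true) ∨ (p < nx p ∧ lab' (nx p) = lab' p ∧ c = true))
  | .inr (.inr (.inr q)) => fun a b _ => a = true → b = if q.1.val = 0 then sg q.2 else true

theorem ps_inj {st : Fin n → Fin Q} {path : ℕ → O → ℕ} (h1 : Function.Injective st)
    (h2 : ∀ l, Function.Injective (path l)) (r r' : II n Q d O) (h : ps st path r = ps st path r')
    (g : tg r = tg r') : r = r' := by
  rcases r with i | p | p | ⟨l, o⟩ <;> rcases r' with i' | p' | p' | ⟨l', o'⟩ <;>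
    simp only [tg, ps, Sum.inr.injEq, Sum.inl.injEq, reduceCtorEq, Fin.reduceEq] at h g
  · rw [h1 (Fin.ext h)]
  · rw [Fin.ext h]
  · rw [Fin.ext h]
  · subst g
    rw [h2 _ h]

theorem s0_inj (r r' : II n Q d O) (h : s0 r = s0 r') : r = r' := by
  rcases r with i | p | p | ⟨l, o⟩ <;> rcases r' with i' | p' | p' | ⟨l', o'⟩ <;>
    simp_all [s0, vX, vZ, vW]

theorem s2_inj (r r' : II n Q d O) (h : s2 r = s2 r') : r = r' := by
  rcases r with i | p | p | ⟨l, o⟩ <;> rcases r' with i' | p' | p' | ⟨l', o'⟩ <;>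
    simp only [s2, vX, vZ, vW, Sum.inr.injEq, Sum.inl.injEq, reduceCtorEq] at h
  · rw [h]
  · rw [h]
  · rw [nx_inj h]
  · rw [h]

theorem s1_inj {st : Fin n → Fin Q} {α β : O → Fin Q} (h1 : Function.Injective st)
    (h2 : Function.Injective α) (r r' : II n Q d O) (h : s1 st α β r = s1 st α β r')
    (g : tg r = tg r') : r = r' := by
  rcases r with i | p | p | ⟨l, o⟩ <;> rcases r' with i' | p' | p' | ⟨l', o'⟩ <;>
    simp only [tg, Sum.inr.injEq, Sum.inl.injEq, reduceCtorEq, Fin.reduceEq] at g
  · simp only [s1, vX, Sum.inr.injEq, Sum.inl.injEq] at h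
    rw [h1 h]
  · simp only [s1, vX, Sum.inr.injEq, Sum.inl.injEq] at h
    rw [nx_inj h]
  · simp only [s1] at h
    split_ifs at h with a b b
    · simp only [vW, Sum.inr.injEq, Prod.mk.injEq, true_and] at h
      rw [← a.choose_spec, ← b.choose_spec, h]
    · simp [vW, vZ] at h
    · simp [vW, vZ] at h
    · simp only [vZ, Sum.inr.injEq, Sum.inl.injEq] at h
      rw [h]
  · subst g
    simp only [s1] at h
    split_ifs at h with a
    · simp only [vX, Sum.inr.injEq, Sum.inl.injEq] at h
      rw [h2 h]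
    · simp only [vW, Sum.inr.injEq, Prod.mk.injEq, true_and] at h
      rw [h]

theorem const {lab : Fin Q → ℕ} (hm : Monotone lab) {X : Fin Q → Bool}
    (h : ∀ p, lab p = lab (nx p) → X p = X (nx p)) {p q : Fin Q} (e : lab p = lab q) :
    X p = X q := by
  have key : ∀ (k : ℕ) (p q : Fin Q), q.val = p.val + k → lab p = lab q → X p = X q := by
    intro k
    induction k with
    | zero => intro p q h1 _; rw [show p = q from Fin.ext (by omega)]
    | succ k ih =>
      intro p q h1 h2
      have := q.isLt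
      have h3 := nx_val p
      have a : lab p ≤ lab (nx p) := hm (by rw [Fin.le_def]; omega)
      have b : lab (nx p) ≤ lab q := hm (by rw [Fin.le_def]; omega)
      rw [h p (by omega)]
      exact ih _ _ (by omega) (by omega)
  rcases le_total p.val q.val with g | g
  · exact key (q.val - p.val) p q (by omega) e
  · exact (key (p.val - q.val) q p (by omega) e.symm).symm

theorem reach {lab' : Fin Q → ℕ} {Z : Fin Q → Bool} {G : Fin Q → Prop}
    (h : ∀ p, Z p = true → G p ∨ (p < nx p ∧ lab' (nx p) = lab' p ∧ Z (nx p) = true))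
    (p : Fin Q) (hp : Z p = true) : ∃ q, lab' q = lab' p ∧ G q := by
  have key : ∀ (k : ℕ) (p : Fin Q), Q ≤ p.val + k → Z p = true → ∃ q, lab' q = lab' p ∧ G q := by
    intro k
    induction k with
    | zero => intro p h1 _; have := p.isLt; omega
    | succ k ih =>
      intro p h1 h2
      rcases h p h2 with g | ⟨g1, g2, g3⟩
      · exact ⟨p, rfl, g⟩
      · rw [Fin.lt_def] at g1
        obtain ⟨q, q1, q2⟩ := ih (nx p) (by omega) g3
        exact ⟨q, q1.trans g2, q2⟩
  exact key Q p (by omega) hp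

end

theorem loc (hL : LineStmt) (hR : RouteStmt) : LocStmt := by
  intro n d Y K O _ _ _ cl sc sg h1 h2
  obtain ⟨lab, α, st, ix, m1, iα, iix, a1, a2⟩ := hL O (Fin n ⊕ Y) sc (2 ^ d) (by simpa using h1)
  obtain ⟨lab', β, st', ix', m2, iβ, iix', b1, b2⟩ := hL O K cl (2 ^ d) h2
  obtain ⟨path, p0, p1, p2, p3, p4⟩ := hR d O (fun o => (α o).val) (fun o => (β o).val)
    (Fin.val_injective.comp iα) (Fin.val_injective.comp iβ) (fun o => (α o).isLt)
    fun o => (β o).isLt
  have ist : Function.Injective fun i : Fin n => st (.inl i) := fun i j h => by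
    have : ix (.inl i) = ix (.inl j) := by rw [← a2, ← a2]; exact congrArg lab h
    simpa using iix this
  have hlt : ∀ r : II n (2 ^ d) d O, ps (fun i => st (.inl i)) path r < 2 ^ d := by
    rintro (i | p | p | q)
    exacts [(st _).isLt, p.isLt, p.isLt, p3 _ _]
  refine ⟨YY (2 ^ d) d O, II n (2 ^ d) d O, inferInstance, inferInstance,
    fun t => ![s0 t, s1 (fun i => st (.inl i)) α β t, s2 t],
    fun t b => rl lab lab' (fun m => ∃ κ, m = ix' κ) β sg t (b 0) (b 1) (b 2),
    ps (fun i => st (.inl i)) path, ps (fun i => st (.inl i)) path, tg, tg, hlt, hlt,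
    ps_inj ist p2, ps_inj ist p2, ?_, ?_, fun z => ⟨?_, ?_⟩⟩
  · intro k t t' h g
    fin_cases k
    · exact s0_inj _ _ h
    · exact s1_inj ist iα _ _ h g
    · exact s2_inj _ _ h
  · intro t k
    fin_cases k
    · rcases t with i | p | p | q <;> exact near_self _
    · change Near (ps _ path (s1 (fun i => st (.inl i)) α β t)) _
      rcases t with i | p | p | ⟨l, o⟩
      · exact near_self _
      · exact near_nx p
      · simp only [s1]
        split_ifs with a
        · have : path (2 * d) a.choose = p.val := by rw [p1]; exact congrArg _ a.choose_spec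
          change Near (path (2 * d) a.choose) p.val
          rw [this]
          exact near_self _
        · exact near_self _
      · simp only [s1]
        split_ifs with a
        · change Near (α o).val (path l.val o)
          rw [a, p0]
          exact near_self _
        · have := p4 (l.val - 1) o
          rw [show l.val - 1 + 1 = l.val by omega] at this
          exact this
    · rcases t with i | p | p | q
      exacts [near_self _, near_self _, near_nx p, near_self _]
  · rintro ⟨y, hy⟩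
    have hX : ∀ p q, lab p = lab q → y (.inl p) = y (.inl q) := fun p q =>
      const (X := fun p => y (.inl p)) m1 fun p => hy (.inr (.inl p))
    refine ⟨fun v => y (.inl (st (.inr v))), fun κ => ?_⟩
    obtain ⟨p, hp, hmin⟩ := WellFounded.has_min wellFounded_lt {p | lab' p = ix' κ}
      ⟨st' κ, b2 κ⟩
    have hp' : lab' p = ix' κ := hp
    have z1 : y (.inr (.inl p)) = true := (hy (.inr (.inr (.inl p)))).1 ⟨κ, hp'⟩
      fun q hq => not_lt.1 (hmin q (hq.trans hp'))
    obtain ⟨q, q1, o, q2, q3⟩ := reach (lab' := lab') (Z := fun p => y (.inr (.inl p)))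
      (G := fun p => ∃ o, β o = p ∧ y (.inr (.inr (Fin.last _, o))) = true) (fun p hp => by
        rcases (hy (.inr (.inr (.inl p)))).2 hp with ⟨a, b⟩ | g
        · refine Or.inl ⟨a.choose, a.choose_spec, ?_⟩
          change Sum.elim z y (s1 (fun i => st (.inl i)) α β (.inr (.inr (.inl p)))) = true at b
          simp only [s1, dif_pos a] at b
          exact b
        · exact Or.inr g) p z1
    refine ⟨o, iix' (by rw [← b1, q2, q1, hp']), ?_⟩
    have dn : ∀ (k : ℕ) (hk : k < 2 * d + 1), y (.inr (.inr (⟨k, hk⟩, o))) = true →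
        y (.inl (α o)) = sg o := by
      intro k
      induction k with
      | zero => intro hk h; exact hy (.inr (.inr (.inr (⟨0, hk⟩, o)))) h
      | succ k ih => intro hk h; exact ih (by omega) (hy (.inr (.inr (.inr (⟨k + 1, hk⟩, o)))) h)
    rw [← dn (2 * d) (by omega) q3, hX (α o) (st (sc o)) (by rw [a1, a2])]
    rcases sc o with i | v
    · exact hy (.inl i)
    · rfl
  · rintro ⟨y, hy⟩
    obtain ⟨f, hf⟩ : ∃ f : ℕ → Bool, ∀ v, f (ix v) = Sum.elim z y v :=
      ⟨Function.extend ix (Sum.elim z y) fun _ => false, fun v => iix.extend_apply _ _ v⟩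
    refine ⟨Sum.elim (fun p => f (lab p)) (Sum.elim
      (fun p => decide (∃ o, lab' (β o) = lab' p ∧ p ≤ β o ∧ Sum.elim z y (sc o) = sg o))
      fun q => decide (Sum.elim z y (sc q.2) = sg q.2)), ?_⟩
    rintro (i | p | p | ⟨l, o⟩)
    · change z i = f (lab (st (.inl i)))
      rw [a2, hf]
      rfl
    · exact fun h => congrArg f h
    · refine ⟨?_, fun h => ?_⟩
      · rintro ⟨κ, hκ⟩ hq
        obtain ⟨o, o1, o2⟩ := hy κ
        have : lab' (β o) = lab' p := by rw [b1, o1, hκ]
        exact decide_eq_true ⟨o, this, hq _ this, o2⟩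
      · obtain ⟨o, o1, o2, o3⟩ := of_decide_eq_true h
        rcases o2.eq_or_lt with e | e
        · have a : ∃ o, β o = p := ⟨o, e.symm⟩
          refine Or.inl ⟨a, ?_⟩
          change Sum.elim z _ (s1 (fun i => st (.inl i)) α β (.inr (.inr (.inl p)))) = true
          simp only [s1, dif_pos a]
          rw [iβ (a.choose_spec.trans e)]
          exact decide_eq_true o3
        · have h3 := nx_val p
          have := (β o).isLt
          rw [Fin.lt_def] at e
          have u1 : nx p ≤ β o := by rw [Fin.le_def]; omega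
          have u2 : p < nx p := by rw [Fin.lt_def]; omega
          have u3 : lab' (nx p) = lab' p := le_antisymm (o1 ▸ m2 u1) (m2 u2.le)
          exact Or.inr ⟨u2, u3, decide_eq_true ⟨o, o1.trans u3.symm, u1, o3⟩⟩
    · intro h
      have h' := of_decide_eq_true h
      change Sum.elim z _ (s1 (fun i => st (.inl i)) α β (.inr (.inr (.inr (l, o))))) = _
      simp only [s1]
      split_ifs with a
      · change f (lab (α o)) = sg o
        rw [a1, hf]
        exact h'
      · exact h

end Pool.Agent.MP_6b3410_lc.X91.H52Loc
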