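import Pool.Agent.MP_6b3410_lc.X91.Spec

/-!
The blocks of the explicit host graph.
-/

open Finset

namespace Pool.Agent.MP_6b3410_lc.X91

namespace Host

theorem bounds {N P B i : ℕ} (hP : 0 < P) (hB : 0 < B) (h2 : N < (P + 1) * B) (hi : i < N) :
    min (i / B) (P - 1) * B ≤ i ∧ i < min (i / B) (P - 1) * B + 2 * B := by
  have a1 : i / B * B ≤ i := Nat.div_mul_le_self i B
  have a2 : i < i / B * B + B := by
    have := Nat.div_add_mod i B
    have := Nat.mod_lt i hB
    rw [mul_comm]; omega
  refine ⟨(Nat.mul_le_mul_right B (min_le_left _ _)).trans a1, ?_⟩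
  rcases le_total (i / B) (P - 1) with h | h
  · rw [min_eq_left h]; omega
  · rw [min_eq_right h]
    obtain ⟨p, rfl⟩ : ∃ p, P = p + 1 := ⟨P - 1, by omega⟩
    rw [Nat.add_sub_cancel]
    have : (p + 1 + 1) * B = p * B + 2 * B := by ring
    omega

theorem fibre {N P B p : ℕ} (hB : 0 < B) (h1 : P * B ≤ N) (hp : p < P) :
    B ≤ (univ.filter fun i : Fin N => min (i.val / B) (P - 1) = p).card := by
  have lt : ∀ k : Fin B, p * B + k.val < N := fun k => by
    have h3 : (p + 1) * B ≤ P * B := Nat.mul_le_mul_right B hp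
    have h4 : (p + 1) * B = p * B + B := by ring
    have := k.2
    omega
  have := Finset.card_le_card_of_injOn (s := (univ : Finset (Fin B)))
    (t := univ.filter fun i : Fin N => min (i.val / B) (P - 1) = p)
    (fun k => ⟨p * B + k.val, lt k⟩) (fun k _ => by
      simp only [coe_filter, mem_univ, true_and, Set.mem_ofPred_eq]
      have e : (p * B + k.val) / B = p := by
        rw [add_comm, Nat.add_mul_div_right _ _ hB, Nat.div_eq_of_lt k.2, zero_add]
      rw [e]
      omega) (fun k _ k' _ h => by
      have := congrArg Fin.val h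
      simp only at this
      exact Fin.ext (by omega))
  simpa using this

end Host

theorem host : HostStmt := by
  intro N P τ T hP h1 h2 hT
  have hB : 0 < 2 ^ τ := by positivity
  refine ⟨fun i => min (i.val / 2 ^ τ) (P - 1), fun i => ?_, fun p hp => Host.fibre hB h1 hp,
    fun i j hij hn => ?_⟩
  · have := min_le_right (i.val / 2 ^ τ) (P - 1)
    show min (i.val / 2 ^ τ) (P - 1) < P
    omega
  have ij : i.val < j.val := hij
  obtain ⟨b1, b2⟩ := Host.bounds hP hB h2 i.2
  obtain ⟨c1, c2⟩ := Host.bounds hP hB h2 j.2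
  have mono : min (i.val / 2 ^ τ) (P - 1) ≤ min (j.val / 2 ^ τ) (P - 1) :=
    min_le_min_right _ (Nat.div_le_div_right ij.le)
  simp only at hn
  generalize min (i.val / 2 ^ τ) (P - 1) = x at *
  generalize min (j.val / 2 ^ τ) (P - 1) = y at *
  rcases hn with ⟨a, h⟩ | ⟨hx, hy⟩ | ⟨hx, hy⟩
  · refine Or.inl ⟨a + τ, ?_⟩
    rw [pow_add]
    have hA : 0 < 2 ^ a := by positivity
    generalize 2 ^ a = A at *
    generalize 2 ^ τ = B at *
    rcases h with h | h | h | h
    · have e : y * B = x * B + A * B := by rw [← h]; ring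
      omega
    · omega
    · have e : y * B + B = x * B + A * B := by
        rw [← add_mul, h]; ring
      omega
    · obtain rfl : A = 1 := by omega
      obtain rfl : x = y := by omega
      omega
  · obtain rfl : P = 1 := by omega
    omega
  · right
    obtain ⟨p, rfl⟩ : ∃ p, P = p + 1 := ⟨P - 1, by omega⟩
    subst hx
    obtain rfl : y = p := by omega
    generalize 2 ^ τ = B at *
    have : (y + 1 + 1) * B = y * B + 2 * B := by ring
    omega

end Pool.Agent.MP_6b3410_lc.X91
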