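import Pool.Agent.MP_6b3410_lc.X91.Spec

/-!
The split vertices are laid out block by block.
-/

open Finset

namespace Pool.Agent.MP_6b3410_lc.X91

open Classical Pool.Agent.MP_6b3410_lc.H5 Pool.Agent.MP_6b3410_lc.H19

namespace Lay

theorem card_fib {V : Type} [Fintype V] (len blk : V → ℕ) (p : ℕ) :
    (univ.filter fun s : Spl len => blk s.1 = p).card =
      ∑ v ∈ univ.filter fun v => blk v = p, (len v + 3) := by
  have e : (univ.filter fun s : Spl len => blk s.1 = p) =
      (univ.filter fun v => blk v = p).sigma fun _ => univ := by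
    ext s
    simp
  rw [e, card_sigma]
  simp

end Lay

theorem lay : LayStmt := by
  intro V _ N blk g hg hc
  have h0 : ∀ p, ∃ o : Option V, ∀ v, blk v = p → ∃ r, o = some r ∧ blk r = p := by
    intro p
    by_cases h : ∃ v, blk v = p
    · obtain ⟨r, hr⟩ := h
      exact ⟨some r, fun _ _ => ⟨r, rfl, hr⟩⟩
    · exact ⟨none, fun v hv => absurd ⟨v, hv⟩ h⟩
  choose rep hrep using h0
  obtain ⟨len, hlen⟩ : ∃ len : V → ℕ, ∀ v, len v = if rep (blk v) = some v then
      (univ.filter fun i => g i = blk v).card - 3 * (univ.filter fun u => blk u = blk v).card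
      else 0 := ⟨_, fun _ => rfl⟩
  have key : ∀ p, (univ.filter fun s : Spl len => blk s.1 = p).card =
      (univ.filter fun i => g i = p).card := by
    intro p
    rw [Lay.card_fib, sum_add_distrib, sum_const, smul_eq_mul]
    by_cases h : ∃ v, blk v = p
    · obtain ⟨v, hv⟩ := h
      obtain ⟨r, h1, h2⟩ := hrep p v hv
      have h3 : ∑ u ∈ univ.filter fun u => blk u = p, len u = len r := by
        refine sum_eq_single r (fun u hu hur => ?_) fun hr => ?_
        · rw [hlen, (mem_filter.1 hu).2, h1, if_neg fun e => hur (Option.some.inj e).symm]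
        · exact absurd (mem_filter.2 ⟨mem_univ r, h2⟩) hr
      have h4 := hc p
      rw [h3, hlen, h2, if_pos h1]
      omega
    · have h1 : (univ.filter fun u => blk u = p) = ∅ :=
        filter_eq_empty_iff.2 fun u _ e => h ⟨u, e⟩
      have h2 : (univ.filter fun i => g i = p) = ∅ :=
        filter_eq_empty_iff.2 fun i _ e => h (e ▸ hg i)
      rw [h1, h2]
      simp
  have e : ∀ p, {s : Spl len // blk s.1 = p} ≃ {i : Fin N // g i = p} := fun p =>
    Fintype.equivOfCardEq (by rw [Fintype.card_subtype, Fintype.card_subtype, key])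
  exact ⟨len, Equiv.ofFiberEquiv (f := fun s : Spl len => blk s.1) (g := g) e,
    fun s => Equiv.ofFiberEquiv_map e s⟩

end Pool.Agent.MP_6b3410_lc.X91
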