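import Pool.Agent.MP_6b3410_lc.X91.Spec

/-!
Sorting occurrences along a line.
-/

namespace Pool.Agent.MP_6b3410_lc.X91

theorem line : LineStmt := by
  intro O V _ _ sc Q hQ
  obtain ⟨emb⟩ : Nonempty (O ⊕ V ↪ Fin Q) :=
    Function.Embedding.nonempty_of_card_le (by simpa using hQ)
  let ix : V → ℕ := fun v => (Fintype.equivFin V v).val
  let key : Fin Q → ℕ := Function.extend emb (fun x => ix (Sum.elim sc id x)) fun _ => 0
  have hk : ∀ x, key (emb x) = ix (Sum.elim sc id x) := fun x =>
    emb.injective.extend_apply _ _ x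
  refine ⟨key ∘ Tuple.sort key, fun o => (Tuple.sort key).symm (emb (Sum.inl o)),
    fun v => (Tuple.sort key).symm (emb (Sum.inr v)), ix, Tuple.monotone_sort key,
    fun a b h => ?_, fun a b h => ?_, fun o => ?_, fun v => ?_⟩
  · exact Sum.inl_injective (emb.injective ((Tuple.sort key).symm.injective h))
  · exact (Fintype.equivFin V).injective (Fin.ext h)
  · simp only [Function.comp_apply, Equiv.apply_symm_apply, hk, Sum.elim_inl]
  · simp only [Function.comp_apply, Equiv.apply_symm_apply, hk, Sum.elim_inr, id]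

end Pool.Agent.MP_6b3410_lc.X91
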