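import Mathlib
import Pool.Agent.MP_6b3410_lc.X91.Spec

/-!
Every formula is equivalent to a local system of ternary constraints.
-/

open Finset

namespace Pool.Agent.MP_6b3410_lc.X91

open Classical

namespace Loc

lemma near_refl (x : ℕ) : Near x x := ⟨0, Or.inr (Or.inr (Or.inl rfl))⟩

lemma near_symm {x y : ℕ} (h : Near x y) : Near y x := by
  obtain ⟨a, h⟩ := h
  exact ⟨a, by tauto⟩

/-- cyclic successor -/
def nx {Q : ℕ} (p : Fin Q) : Fin Q := if h : p.val + 1 < Q then ⟨p.val + 1, h⟩ else ⟨0, p.pos⟩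

lemma nx_val {Q : ℕ} (p : Fin Q) :
    (p.val + 1 < Q ∧ (nx p).val = p.val + 1) ∨ (p.val + 1 = Q ∧ (nx p).val = 0) := by
  have := p.2
  unfold nx
  split_ifs with h
  · exact Or.inl ⟨h, rfl⟩
  · exact Or.inr ⟨by omega, rfl⟩

lemma nx_inj {Q : ℕ} {p q : Fin Q} (h : nx p = nx q) : p = q := by
  have h1 := nx_val p
  have h2 := nx_val q
  rw [h] at h1
  exact Fin.ext (by omega)

lemma nx_near {d : ℕ} (p : Fin (2 ^ d)) : Near (nx p).val p.val := by
  rcases nx_val p with h | h
  · exact ⟨0, Or.inr (Or.inl (by omega))⟩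
  · exact ⟨d, Or.inr (Or.inr (Or.inl (by omega)))⟩

lemma copy {Q : ℕ} (lab : Fin Q → ℕ) (hm : Monotone lab) (X : Fin Q → Bool)
    (h : ∀ p, lab p = lab (nx p) → X p = X (nx p)) (p q : Fin Q) (hpq : lab p = lab q) :
    X p = X q := by
  have key : ∀ (k : ℕ) (p q : Fin Q), p.val + k = q.val → lab p = lab q → X p = X q := by
    intro k
    induction k with
    | zero => intro p q e _; rw [show p = q from Fin.ext (by omega)]
    | succ k ih =>
      intro p q e e'
      have hq := q.2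
      have h1 := nx_val p
      have h2 : lab p ≤ lab (nx p) := hm (Fin.le_def.2 (by omega))
      have h3 : lab (nx p) ≤ lab q := hm (Fin.le_def.2 (by omega))
      rw [h p (by omega)]
      exact ih _ _ (by omega) (by omega)
  rcases le_total p.val q.val with e | e
  · exact key (q.val - p.val) p q (by omega) hpq
  · exact (key (p.val - q.val) q p (by omega) hpq.symm).symm

lemma collect {Q : ℕ} (lab : Fin Q → ℕ) (Z W : Fin Q → Prop)
    (h : ∀ p, Z p → W p ∨ (p.val + 1 < Q ∧ lab p = lab (nx p) ∧ Z (nx p))) (p : Fin Q)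
    (hp : Z p) : ∃ q, lab q = lab p ∧ W q := by
  have key : ∀ (k : ℕ) (p : Fin Q), p.val + k = Q → Z p → ∃ q, lab q = lab p ∧ W q := by
    intro k
    induction k with
    | zero => intro p e; have := p.2; omega
    | succ k ih =>
      intro p e hz
      rcases h p hz with h1 | ⟨h1, h2, h3⟩
      · exact ⟨p, rfl, h1⟩
      · have h4 := nx_val p
        obtain ⟨q, e1, e2⟩ := ih (nx p) (by omega) h3
        exact ⟨q, e1.trans h2.symm, e2⟩
  have := p.2
  exact key (Q - p.val) p (by omega) hp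

/-- hidden variables -/
abbrev Hid (d : ℕ) (O : Type) : Type := (Fin (2 ^ d) ⊕ Fin (2 ^ d)) ⊕ (Fin (2 * d + 1) × O)

/-- constraints -/
abbrev Con (n d : ℕ) (O : Type) : Type :=
  (Fin n ⊕ Fin (2 ^ d)) ⊕ (O ⊕ Fin (2 ^ d)) ⊕ (Fin (2 * d) × O)

variable {n d : ℕ} {O : Type}

/-- the third slot of a collecting constraint -/
noncomputable def last (n : ℕ) (β : O → Fin (2 ^ d)) (p : Fin (2 ^ d)) : Fin n ⊕ Hid d O :=
  if h : ∃ o, β o = p then Sum.inr (Sum.inr (Fin.last _, h.choose))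
  else Sum.inr (Sum.inl (Sum.inr p))

/-- scopes -/
noncomputable def scp (s : Fin n → Fin (2 ^ d)) (α β : O → Fin (2 ^ d)) :
    Con n d O → Fin 3 → Fin n ⊕ Hid d O
  | Sum.inl (Sum.inl i) => ![Sum.inr (Sum.inl (Sum.inl (s i))), Sum.inl i, Sum.inl i]
  | Sum.inl (Sum.inr p) => ![Sum.inr (Sum.inl (Sum.inl p)), Sum.inr (Sum.inl (Sum.inl (nx p))),
      Sum.inr (Sum.inl (Sum.inl p))]
  | Sum.inr (Sum.inl (Sum.inl o)) => ![Sum.inr (Sum.inr (0, o)),
      Sum.inr (Sum.inl (Sum.inl (α o))), Sum.inr (Sum.inr (0, o))]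
  | Sum.inr (Sum.inl (Sum.inr p)) => ![Sum.inr (Sum.inl (Sum.inr p)),
      Sum.inr (Sum.inl (Sum.inr (nx p))), last n β p]
  | Sum.inr (Sum.inr q) => ![Sum.inr (Sum.inr (q.1.castSucc, q.2)),
      Sum.inr (Sum.inr (q.1.succ, q.2)), Sum.inr (Sum.inr (q.1.castSucc, q.2))]

/-- relations -/
def rel (lab lab' : Fin (2 ^ d) → ℕ) (real : ℕ → Prop) (β : O → Fin (2 ^ d)) (sg : O → Bool) :
    Con n d O → (Fin 3 → Bool) → Prop
  | Sum.inl (Sum.inl _), v => v 0 = v 1
  | Sum.inl (Sum.inr p), v => lab p = lab (nx p) → v 0 = v 1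
  | Sum.inr (Sum.inl (Sum.inl o)), v => v 0 = true → v 1 = sg o
  | Sum.inr (Sum.inl (Sum.inr p)), v =>
      (v 0 = true → ((∃ o, β o = p) ∧ v 2 = true) ∨
        (p.val + 1 < 2 ^ d ∧ lab' p = lab' (nx p) ∧ v 1 = true)) ∧
      (real (lab' p) → (∀ q, q < p → lab' q ≠ lab' p) → v 0 = true)
  | Sum.inr (Sum.inr _), v => v 1 = true → v 0 = true

/-- positions of the variables -/
def pv (s : Fin n → Fin (2 ^ d)) (path : ℕ → O → ℕ) : Fin n ⊕ Hid d O → ℕ
  | Sum.inl i => (s i).val
  | Sum.inr (Sum.inl (Sum.inl p)) => p.val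
  | Sum.inr (Sum.inl (Sum.inr p)) => p.val
  | Sum.inr (Sum.inr q) => path q.1.val q.2

/-- positions of the constraints -/
def pk (s : Fin n → Fin (2 ^ d)) (path : ℕ → O → ℕ) : Con n d O → ℕ
  | Sum.inl (Sum.inl i) => (s i).val
  | Sum.inl (Sum.inr p) => p.val
  | Sum.inr (Sum.inl (Sum.inl o)) => path 0 o
  | Sum.inr (Sum.inl (Sum.inr p)) => p.val
  | Sum.inr (Sum.inr q) => path q.1.val q.2

/-- tags of the variables -/
def tv : Fin n ⊕ Hid d O → Fin (2 * d + 1) ⊕ Fin 4
  | Sum.inl _ => Sum.inr 0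
  | Sum.inr (Sum.inl (Sum.inl _)) => Sum.inr 1
  | Sum.inr (Sum.inl (Sum.inr _)) => Sum.inr 2
  | Sum.inr (Sum.inr q) => Sum.inl q.1

/-- tags of the constraints -/
def tk : Con n d O → Fin (2 * d + 1) ⊕ Fin 4
  | Sum.inl (Sum.inl _) => Sum.inr 0
  | Sum.inl (Sum.inr _) => Sum.inr 1
  | Sum.inr (Sum.inl (Sum.inl _)) => Sum.inr 2
  | Sum.inr (Sum.inl (Sum.inr _)) => Sum.inr 3
  | Sum.inr (Sum.inr q) => Sum.inl q.1.castSucc

lemma pv_last (s : Fin n → Fin (2 ^ d)) (path : ℕ → O → ℕ) (β : O → Fin (2 ^ d))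
    (h : path (2 * d) = fun o => (β o).val) (p : Fin (2 ^ d)) :
    pv s path (last n β p) = p.val := by
  unfold last
  split_ifs with h1
  · show path (2 * d) h1.choose = p.val
    rw [h]
    exact congrArg Fin.val h1.choose_spec
  · rfl

lemma last_eq (β : O → Fin (2 ^ d)) (hβ : Function.Injective β) (o : O) :
    last n β (β o) = Sum.inr (Sum.inr (Fin.last _, o)) := by
  have h : ∃ o', β o' = β o := ⟨o, rfl⟩
  unfold last
  rw [dif_pos h, hβ h.choose_spec]

end Loc

open Loc in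
theorem loc (hR : RouteStmt) (hL : LineStmt) : LocStmt := by
  intro n d Y K O _ _ _ cl sc sg h1 h2
  obtain ⟨lab, α, st, ix, hm, hα, hix, hl1, hl2⟩ :=
    hL O (Fin n ⊕ Y) sc (2 ^ d) (by simpa using h1)
  obtain ⟨lab', β, st', ix', hm', hβ, hix', hl1', hl2'⟩ := hL O K cl (2 ^ d) h2
  obtain ⟨path, p0, p1, pi, pl, pn⟩ := hR d O (fun o => (α o).val) (fun o => (β o).val)
    (Fin.val_injective.comp hα) (Fin.val_injective.comp hβ) (fun o => (α o).2) fun o => (β o).2
  have hs : ∀ i i' : Fin n, st (Sum.inl i) = st (Sum.inl i') → i = i' := fun i i' h => by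
    have := hl2 (Sum.inl i)
    rw [h, hl2] at this
    exact (Sum.inl.inj (hix this)).symm
  refine ⟨Hid d O, Con n d O, inferInstance, inferInstance,
    scp (fun i => st (Sum.inl i)) α β, rel lab lab' (fun m => ∃ κ, m = ix' κ) β sg,
    pv (fun i => st (Sum.inl i)) path, pk (fun i => st (Sum.inl i)) path, tv, tk,
    ?_, ?_, ?_, ?_, ?_, ?_, fun z => ⟨?_, ?_⟩⟩
  · rintro (i | (p | p) | q)
    exacts [Fin.is_lt _, p.2, p.2, pl _ _]
  · rintro ((i | p) | (o | p) | q)
    exacts [Fin.is_lt _, p.2, pl _ _, p.2, pl _ _]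
  · rintro (i | (p | p) | ⟨l, o⟩) (i' | (p' | p') | ⟨l', o'⟩) e1 e2 <;>
      simp only [tv, reduceCtorEq, Sum.inr.injEq, Sum.inl.injEq, Fin.reduceEq] at e2
    · rw [hs i i' (Fin.ext e1)]
    · rw [show p = p' from Fin.ext e1]
    · rw [show p = p' from Fin.ext e1]
    · subst e2
      rw [show o = o' from pi _ e1]
  · rintro ((i | p) | (o | p) | ⟨l, o⟩) ((i' | p') | (o' | p') | ⟨l', o'⟩) e1 e2 <;>
      simp only [tk, reduceCtorEq, Sum.inr.injEq, Sum.inl.injEq, Fin.reduceEq,
        Fin.castSucc_inj] at e2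
    · rw [hs i i' (Fin.ext e1)]
    · rw [show p = p' from Fin.ext e1]
    · rw [pi _ e1]
    · rw [show p = p' from Fin.ext e1]
    · subst e2
      rw [show o = o' from pi _ e1]
  · rintro k ((i | p) | (o | p) | ⟨l, o⟩) ((i' | p') | (o' | p') | ⟨l', o'⟩) e1 e2 <;>
      simp only [tk, reduceCtorEq, Sum.inr.injEq, Sum.inl.injEq, Fin.reduceEq,
        Fin.castSucc_inj] at e2
    · fin_cases k <;> simp [scp] at e1
      exacts [by rw [hs i i' e1], by rw [e1], by rw [e1]]
    · fin_cases k <;> simp [scp] at e1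
      exacts [by rw [e1], by rw [nx_inj e1], by rw [e1]]
    · fin_cases k <;> simp [scp] at e1
      exacts [by rw [e1], by rw [hα e1], by rw [e1]]
    · fin_cases k <;> simp [scp] at e1
      · rw [e1]
      · rw [nx_inj e1]
      · have e3 := pv_last (fun i => st (Sum.inl i)) path β p1 p
        rw [e1, pv_last _ path β p1] at e3
        rw [show p' = p from Fin.ext e3]
    · subst e2
      fin_cases k <;> simp [scp] at e1 <;> rw [e1]
  · rintro ((i | p) | (o | p) | ⟨l, o⟩) k <;> fin_cases k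
    · exact near_refl _
    · exact near_refl _
    · exact near_refl _
    · exact near_refl _
    · exact nx_near p
    · exact near_refl _
    · exact near_refl _
    · show Near (α o).val (path 0 o)
      rw [p0]
      exact near_refl _
    · exact near_refl _
    · exact near_refl _
    · exact nx_near p
    · show Near (pv _ path (last n β p)) p.val
      rw [pv_last _ path β p1]
      exact near_refl _
    · exact near_refl _
    · exact near_symm (pn l.val o)
    · exact near_refl _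
  · rintro ⟨y, hy⟩
    have hA : ∀ i, y (Sum.inl (Sum.inl (st (Sum.inl i)))) = z i := fun i =>
      hy (Sum.inl (Sum.inl i))
    have hB := copy lab hm (fun p => y (Sum.inl (Sum.inl p))) fun p => hy (Sum.inl (Sum.inr p))
    have hC : ∀ o, y (Sum.inr (0, o)) = true → y (Sum.inl (Sum.inl (α o))) = sg o := fun o =>
      hy (Sum.inr (Sum.inl (Sum.inl o)))
    have hD : ∀ o (l : Fin (2 * d + 1)), y (Sum.inr (l, o)) = true →
        y (Sum.inr (0, o)) = true := fun o l => by
      induction l using Fin.induction with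
      | zero => exact id
      | succ l ih => exact fun h => ih (hy (Sum.inr (Sum.inr (l, o))) h)
    have hE := collect lab' (fun p => y (Sum.inl (Sum.inr p)) = true)
      (fun p => ∃ o, β o = p ∧ y (Sum.inr (Fin.last _, o)) = true) fun p hp => by
        rcases (hy (Sum.inr (Sum.inl (Sum.inr p)))).1 hp with ⟨⟨o, rfl⟩, e⟩ | e
        · have e1 : Sum.elim z y (last n β (β o)) = true := e
          rw [last_eq β hβ] at e1
          exact Or.inl ⟨o, rfl, e1⟩
        · exact Or.inr e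
    refine ⟨fun v => y (Sum.inl (Sum.inl (st (Sum.inr v)))), fun κ => ?_⟩
    obtain ⟨p, hp, hmin⟩ := (univ.filter fun p => lab' p = ix' κ).exists_min_image id
      ⟨st' κ, by simp [hl2']⟩
    have hp1 := (mem_filter.1 hp).2
    have hz := (hy (Sum.inr (Sum.inl (Sum.inr p)))).2 ⟨κ, hp1⟩ fun q hq e =>
      absurd (hmin q (mem_filter.2 ⟨mem_univ _, e.trans hp1⟩)) (not_le.2 hq)
    obtain ⟨q, e1, o, rfl, e2⟩ := hE p hz
    refine ⟨o, hix' (by rw [← hl1', e1, hp1]), ?_⟩
    have e3 := hB (α o) (st (sc o)) (by rw [hl1, hl2])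
    rw [← hC o (hD o _ e2), e3]
    cases sc o with
    | inl i => exact (hA i).symm
    | inr v => rfl
  · rintro ⟨y, hy⟩
    have hx : ∀ p r, lab p = ix r →
        decide (∃ r, lab p = ix r ∧ Sum.elim z y r = true) = Sum.elim z y r := fun p r e => by
      rw [Bool.eq_iff_iff, decide_eq_true_eq]
      refine ⟨fun ⟨r', e1, e2⟩ => ?_, fun h => ⟨r, e, h⟩⟩
      rwa [hix (e.symm.trans e1)]
    refine ⟨Sum.elim (Sum.elim (fun p => decide (∃ r, lab p = ix r ∧ Sum.elim z y r = true))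
      fun p => decide (∃ o, p ≤ β o ∧ lab' (β o) = lab' p ∧ Sum.elim z y (sc o) = sg o))
      fun q => decide (Sum.elim z y (sc q.2) = sg q.2), ?_⟩
    rintro ((i | p) | (o | p) | ⟨l, o⟩)
    · exact hx _ _ (hl2 (Sum.inl i))
    · intro e
      show decide (∃ r, lab p = ix r ∧ _) = decide (∃ r, lab (nx p) = ix r ∧ _)
      rw [e]
    · intro e
      exact (hx _ _ (hl1 o)).trans (of_decide_eq_true e)
    · refine ⟨fun e => ?_, fun ⟨κ, e1⟩ e2 => ?_⟩
      · obtain ⟨o, e1, e2, e3⟩ := of_decide_eq_true e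
        rcases e1.eq_or_lt with rfl | e4
        · refine Or.inl ⟨⟨o, rfl⟩, ?_⟩
          show Sum.elim z _ (last n β (β o)) = true
          rw [last_eq β hβ]
          exact decide_eq_true e3
        · have e5 := nx_val p
          have e6 := (β o).2
          have e7 := Fin.lt_def.1 e4
          have e8 : nx p ≤ β o := Fin.le_def.2 (by omega)
          have e9 : lab' p ≤ lab' (nx p) := hm' (Fin.le_def.2 (by omega))
          have e10 := hm' e8
          exact Or.inr ⟨by omega, by omega, decide_eq_true ⟨o, e8, by omega, e3⟩⟩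
      · obtain ⟨o, rfl, e3⟩ := hy κ
        have e4 : lab' (β o) = lab' p := (hl1' o).trans e1.symm
        exact decide_eq_true ⟨o, not_lt.1 fun h => e2 _ h e4, e4, e3⟩
    · exact id

end Pool.Agent.MP_6b3410_lc.X91
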