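import Pool.Agent.MP_6b3410_lc.X91.Spec

/-!
Every formula is equivalent to a local system of ternary constraints.
-/

namespace Pool.Agent.MP_6b3410_lc.X91

open Classical

namespace Loc45

def prev {Q : ℕ} (i : Fin Q) : Fin Q :=
  if i.val = 0 then ⟨Q - 1, by have := i.2; omega⟩ else ⟨i.val - 1, by have := i.2; omega⟩

theorem prev_val {Q : ℕ} (i : Fin Q) : (prev i).val = if i.val = 0 then Q - 1 else i.val - 1 := by
  unfold prev
  split_ifs <;> rfl

theorem prev_inj {Q : ℕ} {i j : Fin Q} (h : prev i = prev j) : i = j := by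
  have h1 := congrArg Fin.val h
  rw [prev_val, prev_val] at h1
  have := i.2
  have := j.2
  apply Fin.ext
  split_ifs at h1 <;> omega

theorem near_self (x : ℕ) : Near x x := ⟨0, Or.inr (Or.inr (Or.inl rfl))⟩

theorem near_symm {x y : ℕ} (h : Near x y) : Near y x := by
  obtain ⟨a, h⟩ := h
  exact ⟨a, by omega⟩

theorem near_prev {d : ℕ} (i : Fin (2 ^ d)) : Near (prev i).val i.val := by
  rw [prev_val]
  have := i.2
  split_ifs with h
  · exact ⟨d, by omega⟩
  · exact ⟨0, by omega⟩

theorem line_eq {Q : ℕ} {lab : Fin Q → ℕ} (hm : Monotone lab) (f : Fin Q → Bool)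
    (h : ∀ i : Fin Q, i.val ≠ 0 → lab (prev i) = lab i → f i = f (prev i)) :
    ∀ i j, lab i = lab j → f i = f j := by
  have key : ∀ (m : ℕ) (i j : Fin Q), j.val = i.val + m → lab i = lab j → f i = f j := by
    intro m
    induction m with
    | zero => intro i j e _; rw [show i = j from Fin.ext (by omega)]
    | succ m ih =>
      intro i j e hl
      have e1 : (prev j).val = i.val + m := by rw [prev_val, if_neg (by omega)]; omega
      have a1 : lab i ≤ lab (prev j) := hm (Fin.le_def.2 (by omega))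
      have a2 : lab (prev j) ≤ lab j := hm (Fin.le_def.2 (by omega))
      rw [h j (by omega) (by omega)]
      exact ih i _ e1 (by omega)
  intro i j hl
  rcases le_total i.val j.val with g | g
  · exact key (j.val - i.val) i j (by omega) hl
  · exact (key (i.val - j.val) j i (by omega) hl.symm).symm

end Loc45

open Loc45 in
theorem loc45 (h1 : RouteStmt) (h2 : LineStmt) : LocStmt := by
  intro n d Y K O _ _ _ cl sc sg hV hK
  obtain ⟨lab, α, st, ix, m1, αi, ixi, l1, l2⟩ := h2 O (Fin n ⊕ Y) sc (2 ^ d) (by simpa using hV)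
  obtain ⟨lab', β, st', ix', m2, βi, ixi', k1, k2⟩ := h2 O K cl (2 ^ d) hK
  obtain ⟨path, p0, p1, pi, pl, pn⟩ := h1 d O (fun o => (α o).val) (fun o => (β o).val)
    (Fin.val_injective.comp αi) (Fin.val_injective.comp βi) (fun o => (α o).2) fun o => (β o).2
  have sti : Function.Injective st := fun v v' e => ixi (by rw [← l2, ← l2, e])
  let pa : ℕ → O → Fin (2 ^ d) := fun l o => ⟨path l o, pl l o⟩
  have pa0 : ∀ o, pa 0 o = α o := fun o => Fin.ext (congrFun p0 o)
  have pa1 : ∀ o, pa (2 * d) o = β o := fun o => Fin.ext (congrFun p1 o)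
  have pai : ∀ l o o', pa l o = pa l o' → o = o' := fun l o o' e => pi l (congrArg Fin.val e)
  let Y' := (Fin (2 * d + 1) × Fin (2 ^ d)) ⊕ Fin (2 ^ d)
  let ι := (Fin (2 ^ d) ⊕ Fin n) ⊕ (Fin (2 * d) × O) ⊕ Fin (2 ^ d)
  let w : Fin (2 * d + 1) → Fin (2 ^ d) → Fin n ⊕ Y' := fun l i => Sum.inr (Sum.inl (l, i))
  let c : Fin (2 ^ d) → Fin n ⊕ Y' := fun i => Sum.inr (Sum.inr i)
  let sc' : ι → Fin 3 → Fin n ⊕ Y' := fun t => match t with
    | Sum.inl (Sum.inl i) => ![w 0 i, w 0 (prev i), w 0 i]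
    | Sum.inl (Sum.inr v) => ![Sum.inl v, w 0 (st (Sum.inl v)), Sum.inl v]
    | Sum.inr (Sum.inl q) => ![w q.1.castSucc (pa q.1 q.2), w q.1.succ (pa (q.1 + 1) q.2),
        w q.1.castSucc (pa q.1 q.2)]
    | Sum.inr (Sum.inr i) => ![c (prev i), w (Fin.last _) i, c i]
  let Rel : ι → (Fin 3 → Bool) → Prop := fun t b => match t with
    | Sum.inl (Sum.inl i) => i.val ≠ 0 → lab (prev i) = lab i → b 0 = b 1
    | Sum.inl (Sum.inr _) => b 0 = b 1
    | Sum.inr (Sum.inl _) => b 0 = b 1
    | Sum.inr (Sum.inr i) =>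
        (b 2 = true → (i.val ≠ 0 ∧ lab' (prev i) = lab' i ∧ b 0 = true) ∨
          ∃ o, β o = i ∧ b 1 = sg o) ∧
        ((∀ j, lab' j = lab' i → j ≤ i) → (∃ κ, ix' κ = lab' i) → b 2 = true)
  let pv : Fin n ⊕ Y' → ℕ := fun r => match r with
    | Sum.inl v => (st (Sum.inl v)).val
    | Sum.inr (Sum.inl q) => q.2.val
    | Sum.inr (Sum.inr i) => i.val
  let pk : ι → ℕ := fun t => match t with
    | Sum.inl (Sum.inl i) => i.val
    | Sum.inl (Sum.inr v) => (st (Sum.inl v)).val
    | Sum.inr (Sum.inl q) => path q.1 q.2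
    | Sum.inr (Sum.inr i) => i.val
  let tv : Fin n ⊕ Y' → Fin (2 * d + 1) ⊕ Fin 4 := fun r => match r with
    | Sum.inl _ => Sum.inr 0
    | Sum.inr (Sum.inl q) => Sum.inl q.1
    | Sum.inr (Sum.inr _) => Sum.inr 1
  let tk : ι → Fin (2 * d + 1) ⊕ Fin 4 := fun t => match t with
    | Sum.inl (Sum.inl _) => Sum.inr 0
    | Sum.inl (Sum.inr _) => Sum.inr 1
    | Sum.inr (Sum.inl q) => Sum.inl q.1.castSucc
    | Sum.inr (Sum.inr _) => Sum.inr 2
  have wi : ∀ l l' i i', w l i = w l' i' → i = i' := fun l l' i i' e =>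
    congrArg Prod.snd (Sum.inl.inj (Sum.inr.inj e))
  have ci : ∀ i i', c i = c i' → i = i' := fun i i' e => Sum.inr.inj (Sum.inr.inj e)
  refine ⟨Y', ι, inferInstance, inferInstance, sc', Rel, pv, pk, tv, tk, ?_, ?_, ?_, ?_, ?_, ?_,
    fun z => ⟨?_, ?_⟩⟩
  · rintro (v | q | i)
    · exact Fin.is_lt _
    · exact Fin.is_lt _
    · exact Fin.is_lt _
  · rintro ((i | v) | q | i)
    · exact Fin.is_lt _
    · exact Fin.is_lt _
    · exact pl _ _
    · exact Fin.is_lt _
  · rintro (v | ⟨l, i⟩ | i) (v' | ⟨l', i'⟩ | i') e1 e2 <;>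
      first
      | (simp [tv] at e2; done)
      | exact congrArg Sum.inl (Sum.inl.inj (sti (Fin.ext e1)))
      | (obtain rfl : l = l' := Sum.inl.inj e2
         obtain rfl : i = i' := Fin.ext e1
         rfl)
      | (obtain rfl : i = i' := Fin.ext e1
         rfl)
  · rintro ((i | v) | ⟨l, o⟩ | i) ((i' | v') | ⟨l', o'⟩ | i') e1 e2 <;>
      first
      | (simp [tk] at e2; done)
      | (obtain rfl : v = v' := Sum.inl.inj (sti (Fin.ext e1))
         rfl)
      | (obtain rfl : l = l' := Fin.castSucc_injective _ (Sum.inl.inj e2)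
         obtain rfl : o = o' := pi _ e1
         rfl)
      | (obtain rfl : i = i' := Fin.ext e1
         rfl)
  · rintro k ((i | v) | ⟨l, o⟩ | i) ((i' | v') | ⟨l', o'⟩ | i') e1 e2 <;>
      first
      | (simp [tk] at e2; done)
      | skip
    · obtain rfl : i = i' := by
        fin_cases k
        · exact wi _ _ _ _ e1
        · exact prev_inj (wi _ _ _ _ e1)
        · exact wi _ _ _ _ e1
      rfl
    · obtain rfl : v = v' := by
        fin_cases k
        · exact Sum.inl.inj e1
        · exact Sum.inl.inj (sti (wi _ _ _ _ e1))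
        · exact Sum.inl.inj e1
      rfl
    · obtain rfl : l = l' := Fin.castSucc_injective _ (Sum.inl.inj e2)
      obtain rfl : o = o' := by
        fin_cases k
        · exact pai _ _ _ (wi _ _ _ _ e1)
        · exact pai _ _ _ (wi _ _ _ _ e1)
        · exact pai _ _ _ (wi _ _ _ _ e1)
      rfl
    · obtain rfl : i = i' := by
        fin_cases k
        · exact prev_inj (ci _ _ e1)
        · exact wi _ _ _ _ e1
        · exact ci _ _ e1
      rfl
  · rintro ((i | v) | ⟨l, o⟩ | i) k <;> fin_cases k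
    · exact near_self _
    · exact near_prev i
    · exact near_self _
    · exact near_self _
    · exact near_self _
    · exact near_self _
    · exact near_self _
    · exact near_symm (pn l o)
    · exact near_self _
    · exact near_prev i
    · exact near_self _
    · exact near_self _
  · rintro ⟨y', hy⟩
    let W : Fin (2 * d + 1) → Fin (2 ^ d) → Bool := fun l i => y' (Sum.inl (l, i))
    let C : Fin (2 ^ d) → Bool := fun i => y' (Sum.inr i)
    have a1 : ∀ i j, lab i = lab j → W 0 i = W 0 j :=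
      line_eq m1 (W 0) fun i => hy (Sum.inl (Sum.inl i))
    refine ⟨fun u => W 0 (st (Sum.inr u)), fun κ => ?_⟩
    have a2 : ∀ v, Sum.elim z (fun u => W 0 (st (Sum.inr u))) v = W 0 (st v) := by
      rintro (v | u)
      · exact hy (Sum.inl (Sum.inr v))
      · rfl
    have a3 : ∀ (l : Fin (2 * d + 1)) (o : O), W l (pa l o) = W 0 (st (sc o)) := by
      intro l o
      induction l using Fin.induction with
      | zero => exact (congrArg (W 0) (pa0 o)).trans (a1 _ _ (by rw [l1, l2]))
      | succ l ih => exact (hy (Sum.inr (Sum.inl (l, o)))).symm.trans ih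
    have a4 : ∀ (m : ℕ) (i : Fin (2 ^ d)), i.val = m → C i = true →
        ∃ o, lab' (β o) = lab' i ∧ W 0 (st (sc o)) = sg o := by
      intro m
      induction m using Nat.strong_induction_on with
      | _ m ih =>
        intro i e hc
        rcases (hy (Sum.inr (Sum.inr i))).1 hc with ⟨b1, b2, b3⟩ | ⟨o, b1, b2⟩
        · obtain ⟨o, b4, b5⟩ := ih (prev i).val (by rw [prev_val, if_neg b1]; omega) _ rfl b3
          exact ⟨o, b4.trans b2, b5⟩
        · refine ⟨o, by rw [b1], (a3 (Fin.last _) o).symm.trans ?_⟩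
          have e1 : pa (Fin.last (2 * d)) o = i := (pa1 o).trans b1
          rw [e1]
          exact b2
    obtain ⟨i, hi, im⟩ := Finset.exists_max_image
      (Finset.univ.filter fun i => lab' i = ix' κ) id ⟨st' κ, by simp [k2]⟩
    have hi' : lab' i = ix' κ := (Finset.mem_filter.1 hi).2
    obtain ⟨o, b1, b2⟩ := a4 _ i rfl ((hy (Sum.inr (Sum.inr i))).2
      (fun j hj => im j (Finset.mem_filter.2 ⟨Finset.mem_univ _, hj.trans hi'⟩)) ⟨κ, hi'.symm⟩)
    exact ⟨o, ixi' (by rw [← k1, b1, hi']), (a2 _).trans b2⟩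
  · rintro ⟨y, hy⟩
    let W : Fin (2 * d + 1) → Fin (2 ^ d) → Bool := fun l i =>
      if l.val = 0 then decide (∃ v, ix v = lab i ∧ Sum.elim z y v = true)
      else decide (∃ o, pa l o = i ∧ Sum.elim z y (sc o) = true)
    let C : Fin (2 ^ d) → Bool := fun i =>
      decide (∃ o, lab' (β o) = lab' i ∧ β o ≤ i ∧ Sum.elim z y (sc o) = sg o)
    have a0 : ∀ i v, ix v = lab i → W 0 i = Sum.elim z y v := by
      intro i v e
      simp only [W, Fin.val_zero, if_true]
      rw [Bool.eq_iff_iff, decide_eq_true_iff]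
      exact ⟨fun ⟨v', b1, b2⟩ => ixi (b1.trans e.symm) ▸ b2, fun b => ⟨v, e, b⟩⟩
    have a3 : ∀ (l : Fin (2 * d + 1)) (o : O), W l (pa l o) = Sum.elim z y (sc o) := by
      intro l o
      by_cases h : l.val = 0
      · obtain rfl : l = 0 := Fin.ext h
        exact a0 _ _ ((l1 o).symm.trans (congrArg lab (pa0 o).symm))
      · simp only [W, if_neg h]
        rw [Bool.eq_iff_iff, decide_eq_true_iff]
        exact ⟨fun ⟨o', b1, b2⟩ => pai _ _ _ b1 ▸ b2, fun b => ⟨o, rfl, b⟩⟩
    refine ⟨Sum.elim (fun q => W q.1 q.2) C, ?_⟩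
    rintro ((i | v) | ⟨l, o⟩ | i)
    · intro _ e
      show W 0 i = W 0 (prev i)
      simp only [W, Fin.val_zero, if_true, e]
    · exact (a0 _ (Sum.inl v) (l2 _).symm).symm
    · exact (a3 l.castSucc o).trans (a3 l.succ o).symm
    · refine ⟨fun hc => ?_, fun hl ⟨κ, hκ⟩ => ?_⟩
      · obtain ⟨o, b1, b2, b3⟩ := of_decide_eq_true (show C i = true from hc)
        by_cases h : β o = i
        · refine Or.inr ⟨o, h, ?_⟩
          have e1 : pa (Fin.last (2 * d)) o = i := (pa1 o).trans h
          have e2 := a3 (Fin.last _) o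
          rw [e1] at e2
          exact e2.trans b3
        · have b4 : (β o).val < i.val := lt_of_le_of_ne b2 fun e => h (Fin.ext e)
          have e1 : (prev i).val = i.val - 1 := by rw [prev_val, if_neg (by omega)]
          have g1 : lab' (β o) ≤ lab' (prev i) := m2 (Fin.le_def.2 (by omega))
          have g2 : lab' (prev i) ≤ lab' i := m2 (Fin.le_def.2 (by omega))
          exact Or.inl ⟨by omega, by omega,
            decide_eq_true ⟨o, by omega, Fin.le_def.2 (by omega), b3⟩⟩
      · obtain ⟨o, b1, b2⟩ := hy κ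
        have e : lab' (β o) = lab' i := by rw [k1, b1, hκ]
        exact decide_eq_true ⟨o, e, hl _ e, b2⟩

end Pool.Agent.MP_6b3410_lc.X91
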