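import Mathlib
import Pool.Agent.MP_6b3410_lc.X91.Spec
import Pool.Agent.MP_6b3410_lc.N91.Spec

/-!
The bound inside the explicit host graph for circuits with few non-monotone gates.
-/

open Finset

namespace Pool.Agent.MP_6b3410_lc.X91

open Classical Pool.Agent.MP_6b3410_lc.H5 Pool.Agent.MP_6b3410_lc.H19 Pool.Agent.MP_6b3410_lc.H91

theorem proj4 (hLoc : LocStmt) (hCsp : CspStmt) (b n v m M P d : ℕ) (N : Fin n → Finset (Fin v))
    (a : Fin n → Fin v → Fin m) (hb : 1 ≤ b) (hn : 1 ≤ n) (hN : ∀ i, (N i).card ≤ 12)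
    (hvm : v * m ≤ n) (hv : v ≤ n) (hM : 20 * (b * n) ≤ 2 ^ d) (hP : 2 ^ d ≤ P) (g : Fin M → ℕ)
    (hg : ∀ i, g i < P)
    (hf : ∀ p, p < P →
      9 * (24 * (2 * d + 1 + 4 + 1) + 2) ^ 2 ≤ (univ.filter fun i => g i = p).card) :
    ∃ π : H19.Edge M → (Fin b × Fin n) ⊕ Bool,
      (univ.filter fun e => π e ≠ Sum.inr false).card ≤ 3 * M ∧
      (∀ e, π e ≠ Sum.inr false → NearC P (g e.1.1) (g e.1.2)) ∧
      ∀ w : Fin b × Fin n → Bool,
        H19.Ham (N91.sub π w) ↔ ∃ γ x, ∀ i, Hit N a i x → w (γ, i) = true := by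
  have hO : Fintype.card (Σ i : Fin n, {u // u ∈ N i}) ≤ 12 * n := by
    rw [Fintype.card_sigma]
    refine (sum_le_card_nsmul _ _ 12 fun i _ => ?_).trans (by simp [mul_comm])
    simpa using hN i
  have hO' : b * Fintype.card (Σ i : Fin n, {u // u ∈ N i}) ≤ 12 * (b * n) :=
    (Nat.mul_le_mul_left b hO).trans (le_of_eq (by ring))
  have h1 : b ≤ b * n := Nat.le_mul_of_pos_right b hn
  have h2 : n ≤ b * n := Nat.le_mul_of_pos_left n hb
  obtain ⟨q⟩ : Nonempty (Fin b × Fin n ≃ Fin (b * n)) := ⟨finProdFinEquiv⟩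
  obtain ⟨Y', ι, _, _, sc', Rel, pv, pk, tv, tk, a1, a2, a3, a4, a5, a6, a7⟩ :=
    hLoc (b * n) d ((Fin v × Fin m) ⊕ Fin b) ((Fin v ⊕ Unit) ⊕ (Fin b × Fin n))
    (((Fin v × Fin m) ⊕ Fin b) ⊕ ((Fin b × Fin n) ⊕ (Fin b × Fin n)) ⊕
      (Fin b × Σ i : Fin n, {u // u ∈ N i}))
    (Sum.elim (Sum.elim (fun p => Sum.inl (Sum.inl p.1)) fun _ => Sum.inl (Sum.inr ()))
      (Sum.elim (Sum.elim Sum.inr Sum.inr) fun p => Sum.inr (p.1, p.2.1)))
    (Sum.elim Sum.inr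
      (Sum.elim (Sum.elim (fun p => Sum.inl (q p)) fun p => Sum.inr (Sum.inr p.1))
        fun p => Sum.inr (Sum.inl (p.2.2.1, a p.2.1 p.2.2.1))))
    (Sum.elim (fun _ => true)
      (Sum.elim (Sum.elim (fun _ => true) fun _ => false) fun _ => false)) (by
      simp only [Fintype.card_sum, Fintype.card_prod, Fintype.card_fin]
      omega) (by
      simp only [Fintype.card_sum, Fintype.card_prod, Fintype.card_fin, Fintype.card_unit]
      omega)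
  obtain ⟨π, c1, c3, c2⟩ := hCsp (b * n) M P Y' ι _ sc' Rel pv pk tv tk g (NearC P) (hn.trans h2)
    (fun p => Or.inl ⟨0, Or.inr (Or.inr (Or.inl rfl))⟩)
    (fun p q h => by
      rcases h with ⟨c, h⟩ | h | h
      · exact Or.inl ⟨c, by tauto⟩
      · exact Or.inr (Or.inr ⟨h.2, h.1⟩)
      · exact Or.inr (Or.inl ⟨h.2, h.1⟩))
    (fun p => Or.inl ⟨0, Or.inl rfl⟩) (Or.inr (Or.inl ⟨rfl, rfl⟩))
    (fun r => (a1 r).trans_le hP) (fun t => (a2 t).trans_le hP) hg a3 a4 a5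
    (fun t k => Or.inl (a6 t k)) (by
      simpa only [Fintype.card_sum, Fintype.card_fin] using hf)
  simp only [a7] at c2
  have hne : ∀ e, Sum.map q.symm id (π e) ≠ Sum.inr false ↔ π e ≠ Sum.inr false := fun e => by
    cases π e <;> simp
  refine ⟨fun e => Sum.map q.symm id (π e), ?_, fun e he => c3 e ((hne e).1 he), fun w => ?_⟩
  · refine le_trans (card_le_card fun e he => ?_) c1
    exact mem_filter.2 ⟨mem_univ _, (hne e).1 (mem_filter.1 he).2⟩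
  have hsub : N91.sub (fun e => Sum.map q.symm id (π e)) w =
      fun e => Sum.elim (fun j => w (q.symm j)) id (π e) := by
    funext e
    simp only [N91.sub]
    cases π e <;> rfl
  rw [hsub]
  refine (c2 _).trans ⟨?_, ?_⟩
  · rintro ⟨z, hz, y, hy⟩
    have hx : ∀ u, ∃ c, y (Sum.inl (u, c)) = true := by
      intro u
      obtain ⟨(p | p) | (p | p) | p, e1, e2⟩ := hy (Sum.inl (Sum.inl u)) <;> simp at e1
      subst e1
      exact ⟨p.2, by simpa using e2⟩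
    choose x hx using hx
    obtain ⟨(p | γ) | (p | p) | p, e1, e6⟩ := hy (Sum.inl (Sum.inr ())) <;> simp at e1
    have e3 : y (Sum.inr γ) = true := by simpa using e6
    refine ⟨γ, x, fun i hi => ?_⟩
    obtain ⟨(p | p) | (p | p) | ⟨γ', i', u, hu⟩, e1, e2⟩ := hy (Sum.inr (γ, i)) <;> simp at e1
    · subst e1
      have e7 := hz (q (γ, i)) e2
      rwa [q.symm_apply_apply] at e7
    · subst e1
      simp [e3] at e2
    · obtain ⟨rfl, rfl⟩ := e1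
      have e5 : y (Sum.inl (u, a i' u)) = false := by simpa using e2
      have e4 := hx u
      rw [hi u hu, e5] at e4
      simp at e4
  · rintro ⟨γ, x, hx⟩
    refine ⟨_, fun _ h => h,
      Sum.elim (fun p => decide (x p.1 = p.2)) fun γ' => decide (γ' = γ), ?_⟩
    rintro ((u | u) | ⟨γ', i⟩)
    · exact ⟨Sum.inl (Sum.inl (u, x u)), rfl, by simp⟩
    · exact ⟨Sum.inl (Sum.inr γ), rfl, by simp⟩
    · by_cases hγ : γ' = γ
      · subst hγ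
        by_cases hi : Hit N a i x
        · exact ⟨Sum.inr (Sum.inl (Sum.inl (γ', i))), rfl, by simpa using hx i hi⟩
        · simp only [Hit, Agree, not_forall] at hi
          obtain ⟨u, hu, h⟩ := hi
          exact ⟨Sum.inr (Sum.inr (γ', ⟨i, u, hu⟩)), rfl, by simpa using h⟩
      · exact ⟨Sum.inr (Sum.inl (Sum.inr (γ', i))), rfl, by simpa using hγ⟩

theorem num2 (h : NumStmt) (C M₀ : ℕ) : ∃ C' n₀ : ℕ, ∀ N : ℕ, n₀ ≤ N → ∀ τ : ℕ,
    2 ^ τ * Real.log N ^ C' ≤ N → ∃ P σ d : ℕ, P * 2 ^ σ ≤ N ∧ N < (P + 1) * 2 ^ σ ∧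
    4 * 2 ^ σ ≤ Nat.log 2 N ^ 4 ∧ 2 ^ (d + τ + 2) ≤ P ∧ M₀ ≤ 2 ^ d ∧
    9 * (24 * (2 * (d + τ + 2) + 1 + 4 + 1) + 2) ^ 2 ≤ 2 ^ σ ∧
    5 * Real.exp (N / (2 ^ τ * Real.log N ^ C')) ≤
      Real.exp (((2 ^ d : ℕ) : ℝ) / Real.log ((2 ^ d : ℕ) : ℝ) ^ C) := by
  obtain ⟨C1, n1, h1⟩ := h 0 0
  obtain ⟨n2, h2⟩ := Filter.eventually_atTop.1
    ((Real.tendsto_log_atTop.comp tendsto_natCast_atTop_atTop).eventually_ge_atTop
      ((M₀ : ℝ) + 8))
  refine ⟨C1 + (C + 2), max n1 n2, fun N hN τ hτ => ?_⟩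
  obtain ⟨P, σ, D, b1, b2, b3, b4, -, b6, b7⟩ := h1 N (le_of_max_le_left hN)
  have hL : (M₀ : ℝ) + 8 ≤ Real.log N := h2 N (le_of_max_le_right hN)
  have hM : (0 : ℝ) ≤ M₀ := Nat.cast_nonneg _
  have hDN : ((2 ^ D : ℕ) : ℝ) ≤ N := by
    exact_mod_cast b4.trans ((Nat.le_mul_of_pos_right P (by positivity)).trans b1)
  generalize hΛ : Real.log N = Λ at hL hτ b7
  have hΛ0 : 0 < Λ := by linarith
  have hΛ1 : 1 ≤ Λ := by linarith
  rw [pow_zero, div_one, div_le_iff₀ (by positivity)] at b7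
  have e1 : 2 ^ τ * Λ ^ (C + 2) ≤ ((2 ^ D : ℕ) : ℝ) := by
    refine le_of_mul_le_mul_right ?_ (pow_pos hΛ0 C1)
    calc 2 ^ τ * Λ ^ (C + 2) * Λ ^ C1 = 2 ^ τ * Λ ^ (C1 + (C + 2)) := by ring
      _ ≤ _ := hτ.trans b7
  have e2 : 1 ≤ Λ ^ C := one_le_pow₀ hΛ1
  have e3 : 4 * (M₀ + 8) ≤ Λ ^ 2 := by nlinarith
  have e4 : Λ ^ (C + 2) = Λ ^ C * Λ ^ 2 := pow_add _ _ _
  have e5 : τ + 2 ≤ D := by
    have e6 : ((2 ^ (τ + 2) : ℕ) : ℝ) ≤ ((2 ^ D : ℕ) : ℝ) := by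
      refine le_trans ?_ e1
      push_cast
      rw [pow_add]
      exact mul_le_mul_of_nonneg_left (by nlinarith) (by positivity)
    exact (Nat.pow_le_pow_iff_right (a := 2) (by norm_num)).1 (by exact_mod_cast e6)
  obtain ⟨d, rfl⟩ : ∃ d, D = d + τ + 2 := ⟨D - τ - 2, by omega⟩
  have e7 : ((2 ^ (d + τ + 2) : ℕ) : ℝ) = 2 ^ τ * (4 * ((2 ^ d : ℕ) : ℝ)) := by
    push_cast
    ring
  rw [e7] at e1 b7 hDN
  generalize hX : ((2 ^ d : ℕ) : ℝ) = X at e1 b7 hDN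
  have e8 : Λ ^ C * Λ ^ 2 ≤ 4 * X := e4 ▸ le_of_mul_le_mul_left e1 (by positivity)
  have e9 : (M₀ : ℝ) + 8 ≤ X := by nlinarith
  have e10 : (1 : ℝ) ≤ 2 ^ τ := one_le_pow₀ (by norm_num)
  have e11 : Real.log X ≤ Λ := hΛ ▸ Real.log_le_log (by linarith) (by nlinarith)
  have e12 : 0 < Real.log X := Real.log_pos (by linarith)
  refine ⟨P, σ, d, b1, b2, b3, b4, ?_, b6, ?_⟩
  · have : (M₀ : ℝ) ≤ ((2 ^ d : ℕ) : ℝ) := by rw [hX]; linarith
    exact_mod_cast this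
  rw [hX]
  have f1 : X / Λ ^ C ≤ X / Real.log X ^ C :=
    div_le_div_of_nonneg_left (by linarith) (pow_pos e12 C) (pow_le_pow_left₀ e12.le e11 C)
  have f2 : 8 ≤ X / Λ ^ C := by
    rw [le_div_iff₀ (by positivity)]
    nlinarith
  have f3 : (N : ℝ) / (2 ^ τ * Λ ^ (C1 + (C + 2))) ≤ X / Λ ^ C / 2 := by
    rw [div_div, div_le_div_iff₀ (by positivity) (by positivity)]
    have f4 : 0 < 2 ^ τ * X * Λ ^ C1 * Λ ^ C := by
      have : 0 < X := by linarith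
      positivity
    calc (N : ℝ) * (Λ ^ C * 2) ≤ 2 ^ τ * (4 * X) * Λ ^ C1 * (Λ ^ C * 2) :=
          mul_le_mul_of_nonneg_right b7 (by positivity)
      _ = 2 ^ τ * X * Λ ^ C1 * Λ ^ C * 8 := by ring
      _ ≤ 2 ^ τ * X * Λ ^ C1 * Λ ^ C * Λ ^ 2 := mul_le_mul_of_nonneg_left (by linarith) f4.le
      _ = _ := by ring
  have f5 : (5 : ℝ) ≤ Real.exp 4 := by linarith [Real.add_one_le_exp (4 : ℝ)]
  calc _ ≤ Real.exp 4 * Real.exp (X / Λ ^ C / 2) :=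
        mul_le_mul f5 (Real.exp_le_exp.2 f3) (Real.exp_pos _).le (Real.exp_pos _).le
    _ ≤ _ := by rw [← Real.exp_add]; exact Real.exp_le_exp.2 (by linarith)

theorem glue4 (hC : CircStmt) (hH : HyperStmt) (hP : PatStmt) (hN : ParStmt) (hLoc : LocStmt)
    (hCsp : CspStmt) (hHost : HostStmt) (hNum : NumStmt) (hch : N91.ChainStmt) :
    ∃ C n₀ : ℕ, ∀ n : ℕ, n₀ ≤ n → ∀ τ : ℕ, 2 ^ τ * Real.log n ^ C ≤ n →
      ∃ H : Finset {p : Fin n × Fin n // p.1 < p.2}, H.card ≤ 3 * n ∧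
      (∀ e ∈ H, (∃ k : ℕ, e.1.2.val ≤ e.1.1.val + 2 ^ k + Nat.log 2 n ^ 4 ∧
          e.1.1.val + 2 ^ k ≤ e.1.2.val + Nat.log 2 n ^ 4) ∨
        e.1.1.val + n ≤ e.1.2.val + Nat.log 2 n ^ 4) ∧
      ∀ (s : ℕ) (G : Fin s → Bool × Bool → Bool)
        (a b : Fin s → ({p : Fin n × Fin n // p.1 < p.2} ⊕ Fin s)) (o : Fin s)
        (T : Finset (Fin s)),
        (∀ g j : Fin s, (a g = Sum.inr j → j < g) ∧ (b g = Sum.inr j → j < g)) →
        (∀ g : Fin s, g ∉ T → Monotone (G g)) → T.card ≤ τ →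
        (∀ x : {p : Fin n × Fin n // p.1 < p.2} → Bool, (∀ e, x e = true → e ∈ H) →
          ∀ val : Fin s → Bool,
          (∀ g : Fin s, val g = G g (Sum.elim x val (a g), Sum.elim x val (b g))) →
          (val o = true ↔
            (SimpleGraph.fromRel
              (fun i j : Fin n => ∃ h : i < j, x ⟨(i, j), h⟩ = true)).IsHamiltonian)) →
        Real.exp (n / (2 ^ τ * Real.log n ^ C)) ≤ (s : ℝ) := by
  obtain ⟨C, M₀, hM⟩ := hN
  obtain ⟨C', n₀, hn⟩ := num2 hNum C M₀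
  refine ⟨C', n₀, fun M hMM τ hτ => ?_⟩
  obtain ⟨P, σ, d, b1, b2, b3, b4, b5, b6, b7⟩ := hn M hMM τ hτ
  obtain ⟨g, g1, g2, g3⟩ := hHost M P σ _ (lt_of_lt_of_le (by positivity) b4) b1 b2 b3
  obtain ⟨n, v, t, L, s1, h1, h2, h3, h4, h5, h6, h7, h8, h9, h10, h11, h12, h13, h14⟩ :=
    hM (2 ^ d) b5
  obtain ⟨N, hd, he⟩ := hH n v (cap s1) h1 h3 h7
  obtain ⟨pa, pb, hab⟩ := hP n v (t ^ 10) N (Nat.one_le_pow _ _ h2) hd h6
  have hτ0 : 0 < 2 ^ τ := by positivity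
  obtain ⟨π, hπ1, hπ3, hπ2⟩ := proj4 hLoc hCsp (4 * 2 ^ τ) n v (t ^ 10) M P (d + τ + 2) N pa
    (by omega) (h1.trans h3) hd h4 h3 (by
      calc 20 * (4 * 2 ^ τ * n) = 4 * 2 ^ τ * (20 * n) := by ring
        _ ≤ 4 * 2 ^ τ * 2 ^ d := Nat.mul_le_mul_left _ (by omega)
        _ = _ := by ring)
    b4 g g1 fun p hp => b6.trans (g2 p hp)
  have hok : Ok (Fin (t ^ 10)) N (t : ℝ) L s1 :=
    ⟨by simp, hd, he, h8, by simpa using h9, by simpa using h10, h11, by exact_mod_cast h12,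
      by simpa using (show (256 * n : ℝ) ≤ (t : ℝ) ^ s1 by exact_mod_cast h13),
      by simpa using h1.trans h3⟩
  refine ⟨univ.filter fun e => π e ≠ Sum.inr false, hπ1,
    fun e he => g3 _ _ e.2 (hπ3 e (mem_filter.1 he).2), fun s G a b o T hac hmono hT hF => ?_⟩
  obtain ⟨s', π', G', c, e, o', k1, k2, k3, k4⟩ := hch _ _ _ π
    (fun w => ∃ x, ∀ i, Hit N pa i x → w i = true) s G a b o T hac hmono
    (by
      rintro ⟨x, hx⟩
      obtain ⟨i, hi, -⟩ := hab x x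
      simpa using hx i hi)
    (by
      have := Nat.pow_le_pow_right (n := 2) (by norm_num) hT
      rw [Fintype.card_fin]
      omega)
    fun z val hval => by
      rw [← hπ2 z]
      refine hF _ (fun e he => mem_filter.2 ⟨mem_univ _, fun h => ?_⟩) val hval
      simp [N91.sub, h] at he
  have k5 := hC _ _ _ N t L s1 hok pa pb hab _ π' s' G' c e o' k2 k3 k4
  have k6 : T.card ≤ s := by simpa using card_le_univ T
  have k7 := o.pos
  have k8 : (s' : ℝ) ≤ 5 * s := by exact_mod_cast (by omega : s' ≤ 5 * s)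
  linarith

end Pool.Agent.MP_6b3410_lc.X91
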