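import Mathlib
import Pool.Agent.MP_6b3410_lc.X91.Neg

/-!
The bound for circuits with few non-monotone gates, without a side condition.
-/

open Finset

namespace Pool.Agent.MP_6b3410_lc.X91

open Classical Pool.Agent.MP_6b3410_lc.H91

theorem glue5 (hC : CircStmt) (hH : HyperStmt) (hP : PatStmt) (hN : ParStmt) (hLoc : LocStmt)
    (hCsp : CspStmt) (hHost : HostStmt) (hNum : NumStmt) (hch : N91.ChainStmt) :
    ∃ C n₀ : ℕ, ∀ n : ℕ, n₀ ≤ n → ∀ τ : ℕ,
      ∃ H : Finset {p : Fin n × Fin n // p.1 < p.2}, H.card ≤ 3 * n ∧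
      (∀ e ∈ H, (∃ k : ℕ, e.1.2.val ≤ e.1.1.val + 2 ^ k + Nat.log 2 n ^ 4 ∧
          e.1.1.val + 2 ^ k ≤ e.1.2.val + Nat.log 2 n ^ 4) ∨
        e.1.1.val + n ≤ e.1.2.val + Nat.log 2 n ^ 4) ∧
      ∀ (s : ℕ) (G : Fin s → Bool × Bool → Bool)
        (a b : Fin s → ({p : Fin n × Fin n // p.1 < p.2} ⊕ Fin s)) (o : Fin s)
        (T : Finset (Fin s)),
        (∀ g j : Fin s, (a g = Sum.inr j → j < g) ∧ (b g = Sum.inr j → j < g)) →
        (∀ g : Fin s, g ∉ T → Monotone (G g)) → T.card ≤ τ →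
        (∀ x : {p : Fin n × Fin n // p.1 < p.2} → Bool, (∀ e, x e = true → e ∈ H) →
          ∀ val : Fin s → Bool,
          (∀ g : Fin s, val g = G g (Sum.elim x val (a g), Sum.elim x val (b g))) →
          (val o = true ↔
            (SimpleGraph.fromRel
              (fun i j : Fin n => ∃ h : i < j, x ⟨(i, j), h⟩ = true)).IsHamiltonian)) →
        Real.exp (n / (2 ^ τ * Real.log n ^ C)) ≤ (s : ℝ) := by
  obtain ⟨C, n₀, h⟩ := glue4 hC hH hP hN hLoc hCsp hHost hNum hch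
  have h1 := (Real.isLittleO_pow_log_id_atTop (n := C)).const_mul_left (2 ^ 2)
  have h2 := (h1.bound (c := 1) one_pos).and (Real.tendsto_log_atTop.eventually_ge_atTop 1)
  obtain ⟨n₁, h3⟩ := Filter.eventually_atTop.1 (tendsto_natCast_atTop_atTop.eventually h2)
  refine ⟨C, max n₀ n₁, fun n hn τ => ?_⟩
  obtain ⟨h4, h5⟩ := h3 n (le_of_max_le_right hn)
  simp only [id, Real.norm_eq_abs, one_mul, Nat.abs_cast] at h4
  have h6 := (le_abs_self _).trans h4
  have h7 : 0 < Real.log n ^ C := pow_pos (by linarith) C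
  by_cases hτ : 2 ^ τ * Real.log n ^ C ≤ n
  · exact h n (le_of_max_le_left hn) τ hτ
  obtain ⟨H, a1, a2, a3⟩ := h n (le_of_max_le_left hn) 2 h6
  refine ⟨H, a1, a2, fun s G a b o T hac _ _ hF => ?_⟩
  have hs : 3 ≤ s := by
    by_contra hs
    have e1 := a3 s G a b o univ hac (fun g hg => absurd (mem_univ g) hg)
      (by rw [card_univ, Fintype.card_fin]; omega) hF
    have e2 : Real.exp 1 ≤ Real.exp (n / (2 ^ 2 * Real.log n ^ C)) :=
      Real.exp_le_exp.2 ((one_le_div (by positivity)).2 h6)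
    have e3 : (s : ℝ) ≤ 2 := by exact_mod_cast (by omega : s ≤ 2)
    linarith [Real.exp_one_gt_d9]
  have e4 : Real.exp (n / (2 ^ τ * Real.log n ^ C)) ≤ Real.exp 1 :=
    Real.exp_le_exp.2 ((div_le_one (by positivity)).2 (not_le.1 hτ).le)
  have e5 : (3 : ℝ) ≤ s := by exact_mod_cast hs
  linarith [Real.exp_one_lt_d9]

end Pool.Agent.MP_6b3410_lc.X91
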