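import Pool.Agent.MP_6b3410_lc.X91.Spec

/-!
Row Num: the choice of the block size.
-/

namespace Pool.Agent.MP_6b3410_lc.X91

open Filter

namespace Num

theorem big (c : ℕ) : ∃ l₀ : ℕ, ∀ l ≥ l₀, 2 * l ^ c ≤ 2 ^ l := by
  have h := (tendsto_pow_const_div_const_pow_of_one_lt c (r := 2) one_lt_two).eventually
    (gt_mem_nhds (show (0 : ℝ) < 1 / 2 by norm_num))
  obtain ⟨l₀, h⟩ := eventually_atTop.1 h
  refine ⟨l₀, fun l hl => ?_⟩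
  have h1 := h l hl
  rw [div_lt_div_iff₀ (by positivity) (by positivity)] at h1
  have h2 : (2 : ℝ) * (l : ℝ) ^ c ≤ 2 ^ l := by linarith
  exact_mod_cast h2

theorem last (C N l D : ℕ) (hl : 30000 ≤ l) (h1 : 2 ^ l ≤ N) (h2 : N ≤ 4 * l ^ 3 * D)
    (h3 : 2 ≤ D) (h4 : D ≤ N) :
    (N : ℝ) / Real.log N ^ (C + 4) ≤ (D : ℝ) / Real.log (D : ℝ) ^ C := by
  have D2 : (2 : ℝ) ≤ D := by exact_mod_cast h3
  have DN : (D : ℝ) ≤ N := by exact_mod_cast h4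
  have lD : 0 < Real.log (D : ℝ) := Real.log_pos (by linarith)
  have lN : Real.log (D : ℝ) ≤ Real.log N := Real.log_le_log (by linarith) DN
  have a1 : (l : ℝ) * Real.log 2 ≤ Real.log N := by
    rw [← Real.log_pow]
    exact Real.log_le_log (by positivity) (by exact_mod_cast h1)
  have a2 := Real.log_two_gt_d9
  have a3 : (30000 : ℝ) ≤ l := by exact_mod_cast hl
  have a4 : (N : ℝ) ≤ 4 * (l : ℝ) ^ 3 * D := by exact_mod_cast h2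
  obtain ⟨L, hL⟩ : ∃ L, L = Real.log N := ⟨_, rfl⟩
  rw [← hL] at lN a1 ⊢
  have a5 : (l : ℝ) ≤ 2 * L := by nlinarith
  have a6 : (l : ℝ) ^ 3 ≤ (2 * L) ^ 3 := pow_le_pow_left₀ (by positivity) a5 3
  have L0 : 0 < L := by linarith
  have a7 : 4 * (l : ℝ) ^ 3 ≤ L ^ 4 := by
    have : 32 * L ^ 3 ≤ L * L ^ 3 := mul_le_mul_of_nonneg_right (by linarith) (by positivity)
    nlinarith
  have a8 : (N : ℝ) ≤ L ^ 4 * D := a4.trans (mul_le_mul_of_nonneg_right a7 (by positivity))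
  have a9 : Real.log (D : ℝ) ^ C ≤ L ^ C := pow_le_pow_left₀ lD.le lN C
  rw [div_le_div_iff₀ (by positivity) (by positivity)]
  calc (N : ℝ) * Real.log (D : ℝ) ^ C ≤ L ^ 4 * D * L ^ C :=
        mul_le_mul a8 a9 (by positivity) (by positivity)
    _ = D * L ^ (C + 4) := by ring

end Num

theorem num : NumStmt := by
  intro C M₀
  obtain ⟨l₀, hl₀⟩ := Num.big 5
  refine ⟨C + 4, 2 ^ max l₀ (max M₀ 30000), fun N hN => ?_⟩
  have h0 : N ≠ 0 := by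
    have : 0 < 2 ^ max l₀ (max M₀ 30000) := by positivity
    omega
  have h1 : max l₀ (max M₀ 30000) ≤ Nat.log 2 N := Nat.le_log_of_pow_le (by norm_num) hN
  have h3 := Nat.pow_log_le_self 2 h0
  obtain ⟨l, hl⟩ : ∃ l, l = Nat.log 2 N := ⟨_, rfl⟩
  rw [← hl] at h1 h3 ⊢
  have l1 : 30000 ≤ l := by omega
  have l2 : M₀ ≤ l := by omega
  have h4 := hl₀ l (by omega)
  have c0 : 0 < l ^ 3 := by positivity
  obtain ⟨τ, t1, t2⟩ : ∃ τ, l ^ 3 ≤ 2 ^ τ ∧ 2 ^ τ ≤ 2 * l ^ 3 :=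
    ⟨Nat.log 2 (l ^ 3) + 1, (Nat.lt_pow_succ_log_self (by norm_num) _).le, by
      rw [pow_succ 2, mul_comm]
      exact Nat.mul_le_mul_left 2 (Nat.pow_log_le_self 2 c0.ne')⟩
  have T0 : 0 < 2 ^ τ := by positivity
  have c1 : l ^ 3 ≤ l ^ 5 := Nat.pow_le_pow_right (by omega) (by norm_num)
  have P0 : 0 < N / 2 ^ τ := Nat.div_pos (by omega) T0
  have P1 : N / 2 ^ τ * 2 ^ τ ≤ N := Nat.div_mul_le_self _ _
  have P2 : N < (N / 2 ^ τ + 1) * 2 ^ τ := by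
    rw [mul_comm]
    exact Nat.lt_mul_div_succ N T0
  have P3 : N / 2 ^ τ ≤ N := Nat.div_le_self _ _
  obtain ⟨P, hP⟩ : ∃ P, P = N / 2 ^ τ := ⟨_, rfl⟩
  rw [← hP] at P0 P1 P2 P3
  have d1 := Nat.pow_log_le_self 2 P0.ne'
  have d2 := Nat.lt_pow_succ_log_self (b := 2) (by norm_num) P
  have d3 : Nat.log 2 P ≤ l := by
    rw [hl]
    exact Nat.log_mono_right P3
  obtain ⟨d, hd⟩ : ∃ d, d = Nat.log 2 P := ⟨_, rfl⟩
  rw [← hd] at d1 d2 d3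
  rw [pow_succ] at d2
  have n1 : N ≤ 4 * l ^ 3 * 2 ^ d := by
    calc N ≤ (P + 1) * 2 ^ τ := P2.le
      _ ≤ 2 ^ d * 2 * (2 * l ^ 3) := Nat.mul_le_mul d2 t2
      _ = 4 * l ^ 3 * 2 ^ d := by ring
  have n2 : l ≤ 2 ^ d := by
    have e1 : 2 * l ^ 3 * l ^ 2 ≤ 2 * l ^ 3 * (2 * 2 ^ d) := by
      calc 2 * l ^ 3 * l ^ 2 = 2 * l ^ 5 := by ring
        _ ≤ 4 * l ^ 3 * 2 ^ d := h4.trans (h3.trans n1)
        _ = _ := by ring
    have e2 := Nat.le_of_mul_le_mul_left e1 (by omega)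
    nlinarith
  refine ⟨P, τ, d, P1, P2, ?_, d1, l2.trans n2, ?_,
    Num.last C N l _ l1 h3 n1 (by omega) (d1.trans P3)⟩
  · calc 4 * 2 ^ τ ≤ 8 * l ^ 3 := by omega
      _ ≤ l * l ^ 3 := Nat.mul_le_mul_right _ (by omega)
      _ = l ^ 4 := by ring
  · calc 9 * (24 * (2 * d + 1 + 4 + 1) + 2) ^ 2 ≤ 9 * (49 * l) ^ 2 :=
          Nat.mul_le_mul_left 9 (Nat.pow_le_pow_left (by omega) 2)
      _ = 21609 * l ^ 2 := by ring
      _ ≤ l * l ^ 2 := Nat.mul_le_mul_right _ (by omega)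
      _ = l ^ 3 := by ring
      _ ≤ 2 ^ τ := t1

end Pool.Agent.MP_6b3410_lc.X91
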