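import Pool.Agent.MP_6b3410_lc.X91.Spec

/-!
Rails in a sparse host graph, with control of the blocks.
-/

namespace Pool.Agent.MP_6b3410_lc.X91

open Classical Pool.Agent.MP_6b3410_lc.H5 Pool.Agent.MP_6b3410_lc.H19 Pool.Agent.MP_6b3410_lc.H91

theorem rails (hL : LayStmt) : RailsStmt := by
  intro V ι _ hV n blk g R hR hS hg hc src tgt hinj hst
  obtain ⟨v0⟩ := hV
  obtain ⟨len, q, hq⟩ := hL V n blk g hg hc
  have hcard : Fintype.card (Spl len) = n := by
    rw [Fintype.card_congr q, Fintype.card_fin]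
  have hn : 3 * Fintype.card V ≤ n := by
    rw [← hcard, Fintype.card_sigma]
    simp only [Fintype.card_fin, Finset.sum_add_distrib, Finset.sum_const, Finset.card_univ,
      smul_eq_mul]
    omega
  have hgq : ∀ i, g i = blk (q.symm i).1 := fun i => by
    rw [← hq, Equiv.apply_symm_apply]
  refine ⟨hn, ?_⟩
  let lst : V → Spl len := fun v => ⟨v, ⟨len v + 2, by omega⟩⟩
  let fst : V → Spl len := fun v => ⟨v, ⟨0, by omega⟩⟩
  have hlf : ∀ u v, lst u ≠ fst v := by
    intro u v h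
    have := congrArg (fun p : Spl len => p.2.val) h
    simp [lst, fst] at this
  have hl : ∀ u v, lst u = lst v → u = v := fun u v h => congrArg Sigma.fst h
  have hf : ∀ u v, fst u = fst v → u = v := fun u v h => congrArg Sigma.fst h
  let rail : ι → Edge n := fun p =>
    mkEdge (q (lst (src p))) (q (fst (tgt p))) (fun h => hlf _ _ (q.injective h))
  have hrail : ∀ p e, rail p = e ↔ (lst (src p) = q.symm e.1.1 ∧ fst (tgt p) = q.symm e.1.2) ∨
      (lst (src p) = q.symm e.1.2 ∧ fst (tgt p) = q.symm e.1.1) := by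
    intro p e
    simp only [rail, mkEdge_eq, Equiv.eq_symm_apply]
  have hn3 : 3 ≤ Fintype.card (Fin n) := by
    rw [Fintype.card_fin]
    have : 0 < Fintype.card V := Fintype.card_pos_iff.2 ⟨v0⟩
    omega
  have hri : Function.Injective rail := by
    intro p p' h
    rcases (hrail p _).1 h with ⟨h1, h2⟩ | ⟨h1, h2⟩ <;>
      rcases (hrail p' _).1 rfl with ⟨h3, h4⟩ | ⟨h3, h4⟩
    · exact hinj _ _ (hl _ _ (h1.trans h3.symm)) (hf _ _ (h2.trans h4.symm))
    · exact absurd (h1.trans h4.symm) (hlf _ _)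
    · exact absurd (h1.trans h4.symm) (hlf _ _)
    · exact hinj _ _ (hl _ _ (h1.trans h3.symm)) (hf _ _ (h2.trans h4.symm))
  refine ⟨rail, hri, fun p => ?_, fun A0 hA0 hA => ?_⟩
  · rw [hgq, hgq]
    rcases (hrail p _).1 rfl with ⟨h1, h2⟩ | ⟨h1, h2⟩ <;> rw [← h1, ← h2]
    exacts [hst p, hS _ _ (hst p)]
  have hSR : ∀ u v : Spl len, St A0 u v → R (blk u.1) (blk v.1) := by
    rintro u v (⟨h, -⟩ | ⟨-, -, h⟩)
    · rw [h]
      exact hR _
    · exact hA _ _ h
  refine ⟨fun e =>
    decide (St A0 (q.symm e.1.1) (q.symm e.1.2) ∨ St A0 (q.symm e.1.2) (q.symm e.1.1)),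
    ?_, fun e he => ?_, fun x hx => ?_⟩
  · refine le_trans (card_edges_le fun i j => St A0 (q.symm i) (q.symm j)) ?_
    have hst' := card_st_le len A0
    rw [hcard] at hst'
    refine le_trans ?_ hst'
    refine Finset.card_le_card_of_injOn (fun p => (q.symm p.1, q.symm p.2)) (fun p hp => ?_)
      fun p _ p' _ h => ?_
    · simpa using hp
    · simp only [Prod.mk.injEq, EmbeddingLike.apply_eq_iff_eq] at h
      exact Prod.ext h.1 h.2
  · rw [hgq, hgq]
    rcases of_decide_eq_true he with h | h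
    exacts [hSR _ _ h, hS _ _ (hSR _ _ h)]
  set A1 : V → V → Prop := fun u v => A0 u v ∨ ∃ p, x (rail p) = true ∧ u = src p ∧ v = tgt p
    with hA1
  have hSt : ∀ u v : Spl len, St A1 u v ↔
      St A0 u v ∨ ∃ p, x (rail p) = true ∧ lst (src p) = u ∧ fst (tgt p) = v := by
    intro u v
    constructor
    · rintro (h | ⟨h1, h2, h3 | ⟨p, h3, h4, h5⟩⟩)
      · exact Or.inl (Or.inl h)
      · exact Or.inl (Or.inr ⟨h1, h2, h3⟩)
      · exact Or.inr ⟨p, h3, Spl.ext h4.symm (by simp only [lst]; rw [h1, h4]),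
          Spl.ext h5.symm (by simp only [fst]; rw [h2])⟩
    · rintro ((h | ⟨h1, h2, h3⟩) | ⟨p, h3, rfl, rfl⟩)
      · exact Or.inl h
      · exact Or.inr ⟨h1, h2, Or.inl h3⟩
      · exact Or.inr ⟨rfl, rfl, Or.inr ⟨p, h3, rfl, rfl⟩⟩
  have hno : ∀ p, ¬ St A0 (lst (src p)) (fst (tgt p)) ∧ ¬ St A0 (fst (tgt p)) (lst (src p)) := by
    intro p
    constructor
    · rintro (⟨-, h⟩ | ⟨-, -, h⟩)
      · simp [fst] at h
      · exact hA0 p h
    · rintro (⟨h1, h⟩ | ⟨h, -, -⟩)
      · simp [fst, lst] at h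
      · simp [fst] at h
  have hx' : ∀ e : Edge n, x e = true ↔
      St A1 (q.symm e.1.1) (q.symm e.1.2) ∨ St A1 (q.symm e.1.2) (q.symm e.1.1) := by
    intro e
    rw [hSt, hSt]
    by_cases he : e ∈ Set.range rail
    · obtain ⟨p, rfl⟩ := he
      constructor
      · intro h
        rcases (hrail p _).1 rfl with h1 | h1
        · exact Or.inl (Or.inr ⟨p, h, h1⟩)
        · exact Or.inr (Or.inr ⟨p, h, h1⟩)
      · rintro ((h | ⟨p', h, h1⟩) | (h | ⟨p', h, h1⟩))
        · exfalso
          rcases (hrail p _).1 rfl with h1 | h1 <;> rw [← h1.1, ← h1.2] at h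
          exacts [(hno p).1 h, (hno p).2 h]
        · rwa [← (hrail p' _).2 (Or.inl h1)]
        · exfalso
          rcases (hrail p _).1 rfl with h1 | h1 <;> rw [← h1.1, ← h1.2] at h
          exacts [(hno p).2 h, (hno p).1 h]
        · rwa [← (hrail p' _).2 (Or.inr h1)]
    · rw [hx e he, decide_eq_true_eq]
      constructor
      · exact fun h => h.imp Or.inl Or.inl
      · rintro ((h | ⟨p', -, h1⟩) | (h | ⟨p', -, h1⟩))
        · exact Or.inl h
        · exact absurd ⟨p', (hrail p' _).2 (Or.inl h1)⟩ he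
        · exact Or.inr h
        · exact absurd ⟨p', (hrail p' _).2 (Or.inr h1)⟩ he
  have hirr : ∀ u : Spl len, ¬ St A1 u u := by
    rintro u (h | h) <;> omega
  have hadj : ∀ i j : Fin n, (SimpleGraph.fromRel fun i j : Fin n =>
      ∃ h : i < j, x ⟨(i, j), h⟩ = true).Adj i j ↔
      St A1 (q.symm i) (q.symm j) ∨ St A1 (q.symm j) (q.symm i) := by
    intro i j
    simp only [SimpleGraph.fromRel_adj, hx']
    constructor
    · rintro ⟨-, ⟨-, h⟩ | ⟨-, h⟩⟩
      exacts [h, h.symm]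
    · intro h
      have hne : i ≠ j := fun h' => by
        subst h'
        exact h.elim (hirr _) (hirr _)
      refine ⟨hne, ?_⟩
      rcases lt_or_gt_of_ne hne with h' | h'
      exacts [Or.inl ⟨h', h⟩, Or.inr ⟨h', h.symm⟩]
  have : Nonempty V := ⟨v0⟩
  constructor
  · intro h
    exact dham_of_split ((dham_of_isHamiltonian hn3 h).equiv q.symm fun a b hab => (hadj a b).1 hab)
  · intro h
    refine isHamiltonian_of_dham hn3 ((split_of_dham (len := len) h).equiv q
      fun a b hab => (hadj _ _).2 ?_)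
    simpa using Or.inl hab

end Pool.Agent.MP_6b3410_lc.X91
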