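import Pool.Agent.MP_6b3410_lc.X91.Spec

/-!
Routing of two injections through the powers of two.
-/

namespace Pool.Agent.MP_6b3410_lc.X91

namespace Route

theorem half (M : ℕ) (O : Type) (α : O → ℕ) (hi : Function.Injective α)
    (hl : ∀ o, α o < 2 * M) (ho : ∀ x, x < 2 * M → ∃ o, α o = x) :
    ∃ s : O → O, Function.Involutive s ∧ (∀ o, s o ≠ o) ∧ ∀ c : O → Bool,
      (∀ o, c (s o) ≠ c o) → ∀ b : Bool,
        Function.Injective (fun o : {o // c o = b} => if α o < M then α o else α o - M) ∧
        ∀ x, x < M → ∃ o : {o // c o = b}, (if α o < M then α o else α o - M) = x := by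
  have h1 : ∀ o, ∃ p, α p = if α o < M then α o + M else α o - M := fun o => by
    refine ho _ ?_
    have := hl o
    split_ifs <;> omega
  choose s hs using h1
  refine ⟨s, fun o => hi ?_, fun o e => ?_, fun c hc b => ⟨fun o p e => ?_, fun x hx => ?_⟩⟩
  · have := hl o
    rw [hs, hs]
    split_ifs <;> omega
  · have h := hs o
    have := hl o
    rw [e] at h
    split_ifs at h <;> omega
  · by_contra ne
    have n1 : α o ≠ α p := fun q => ne (Subtype.ext (hi q))
    have h := hs o
    have := hl o
    have := hl p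
    have e' : (if α o < M then α o else α o - M) = if α p < M then α p else α p - M := e
    have q : s o = p := hi (by split_ifs at h e' <;> omega)
    exact hc o (by rw [q, o.2, p.2])
  · obtain ⟨o, e⟩ := ho x (by omega)
    by_cases q : c o = b
    · exact ⟨⟨o, q⟩, by simp only [e, if_pos hx]⟩
    · have h := hs o
      have q2 : c (s o) = b := by
        have := hc o
        revert this q
        cases c (s o) <;> cases c o <;> cases b <;> simp
      refine ⟨⟨s o, q2⟩, ?_⟩
      rw [e, if_pos hx] at h
      simp only [h]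
      split_ifs <;> omega

theorem near_self (x : ℕ) : Near x x := ⟨0, by simp⟩

theorem near_add {x y : ℕ} (k : ℕ) (h : Near x y) : Near (x + k) (y + k) := by
  obtain ⟨a, h⟩ := h
  exact ⟨a, by omega⟩

theorem near_symm {x y : ℕ} (h : Near x y) : Near y x := by
  obtain ⟨a, h⟩ := h
  exact ⟨a, by omega⟩

theorem near_cut (d x : ℕ) (b : Bool) :
    Near x ((if x < 2 ^ d then x else x - 2 ^ d) + if b then 2 ^ d else 0) := by
  split_ifs
  · exact ⟨d, by omega⟩
  · exact near_self x
  · exact ⟨0, by omega⟩
  · exact ⟨d, by omega⟩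

theorem onto (h : ColStmt) (d : ℕ) : ∀ (O : Type) [Finite O] (α β : O → ℕ),
    Function.Injective α → Function.Injective β → (∀ o, α o < 2 ^ d) → (∀ o, β o < 2 ^ d) →
    (∀ x, x < 2 ^ d → ∃ o, α o = x) → (∀ x, x < 2 ^ d → ∃ o, β o = x) →
    ∃ path : ℕ → O → ℕ, path 0 = α ∧ path (2 * d) = β ∧ (∀ l, Function.Injective (path l)) ∧
      (∀ l o, path l o < 2 ^ d) ∧ ∀ l o, Near (path l o) (path (l + 1) o) := by
  induction d with
  | zero =>
    intro O _ α β ia _ la lb _ _
    refine ⟨fun _ => α, rfl, funext fun o => ?_, fun _ => ia, fun _ => la, fun _ o => near_self _⟩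
    have := la o
    have := lb o
    simp only [pow_zero] at *
    omega
  | succ d ih =>
    intro O _ α β ia ib la lb oa ob
    rw [pow_succ'] at la lb oa ob ⊢
    obtain ⟨s, s1, s2, s3⟩ := half (2 ^ d) O α ia la oa
    obtain ⟨t, t1, t2, t3⟩ := half (2 ^ d) O β ib lb ob
    obtain ⟨c, hc⟩ := h O s t s1 t1 s2 t2
    have key := fun b : Bool => ih {o // c o = b} _ _ (s3 c (fun o => (hc o).1) b).1
      (t3 c (fun o => (hc o).2) b).1
      (fun o => by
        have := la o
        split_ifs <;> omega)
      (fun o => by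
        have := lb o
        split_ifs <;> omega)
      (s3 c (fun o => (hc o).1) b).2 (t3 c (fun o => (hc o).2) b).2
    choose p p0 p1 p2 p3 p4 using key
    obtain ⟨q, hq⟩ : ∃ q : ℕ → O → ℕ,
        ∀ l o, q l o = p (c o) l ⟨o, rfl⟩ + if c o then 2 ^ d else 0 := ⟨_, fun _ _ => rfl⟩
    have qi : ∀ l, Function.Injective (q l) := by
      intro l o o' e
      rw [hq, hq] at e
      have a1 := p3 (c o) l ⟨o, rfl⟩
      have a2 := p3 (c o') l ⟨o', rfl⟩
      have cc : c o' = c o := by
        by_contra ne
        revert e ne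
        generalize p (c o) l ⟨o, rfl⟩ = u at a1
        generalize p (c o') l ⟨o', rfl⟩ = v at a2
        cases c o <;> cases c o' <;> simp <;> omega
      have tr : ∀ (b : Bool) (e : c o' = b), p (c o') l ⟨o', rfl⟩ = p b l ⟨o', e⟩ := by
        rintro b rfl
        rfl
      rw [tr (c o) cc, cc] at e
      exact congrArg Subtype.val (p2 (c o) l (Nat.add_right_cancel e))
    have ql : ∀ l o, q l o < 2 * 2 ^ d := by
      intro l o
      have a1 := p3 (c o) l ⟨o, rfl⟩
      rw [hq]
      split_ifs <;> omega
    refine ⟨fun l => if l = 0 then α else if l ≤ 2 * d + 1 then q (l - 1) else β, by simp, ?_,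
      fun l => ?_, fun l o => ?_, fun l o => ?_⟩
    · dsimp only
      rw [if_neg (by omega), if_neg (by omega)]
    · dsimp only
      split_ifs
      exacts [ia, qi _, ib]
    · dsimp only
      split_ifs
      exacts [la o, ql _ o, lb o]
    · dsimp only
      rw [if_neg (Nat.succ_ne_zero l), Nat.add_sub_cancel]
      rcases l with _ | l
      · rw [if_pos rfl, if_pos (by omega), hq, p0]
        exact near_cut d _ _
      · rw [if_neg (Nat.succ_ne_zero l), Nat.add_sub_cancel]
        rcases lt_trichotomy l (2 * d) with hl | rfl | hl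
        · rw [if_pos (by omega), if_pos (by omega), hq, hq]
          exact near_add _ (p4 _ _ _)
        · rw [if_pos (by omega), if_neg (by omega), hq, p1]
          exact near_symm (near_cut d _ _)
        · rw [if_neg (by omega), if_neg (by omega)]
          exact near_self _

end Route

theorem route (h : ColStmt) : RouteStmt := by
  intro d O _ α β ia ib la lb
  obtain ⟨σ, hσ⟩ := Equiv.Perm.exists_extending_pair
    (f := fun o => (⟨α o, la o⟩ : Fin (2 ^ d))) (g := fun o => (⟨β o, lb o⟩ : Fin (2 ^ d)))
    (fun o p e => ia (congrArg Fin.val e)) (fun o p e => ib (congrArg Fin.val e))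
  obtain ⟨p, p0, p1, p2, p3, p4⟩ := Route.onto h d (Fin (2 ^ d)) Fin.val (fun i => (σ i).val)
    Fin.val_injective (Fin.val_injective.comp σ.injective) (fun i => i.2) (fun i => (σ i).2)
    (fun x hx => ⟨⟨x, hx⟩, rfl⟩) (fun x hx => ⟨σ.symm ⟨x, hx⟩, by simp⟩)
  refine ⟨fun l o => p l ⟨α o, la o⟩, funext fun o => congrFun p0 _, funext fun o => ?_,
    fun l o o' e => ia (congrArg Fin.val (p2 l e)), fun l o => p3 l _, fun l o => p4 l _⟩
  exact (congrFun p1 _).trans (congrArg Fin.val (hσ o))

end Pool.Agent.MP_6b3410_lc.X91
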